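import Pool.Agent.Work.MP_e10cd8_co.Exact.XAsym
import Pool.Agent.Work.MP_e10cd8_co.All.AAsym

-- merged part: Pool.Agent.Work.MP_e10cd8_co.Mid.Mom
section
/-! Moments of the mass on a random hyperplane (paper 1a). -/

namespace Pool.Agent.Work.MP_e10cd8_co.Mid
open Finset Four

variable {q s : ℕ} [Fact q.Prime]

theorem card_sub (U : Submodule (ZMod q) (V q s)) :
    (sel fun b : V q s => b ∈ U).card = q ^ Module.finrank (ZMod q) U := by
  classical
  have := Module.card_eq_pow_finrank (K := ZMod q) (V := U)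
  rw [ZMod.card, Fintype.card_subtype] at this
  rw [← this]
  congr 1

/-- the orthogonal space for the dot product -/
def orth (U : Submodule (ZMod q) (V q s)) : Submodule (ZMod q) (V q s) :=
  LinearMap.BilinForm.orthogonal (dotProductBilin (ZMod q) (ZMod q)) U

theorem mem_orth {U : Submodule (ZMod q) (V q s)} {b : V q s} :
    b ∈ orth U ↔ ∀ u ∈ U, u ⬝ᵥ b = 0 := Iff.rfl

theorem finrank_orth (U : Submodule (ZMod q) (V q s)) :
    Module.finrank (ZMod q) (orth U) = s - Module.finrank (ZMod q) U := by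
  rw [orth, LinearMap.BilinForm.finrank_orthogonal ⟨fun v h => dotProduct_eq_zero v h,
    fun v h => dotProduct_eq_zero v fun w => (dotProduct_comm _ _).trans (h w)⟩]
  simp

theorem finrank_le (U : Submodule (ZMod q) (V q s)) : Module.finrank (ZMod q) U ≤ s :=
  (Submodule.finrank_le U).trans (by simp)

/-- `LinearMap.BilinForm.finrank_orthogonal` for `Matrix.toBilin' 1` or `dotProductBilin`,
`Module.card_eq_pow_finrank` -/
theorem card_perp (U : Submodule (ZMod q) (V q s)) :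
    (sel fun b : V q s => ∀ u ∈ U, u ⬝ᵥ b = 0).card * q ^ Module.finrank (ZMod q) U = q ^ s := by
  have e : (sel fun b : V q s => ∀ u ∈ U, u ⬝ᵥ b = 0) = sel fun b => b ∈ orth U := by
    simp only [mem_orth]
  rw [e, card_sub, finrank_orth, ← pow_add, Nat.sub_add_cancel (finrank_le U)]

namespace Dat
variable {α : Type} [Fintype α] [DecidableEq α] (D : Dat q s α)

/-- the function `g_K (j, U)` of the paper -/
noncomputable def gK (K : Finset α) (j : ℕ) (U : Submodule (ZMod q) (V q s)) : ℝ :=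
  av fun b => ind (∀ u ∈ U, u ⬝ᵥ b = 0) * D.mu (K ∩ D.on b) ^ j

theorem gK_zero (K : Finset α) (U : Submodule (ZMod q) (V q s)) :
    D.gK K 0 U = 1 / (q : ℝ) ^ Module.finrank (ZMod q) U := by
  have h : ((sel fun b : V q s => ∀ u ∈ U, u ⬝ᵥ b = 0).card : ℝ) *
      (q : ℝ) ^ Module.finrank (ZMod q) U = (q : ℝ) ^ s := by exact_mod_cast card_perp U
  simp only [gK, pow_zero, mul_one, av_ind, card_V, Nat.cast_pow]
  rw [div_eq_div_iff (pow_pos q_pos _).ne' (pow_pos q_pos _).ne', h, one_mul]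

theorem gK_succ {K : Finset α} (hK : K ⊆ D.Ω) (j : ℕ) (U : Submodule (ZMod q) (V q s)) :
    D.gK K (j + 1) U =
      (∑ a ∈ K, D.gK K j (U ⊔ Submodule.span (ZMod q) {D.v a})) / D.Ω.card := by
  simp only [gK]
  rw [← av_sum, ← av_div]
  congr 1
  funext b
  have e : K ∩ D.on b = selIn K fun a => D.v a ⬝ᵥ b = 0 := by
    ext a
    rw [mem_inter, mem_on, mem_selIn]
    exact ⟨fun h => ⟨h.1, h.2.1⟩, fun h => ⟨h.1, h.2, hK h.1⟩⟩
  have e2 : ∀ a, ind (∀ u ∈ U ⊔ Submodule.span (ZMod q) {D.v a}, u ⬝ᵥ b = 0) =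
      ind (∀ u ∈ U, u ⬝ᵥ b = 0) * ind (D.v a ⬝ᵥ b = 0) := fun a => by
    rw [← Prob1_and]
    refine congrArg _ (propext ⟨fun h => ⟨fun u hu => h u (Submodule.mem_sup_left hu),
      h _ (Submodule.mem_sup_right (Submodule.mem_span_singleton_self _))⟩, fun h u hu => ?_⟩)
    obtain ⟨x, hx, y, hy, rfl⟩ := Submodule.mem_sup.1 hu
    obtain ⟨c, rfl⟩ := Submodule.mem_span_singleton.1 hy
    rw [add_dotProduct, smul_dotProduct, h.1 x hx, h.2, smul_zero, add_zero]
  simp only [e2]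
  rw [← sum_mul, ← mul_sum, ← card_selIn, ← e, pow_succ, mu]
  ring

theorem gK_step {K : Finset α} (hK : K ⊆ D.Ω) (j : ℕ) (U : Submodule (ZMod q) (V q s)) {x y : ℝ}
    (x0 : 0 ≤ x) (y0 : 0 ≤ y) (hx : D.gK K j U ≤ x) (hy : ∀ U' : Submodule (ZMod q) (V q s),
      Module.finrank (ZMod q) U' = Module.finrank (ZMod q) U + 1 → D.gK K j U' ≤ y) :
    D.gK K (j + 1) U ≤ D.mu (selIn D.Ω fun a => D.v a ∈ U) * x + D.mu K * y := by
  rw [D.gK_succ hK, mu, mu, div_mul_eq_mul_div, div_mul_eq_mul_div, ← add_div]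
  refine div_le_div_of_nonneg_right ((sum_le_sum (g := fun a => ind (D.v a ∈ U) * x + y)
    fun a _ => ?_).trans ?_) (Nat.cast_nonneg _)
  · by_cases h : D.v a ∈ U
    · rw [sup_eq_left.2 ((Submodule.span_singleton_le_iff_mem _ _).2 h), ind_pos h]
      linarith
    · rw [ind_neg h, zero_mul, zero_add]
      exact hy _ (Submodule.finrank_sup_span_singleton h)
  · rw [sum_add_distrib, ← sum_mul, sum_const, nsmul_eq_mul, card_selIn]
    exact add_le_add (mul_le_mul_of_nonneg_right (sum_le_sum_of_subset_of_nonneg hK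
      fun _ _ _ => ind_nonneg _) x0) le_rfl

/-- HEAVY. By induction on `j`, for all `U` of codimension `ρ = s - finrank U`:
`gK Ω j U ≤ 2 ^ j / q ^ s * (max 1 ((q : ℝ) * 2 ^ ρ / 2 ^ j)) ^ ρ`. If `v a ∈ U` the space stays (share at
most `2 ^ (-ρ)` by `spr`), else the rank grows by one. Then `U = ⊥`, `g1`, `g2`. -/
theorem heavy : av (fun h => D.mu (D.on h) ^ D.G) ≤ 2 ^ D.G / (q : ℝ) ^ s := by
  have k : ∀ (j : ℕ) (U : Submodule (ZMod q) (V q s)) (ρ : ℕ), ρ + Module.finrank (ZMod q) U = s →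
      D.gK D.Ω j U ≤ 2 ^ j / (q : ℝ) ^ s * max 1 ((q : ℝ) * 2 ^ ρ / 2 ^ j) ^ ρ := fun j => by
    have q0 : (0 : ℝ) < q := q_pos
    induction' j with j ih <;> intro U ρ e
    · rw [gK_zero, pow_zero, div_one, div_mul_eq_mul_div, one_mul, le_div_iff₀ (pow_pos q0 _),
        ← congrArg (fun n => (q : ℝ) ^ n) e, pow_add, mul_comm, mul_one_div,
        mul_div_cancel_right₀ _ (pow_pos q0 _).ne']
      exact pow_le_pow_left₀ q0.le (le_max_of_le_right
        (le_mul_of_one_le_right q0.le (one_le_pow₀ one_le_two))) _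
    obtain ⟨c, hc⟩ : ∃ c : ℝ, c = 2 ^ j / (q : ℝ) ^ s * max 1 ((q : ℝ) * 2 ^ ρ / 2 ^ (j + 1)) ^ ρ :=
      ⟨_, rfl⟩
    have c0 : 0 ≤ c := by rw [hc]; positivity
    refine (D.gK_step Subset.rfl j U (x := 2 ^ ρ * c) (y := c) (by positivity) c0
      ((ih U ρ e).trans ?_) fun U' e' => ?_).trans ?_
    · rw [hc, mul_left_comm, ← mul_pow]
      refine mul_le_mul_of_nonneg_left (pow_le_pow_left₀ (by positivity) ?_ _) (by positivity)
      rw [mul_max_of_nonneg _ _ zero_le_two, pow_succ]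
      exact max_le_max (by norm_num) (le_of_eq (by field_simp))
    · obtain ⟨ρ, rfl⟩ : ∃ n, ρ = n + 1 := ⟨ρ - 1, by have := finrank_le U'; omega⟩
      refine (ih U' ρ (by omega)).trans ?_
      rw [hc, show (q : ℝ) * 2 ^ (ρ + 1) / 2 ^ (j + 1) = q * 2 ^ ρ / 2 ^ j by
        rw [pow_succ, pow_succ, ← mul_assoc, mul_div_mul_right _ _ two_ne_zero]]
      exact mul_le_mul_of_nonneg_left (pow_le_pow_right₀ (le_max_left _ _) ρ.le_succ)
        (by positivity)
    · have h1 : ((selIn D.Ω fun a => D.v a ∈ U).card : ℝ) * 2 ^ s ≤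
          D.Ω.card * 2 ^ Module.finrank (ZMod q) U := by exact_mod_cast D.spr U
      rw [← congrArg (fun n => (2 : ℝ) ^ n) e, pow_add, ← mul_assoc] at h1
      have h2 : D.mu (selIn D.Ω fun a => D.v a ∈ U) * 2 ^ ρ ≤ 1 := by
        rw [mu, div_mul_eq_mul_div, div_le_one D.card_pos]
        exact le_of_mul_le_mul_right h1 (by positivity)
      have h3 := mul_le_mul_of_nonneg_right h2 c0
      have h4 := mul_le_mul_of_nonneg_right (D.mu_le_one Subset.rfl) c0
      have h5 : 2 ^ (j + 1) / (q : ℝ) ^ s * max 1 ((q : ℝ) * 2 ^ ρ / 2 ^ (j + 1)) ^ ρ = 2 * c := by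
        rw [hc]
        ring
      linarith
  have := k D.G ⊥ s (by simp)
  rw [max_eq_left, one_pow, mul_one] at this
  · refine le_trans (le_of_eq ?_) this
    rw [gK]
    congr 1
    funext b
    rw [ind_pos (by simp), one_mul, inter_eq_right.2 (D.on_sub b)]
  · rw [div_le_one (by positivity), ← Nat.sub_add_cancel D.num.g1, pow_add]
    exact mul_le_mul_of_nonneg_right (by exact_mod_cast D.num.g2) (by positivity)

/-- BLOCK. By induction on `j`, for all `U`:
`gK K (j + 1) U ≤ (j + 1) * mu K ^ j / nb + mu K ^ (j + 1) / q ^ (finrank U + j + 1)`. The share of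
`a` with `v a ∈ U` is at most `q ^ finrank U / nb` (`fib`, `card_sub`) and
`gK K j U ≤ mu K ^ j / q ^ finrank U`. Then `U = ⊥`, `n3`. -/
theorem block {K : Finset α} (hK : K ⊆ D.Ω) {j : ℕ} (hj : D.om ≤ j) :
    av (fun b => D.mu (K ∩ D.on b) ^ (j + 1)) ≤ (j + 2) * D.mu K ^ j / D.nb := by
  have q0 : (0 : ℝ) < q := q_pos
  have m0 := D.mu_nonneg K
  have n0 := D.nb_pos
  have k1 : ∀ (j : ℕ) (U : Submodule (ZMod q) (V q s)),
      D.gK K j U ≤ D.mu K ^ j / (q : ℝ) ^ Module.finrank (ZMod q) U := fun j U => by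
    rw [div_eq_mul_one_div, ← D.gK_zero K U, gK, gK, ← av_mul_left]
    refine av_mono fun b => ?_
    rw [pow_zero, mul_one, mul_comm]
    exact mul_le_mul_of_nonneg_right (pow_le_pow_left₀ (D.mu_nonneg _)
      (D.mu_mono inter_subset_left) _) (ind_nonneg _)
  have k2 : ∀ U : Submodule (ZMod q) (V q s), D.mu (selIn D.Ω fun a => D.v a ∈ U) ≤
      (q : ℝ) ^ Module.finrank (ZMod q) U / D.nb := fun U => by
    have := D.sum_on_le (fun z => ind (z ∈ U)) fun _ => ind_nonneg _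
    rwa [← card_selIn, ← card_sel, card_sub, Nat.cast_pow] at this
  have k3 : ∀ (j : ℕ) (U : Submodule (ZMod q) (V q s)) (y : ℝ), 0 ≤ y →
      (∀ U' : Submodule (ZMod q) (V q s), Module.finrank (ZMod q) U' =
        Module.finrank (ZMod q) U + 1 → D.gK K j U' ≤ y) →
      D.gK K (j + 1) U ≤ D.mu K ^ j / D.nb + D.mu K * y := fun j U y y0 hy => by
    refine (D.gK_step hK j U (by positivity) y0 (k1 j U) hy).trans (add_le_add
      ((mul_le_mul_of_nonneg_right (k2 U) (by positivity)).trans_eq ?_) le_rfl)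
    field_simp
  have k : ∀ (j : ℕ) (U : Submodule (ZMod q) (V q s)), D.gK K (j + 1) U ≤
      (j + 1) * D.mu K ^ j / D.nb +
        D.mu K ^ (j + 1) / (q : ℝ) ^ (Module.finrank (ZMod q) U + j + 1) := fun j => by
    induction' j with j ih <;> intro U
    · refine (k3 0 U (1 / (q : ℝ) ^ (Module.finrank (ZMod q) U + 1)) (by positivity)
        fun U' e => by rw [gK_zero, e]).trans_eq ?_
      simp [div_eq_mul_inv]
    · refine (k3 (j + 1) U ((j + 1) * D.mu K ^ j / D.nb + D.mu K ^ (j + 1) /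
        (q : ℝ) ^ (Module.finrank (ZMod q) U + 1 + j + 1)) (by positivity)
        fun U' e => e ▸ ih U').trans_eq ?_
      push_cast
      ring
  have h1 := k j ⊥
  have h2 : D.mu K ^ (j + 1) / (q : ℝ) ^ (Module.finrank (ZMod q)
      (⊥ : Submodule (ZMod q) (V q s)) + j + 1) ≤ D.mu K ^ j / D.nb :=
    div_le_div₀ (by positivity) (pow_le_pow_of_le_one m0 (D.mu_le_one hK) j.le_succ) n0
      (D.num.n3.trans (pow_le_pow_right₀ (Nat.one_le_cast.2 (Fact.out : q.Prime).pos) (by omega)))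
  have h3 : D.gK K (j + 1) ⊥ = av fun b => D.mu (K ∩ D.on b) ^ (j + 1) := by
    rw [gK]
    congr 1
    funext b
    rw [ind_pos (by simp), one_mul]
  have h4 : (j + 2) * D.mu K ^ j / D.nb = (j + 1) * D.mu K ^ j / D.nb + D.mu K ^ j / D.nb := by
    ring
  linarith

end Dat

end Pool.Agent.Work.MP_e10cd8_co.Mid
end

-- merged part: Pool.Agent.Work.MP_e10cd8_co.Mid.Link
section
/-! Links between hyperplanes and the means of the kernels (paper 1b, 1e). -/

namespace Pool.Agent.Work.MP_e10cd8_co.Mid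
open Finset Four

namespace Dat
variable {q s : ℕ} [Fact q.Prime] {α : Type} [Fintype α] [DecidableEq α] (D : Dat q s α)

theorem card_on (b : V q s) : ((D.on b).card : ℝ) = ∑ a ∈ D.Ω, ind (D.v a ⬝ᵥ b = 0) := by
  rw [← card_selIn]
  congr 2
  ext a
  rw [mem_on, mem_selIn, and_comm]

/-- PENCIL. For fixed `a` count the `l` with `v a ⬝ᵥ b' + l * (v a ⬝ᵥ b) = 0`. -/
theorem pencil (b b' : V q s) :
    ∑ l : ZMod q, (D.t (b' + l • b) - 1) = q * D.X b b' - D.t b := by
  have e : ∀ a, ∑ l : ZMod q, ind (D.v a ⬝ᵥ (b' + l • b) = 0) =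
      q * ind (D.v a ⬝ᵥ b = 0 ∧ D.v a ⬝ᵥ b' = 0) + (1 - ind (D.v a ⬝ᵥ b = 0)) := fun a => by
    simp only [dotProduct_add, dotProduct_smul, smul_eq_mul]
    by_cases h : D.v a ⬝ᵥ b = 0
    · simp [h, ind_pos, ZMod.card]
    · rw [ind_neg h, ind_neg fun k => h k.1, mul_zero, zero_add, sub_zero, ← card_sel,
        Nat.cast_eq_one, card_eq_one]
      refine ⟨-(D.v a ⬝ᵥ b') / (D.v a ⬝ᵥ b), ?_⟩
      ext l
      rw [mem_sel, mem_singleton, eq_div_iff h, add_comm, eq_neg_iff_add_eq_zero]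
  have e2 : ((D.on b ∩ D.on b').card : ℝ) =
      ∑ a ∈ D.Ω, ind (D.v a ⬝ᵥ b = 0 ∧ D.v a ⬝ᵥ b' = 0) := by
    rw [← card_selIn]
    congr 2
    ext a
    simp only [mem_inter, mem_on, mem_selIn]
    tauto
  have c := D.card_pos.ne'
  simp only [t, X, mu, sum_sub_distrib, ← mul_sum, ← sum_div, e2, D.card_on]
  rw [sum_comm]
  simp only [e, sum_add_distrib, sum_sub_distrib, ← mul_sum, sum_const, nsmul_eq_mul, card_univ,
    ZMod.card]
  field_simp
  ring

theorem dich {b b' : V q s} (h : ¬ D.A0 b) (h' : D.lk b b') (h2 : ¬ D.two b b') :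
    ∃ l : ZMod q, D.X b b' ≤ 2 * D.mu (D.on (b' + l • b)) := by
  have q0 : (0 : ℝ) < q := q_pos
  have x0 : D.ζ ≤ D.X b b' := h'
  have z0 := D.ζ_pos
  have x1 := D.num.z1.trans (mul_le_mul_of_nonneg_right x0 q0.le)
  have p := D.pencil b b'
  have t2 := D.t_le h
  obtain ⟨l, hl⟩ : ∃ l : ZMod q, ∀ l', l' ≠ l → ¬ D.A0 (b' + l' • b) := by
    by_cases c : ∃ l : ZMod q, D.A0 (b' + l • b)
    · obtain ⟨l, c⟩ := c
      exact ⟨l, fun l' k k' => h2 ⟨l', l, k, k', c⟩⟩
    · exact ⟨0, fun l' _ k => c ⟨l', k⟩⟩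
  refine ⟨l, le_of_mul_le_mul_left ?_ q0⟩
  rw [← add_sum_erase _ _ (mem_univ l)] at p
  have k := sum_le_card_nsmul (univ.erase l) (fun l => D.t (b' + l • b) - 1) (D.X b b' / 4)
    fun l' k => (le_abs_self _).trans ((not_lt.1 (hl l' (ne_of_mem_erase k))).trans (by linarith))
  have k2 : ((univ.erase l).card : ℝ) ≤ q :=
    Nat.cast_le.2 ((card_le_univ _).trans_eq (ZMod.card q))
  have k3 := mul_le_mul_of_nonneg_right k2 (show 0 ≤ D.X b b' / 4 by linarith)
  rw [nsmul_eq_mul] at k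
  rw [t] at p
  linarith

/-- `mix`, `z4` -/
theorem av_A0 : av (fun b => ind (D.A0 b)) ≤ D.w ^ 3 / D.nb := by
  have z0 := D.ζ_pos
  refine (av_mono (g := fun b => 16 / D.ζ ^ 2 * (D.t b - 1) ^ 2) fun b =>
    Prob1_le (fun h => ?_) (by positivity)).trans ?_
  · have := pow_le_pow_left₀ (by positivity) (le_of_lt h) 2
    rw [sq_abs] at this
    rw [div_mul_eq_mul_div, one_le_div (by positivity)]
    linarith
  · rw [av_mul_left]
    refine (mul_le_mul_of_nonneg_left (mix D.ne D.v D.nb_pos D.fib) (by positivity)).trans ?_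
    rw [← mul_div_assoc, div_mul_eq_mul_div]
    exact div_le_div_of_nonneg_right ((div_le_iff₀ (by positivity)).2 D.num.z4) D.nb_pos.le

/-- union bound over `l ≠ l'`; substitute `b' = h - l • b`, then `av_comm`, `av_smul`,
`av_shift` -/
theorem av_two : av (fun b => av fun b' => ind (D.two b b')) ≤ D.w ^ 8 / D.nb ^ 2 := by
  have n0 := D.nb_pos
  have w0 := D.w_pos
  have e : ∀ l l' : ZMod q, l ≠ l' →
      av (fun b => av fun b' => ind (D.A0 (b' + l • b)) * ind (D.A0 (b' + l' • b))) =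
      av (fun b => ind (D.A0 b)) * av fun b => ind (D.A0 b) := fun l l' h => by
    have e1 : ∀ b, av (fun b' => ind (D.A0 (b' + l • b)) * ind (D.A0 (b' + l' • b))) =
        av fun z => ind (D.A0 z) * ind (D.A0 ((l' - l) • b + z)) := fun b => by
      rw [← av_shift (fun z => ind (D.A0 z) * ind (D.A0 ((l' - l) • b + z))) (l • b)]
      congr 1
      funext z
      rw [show (l' - l) • b + (z + l • b) = z + l' • b by rw [sub_smul]; abel]
    simp only [e1]
    rw [av_comm, ← av_mul_right]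
    congr 1
    funext z
    rw [av_mul_left, av_smul (fun b => ind (D.A0 (b + z))) (sub_ne_zero.2 h.symm),
      av_shift (fun b => ind (D.A0 b))]
  refine (av_mono fun b => av_mono (g := fun b' => ∑ x ∈ offDiag (univ : Finset (ZMod q)),
    ind (D.A0 (b' + x.1 • b)) * ind (D.A0 (b' + x.2 • b))) fun b' => Prob1_le ?_
      (sum_nonneg fun _ _ => mul_nonneg (ind_nonneg _) (ind_nonneg _))).trans ?_
  · rintro ⟨l, l', h, h1, h2⟩
    refine le_trans ?_ (single_le_sum (fun _ _ => mul_nonneg (ind_nonneg _) (ind_nonneg _))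
      (a := (l, l')) (mem_offDiag.2 ⟨mem_univ _, mem_univ _, h⟩))
    rw [ind_pos h1, ind_pos h2, mul_one]
  simp only [av_sum]
  refine (sum_le_card_nsmul _ _ (D.w ^ 3 / D.nb * (D.w ^ 3 / D.nb)) fun x hx => ?_).trans ?_
  · rw [e _ _ (mem_offDiag.1 hx).2.2]
    exact mul_self_le_mul_self (av_nonneg fun _ => ind_nonneg _) D.av_A0
  · have k : ((offDiag (univ : Finset (ZMod q))).card : ℝ) ≤ D.w * D.w := by
      rw [offDiag_card, card_univ, ZMod.card]
      exact (Nat.cast_le.2 (Nat.sub_le _ _)).trans ((Nat.cast_mul _ _).trans_le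
        (mul_self_le_mul_self (Nat.cast_nonneg _) D.num.o1))
    rw [nsmul_eq_mul]
    refine (mul_le_mul_of_nonneg_right k (by positivity)).trans_eq ?_
    field_simp

theorem av_nTyp : av (fun b => ind (¬ D.Typ b)) ≤ D.w ^ 272 / D.nb := by
  have n0 := D.nb_pos
  have w0 := D.w_pos
  have w1 := D.w_ge
  refine (av_mono (g := fun b => ind (D.A0 b) +
    D.w ^ 263 * D.nb * av fun b' => ind (D.two b b')) fun b => Prob1_le (fun h => ?_)
      (add_nonneg (ind_nonneg _) (mul_nonneg (by positivity)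
        (av_nonneg fun _ => ind_nonneg _)))).trans ?_
  · have a := mul_nonneg (show 0 ≤ D.w ^ 263 * D.nb by positivity)
      (av_nonneg fun b' => ind_nonneg (D.two b b'))
    by_cases c : D.A0 b
    · rw [ind_pos c]
      linarith
    · have := not_le.1 fun k => h ⟨c, k⟩
      rw [Lam, div_lt_iff₀' (by positivity)] at this
      linarith [ind_nonneg (D.A0 b)]
  rw [av_add, av_mul_left]
  refine (add_le_add D.av_A0 (mul_le_mul_of_nonneg_left D.av_two (by positivity))).trans ?_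
  rw [show D.w ^ 263 * D.nb * (D.w ^ 8 / D.nb ^ 2) = D.w ^ 271 / D.nb by field_simp, ← add_div]
  refine div_le_div_of_nonneg_right ?_ n0.le
  have a : D.w ^ 3 ≤ D.w ^ 271 := pow_le_pow_right₀ (by linarith) (by norm_num)
  have := mul_le_mul_of_nonneg_left w1 (pow_pos w0 271).le
  rw [pow_succ D.w 271]
  linarith [pow_pos w0 271]

theorem Link_heavy (b : V q s) :
    av (fun b' => ∑ l : ZMod q, D.mu (D.on (b' + l • b)) ^ D.G) ≤ q * (2 ^ D.G / (q : ℝ) ^ s) := by
  rw [av_sum]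
  refine (sum_le_card_nsmul _ _ _ fun l _ =>
    (av_shift (fun h => D.mu (D.on h) ^ D.G) _).trans_le D.heavy).trans_eq ?_
  rw [nsmul_eq_mul, card_univ, ZMod.card]

theorem X_nonneg (b b' : V q s) : 0 ≤ D.X b b' := mul_nonneg (Nat.cast_nonneg _) (D.mu_nonneg _)

/-- `dich`, `heavy`, `z5` -/
theorem av_lk {b : V q s} (h : D.Typ b) : av (fun b' => ind (D.lk b b')) ≤ 2 * D.Lam := by
  have z0 := D.ζ_pos
  have n0 := D.nb_pos
  have w0 := D.w_pos
  have q0 : (0 : ℝ) < q := q_pos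
  refine (av_mono (g := fun b' => ind (D.two b b') +
    (2 / D.ζ) ^ D.G * ∑ l : ZMod q, D.mu (D.on (b' + l • b)) ^ D.G) fun b' => ?_).trans ?_
  · have a : 0 ≤ (2 / D.ζ) ^ D.G * ∑ l : ZMod q, D.mu (D.on (b' + l • b)) ^ D.G :=
      mul_nonneg (by positivity) (sum_nonneg fun _ _ => pow_nonneg (D.mu_nonneg _) _)
    refine Prob1_le (fun k => ?_) (add_nonneg (ind_nonneg _) a)
    by_cases c : D.two b b'
    · rw [ind_pos c]
      linarith
    obtain ⟨l, hl⟩ := D.dich h.1 k c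
    rw [ind_neg c, zero_add]
    refine le_trans ?_ (mul_le_mul_of_nonneg_left (single_le_sum
      (fun _ _ => pow_nonneg (D.mu_nonneg _) _) (mem_univ l)) (by positivity))
    rw [← mul_pow, div_mul_eq_mul_div]
    exact one_le_pow₀ ((one_le_div z0).2 (le_trans k hl))
  rw [av_add, av_mul_left, two_mul D.Lam]
  refine add_le_add h.2 ((mul_le_mul_of_nonneg_left (D.Link_heavy b) (by positivity)).trans ?_)
  rw [Lam, mul_left_comm, ← mul_div_assoc, ← mul_pow, ← mul_div_assoc,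
    div_le_div_iff₀ (by positivity) (by positivity), one_mul,
    show 2 / D.ζ * 2 = 4 / D.ζ by ring]
  exact D.num.z5

/-- `dich`, `heavy`, `n2` -/
theorem av_thb : av D.thb ≤ D.w ^ 9 / D.nb ^ 2 := by
  have n0 := D.nb_pos
  have w0 := D.w_pos
  have w1 := D.w_ge
  have q0 : (0 : ℝ) < q := q_pos
  refine (av_mono (g := fun b => av (fun b' => ind (D.two b b')) +
    2 ^ D.G * (q * (2 ^ D.G / (q : ℝ) ^ s))) fun b => (av_mono (g := fun b' => ind (D.two b b') +
      2 ^ D.G * ∑ l : ZMod q, D.mu (D.on (b' + l • b)) ^ D.G) fun b' => ?_).trans ?_).trans ?_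
  · have a : 0 ≤ 2 ^ D.G * ∑ l : ZMod q, D.mu (D.on (b' + l • b)) ^ D.G :=
      mul_nonneg (by positivity) (sum_nonneg fun _ _ => pow_nonneg (D.mu_nonneg _) _)
    have m0 : 0 ≤ min 1 (D.X b b') := le_min zero_le_one (D.X_nonneg _ _)
    by_cases k : D.Typ b ∧ D.lk b b'
    swap
    · rw [th, ind_neg k, zero_mul]
      exact add_nonneg (ind_nonneg _) a
    rw [th, ind_pos k, one_mul]
    by_cases c : D.two b b'
    · rw [ind_pos c]
      linarith [pow_le_one₀ (n := D.G) m0 (min_le_left _ _)]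
    obtain ⟨l, hl⟩ := D.dich k.1.1 k.2 c
    rw [ind_neg c, zero_add]
    refine le_trans ?_ (mul_le_mul_of_nonneg_left (single_le_sum
      (fun _ _ => pow_nonneg (D.mu_nonneg _) _) (mem_univ l)) (by positivity))
    rw [← mul_pow]
    exact pow_le_pow_left₀ m0 ((min_le_right _ _).trans hl) _
  · rw [av_add, av_mul_left]
    exact add_le_add le_rfl (mul_le_mul_of_nonneg_left (D.Link_heavy b) (by positivity))
  rw [av_add, av_const]
  have a1 : 2 ^ D.G * (q * (2 ^ D.G / (q : ℝ) ^ s)) ≤ D.w ^ 8 / D.nb ^ 2 := by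
    rw [mul_left_comm, ← mul_div_assoc, ← mul_pow, ← mul_div_assoc,
      div_le_div_iff₀ (by positivity) (by positivity), show (2 : ℝ) * 2 = 4 by norm_num]
    have q1 : (q : ℝ) ≤ D.w := D.num.o1
    calc q * 4 ^ D.G * D.nb ^ 2 ≤ D.w * D.w ^ 3 * (8 * (q : ℝ) ^ (s + 2)) := by
          have := D.four_G_le
          have := D.num.n2
          gcongr
      _ = D.w ^ 4 * (8 * (q : ℝ) ^ 2) * (q : ℝ) ^ s := by ring
      _ ≤ D.w ^ 4 * (D.w ^ 2 * D.w ^ 2) * (q : ℝ) ^ s := by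
          gcongr
          nlinarith
      _ = _ := by ring
  refine (add_le_add D.av_two a1).trans ?_
  rw [← add_div]
  refine div_le_div_of_nonneg_right ?_ (by positivity)
  have := mul_le_mul_of_nonneg_left w1 (pow_pos w0 8).le
  rw [pow_succ D.w 8]
  linarith [pow_pos w0 8]

theorem th_nonneg (b b' : V q s) : 0 ≤ D.th b b' := by
  exact mul_nonneg (ind_nonneg _) (pow_nonneg (le_min zero_le_one (D.X_nonneg _ _)) _)

theorem th_le (b b' : V q s) : D.th b b' ≤ 1 := by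
  have m0 : 0 ≤ min 1 (D.X b b') := le_min zero_le_one (D.X_nonneg _ _)
  exact mul_le_one₀ (ind_le_one _) (pow_nonneg m0 _) (pow_le_one₀ m0 (min_le_left _ _))

theorem thb_nonneg (b : V q s) : 0 ≤ D.thb b := by
  exact av_nonneg (D.th_nonneg b)

theorem th_div (b b' : V q s) : D.thb b * (D.th b b' / D.thb b) = D.th b b' := by
  by_cases h : D.thb b = 0
  · rw [h, zero_mul]
    rw [thb, av, div_eq_zero_iff, or_iff_left (Nat.cast_ne_zero.2 Fintype.card_ne_zero),
      sum_eq_zero_iff_of_nonneg fun z _ => D.th_nonneg b z] at h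
    exact (h b' (mem_univ _)).symm
  · exact mul_div_cancel₀ _ h

theorem rat_nonneg {ι : Type} (b : ι → V q s) (E : Finset ι) (z : V q s) : 0 ≤ D.rat b E z := by
  exact div_nonneg (pow_nonneg (D.mu_nonneg _) _) (pow_nonneg (D.mu_nonneg _) _)

theorem rat_le {ι : Type} (b : ι → V q s) (E : Finset ι) (z : V q s) : D.rat b E z ≤ 1 := by
  refine div_le_one_of_le₀ ?_ (pow_nonneg (D.mu_nonneg _) _)
  exact (pow_le_pow_left₀ (D.mu_nonneg _) (D.mu_mono inter_subset_left) _).trans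
    (pow_le_pow_of_le_one (D.mu_nonneg _) (D.mu_le_one (selIn_subset _ _)) (Nat.le_succ _))

section
variable {ι : Type} (j : ι) (E : Finset ι) (b : ι → V q s) (z : V q s)

theorem ker_0 : D.ker (0, j, E) b z = D.eps := by
  rw [ker]
  exact Matrix.cons_val_zero _ _

theorem ker_1 : D.ker (1, j, E) b z = D.k0 * q * D.rat b E z := by
  simp only [ker, Matrix.cons_val]

theorem ker_2 : D.ker (2, j, E) b z = D.k0 * 2 ^ D.G * D.thb z / D.eps := by
  simp only [ker, Matrix.cons_val]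

theorem ker_3 : D.ker (3, j, E) b z = D.eps * D.th (b j) z / D.thb (b j) := by
  simp only [ker, Matrix.cons_val]

theorem ker_4 : D.ker (4, j, E) b z = 2 ^ D.G * ind (D.Typ (b j) ∧ D.lk (b j) z) := by
  simp only [ker, Matrix.cons_val]

end

theorem ker_nonneg {ι : Type} (k : Fin 5 × ι × Finset ι) (b : ι → V q s) (z : V q s) :
    0 ≤ D.ker k b z := by
  obtain ⟨i, j, E⟩ := k
  have := D.eps_pos
  have := D.k0_pos
  have := D.rat_nonneg b E z
  have := D.thb_nonneg z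
  have := D.thb_nonneg (b j)
  have := D.th_nonneg (b j) z
  have := ind_nonneg (D.Typ (b j) ∧ D.lk (b j) z)
  match i with
  | 0 => rw [ker_0]; positivity
  | 1 => rw [ker_1]; positivity
  | 2 => rw [ker_2]; positivity
  | 3 => rw [ker_3]; positivity
  | 4 => rw [ker_4]; positivity

theorem ker_congr {ι : Type} (k : Fin 5 × ι × Finset ι) {b b' : ι → V q s}
    (h : ∀ j ∈ dep k, b j = b' j) : D.ker k b = D.ker k b' := by
  obtain ⟨i, j, E⟩ := k
  funext z
  match i with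
  | 0 => rw [ker_0, ker_0]
  | 1 =>
    have e : D.KE b E = D.KE b' E := by
      ext a
      simp only [KE, mem_selIn]
      exact and_congr_right fun _ => forall₂_congr fun l hl => by rw [h l hl]
    rw [ker_1, ker_1, rat, rat, e]
  | 2 => rw [ker_2, ker_2]
  | 3 => rw [ker_3, ker_3, h j (mem_singleton_self j)]
  | 4 => rw [ker_4, ker_4, h j (mem_singleton_self j)]

theorem Link_pw {n : ℕ} (hn : 260 ≤ n) : 1 / (D.w ^ n * D.nb) ≤ D.eps :=
  one_div_le_one_div_of_le (mul_pos (pow_pos D.w_pos _) D.nb_pos) (mul_le_mul_of_nonneg_right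
    (pow_le_pow_right₀ (by linarith [D.w_ge]) hn) D.nb_pos.le)

theorem av_ker1 (E : Finset (Fin D.r)) (b : Fin D.r → V q s) :
    av (fun z => D.k0 * q * D.rat b E z) ≤ D.eps := by
  have n0 := D.nb_pos
  have w0 := D.w_pos
  have k0 := D.k0_pos
  have k1 := D.k0_le
  have q1 : (q : ℝ) ≤ D.w := D.num.o1
  rw [av_mul_left]
  refine le_trans ?_ (D.Link_pw (n := 742) (by norm_num))
  have a : av (D.rat b E) ≤ D.w / D.nb := by
    refine (av_div _ _).trans_le (div_le_of_le_mul₀ (pow_nonneg (D.mu_nonneg _) _)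
      (by positivity) ((D.block (selIn_subset _ _) (Nat.le_add_right _ _)).trans ?_))
    rw [mul_div_right_comm]
    refine mul_le_mul_of_nonneg_right (div_le_div_of_nonneg_right (le_trans ?_ D.om_le) n0.le)
      (pow_nonneg (D.mu_nonneg _) _)
    have a1 := (card_le_univ E).trans_eq (Fintype.card_fin _)
    have a2 := D.num.r3
    have a3 := D.num.o2
    exact_mod_cast (by omega : D.om + E.card + 2 ≤ 3 * D.om)
  calc D.k0 * q * av (D.rat b E) ≤ 1 / D.w ^ 744 * D.w * (D.w / D.nb) := by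
        have := av_nonneg (D.rat_nonneg b E)
        gcongr
    _ = _ := by field_simp

theorem av_ker2 : av (fun z => D.k0 * 2 ^ D.G * D.thb z / D.eps) ≤ D.eps := by
  have n0 := D.nb_pos
  have w0 := D.w_pos
  have e0 := D.eps_pos
  have k0 := D.k0_pos
  have k1 := D.k0_le
  have g2 := D.two_G_le
  rw [av_div, av_mul_left, div_le_iff₀ e0]
  calc D.k0 * 2 ^ D.G * av D.thb ≤ 1 / D.w ^ 744 * D.w ^ 2 * (D.w ^ 9 / D.nb ^ 2) := by
        have := av_nonneg D.thb_nonneg
        have := D.av_thb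
        gcongr
    _ = 1 / (D.w ^ 473 * D.nb) * D.eps := by
        rw [eps]
        field_simp
    _ ≤ _ := mul_le_mul_of_nonneg_right (D.Link_pw (by norm_num)) e0.le

theorem av_ker4 (y : V q s) : av (fun z => 2 ^ D.G * ind (D.Typ y ∧ D.lk y z)) ≤ D.eps := by
  have n0 := D.nb_pos
  have w0 := D.w_pos
  rw [av_mul_left]
  by_cases c : D.Typ y
  · simp only [c, true_and]
    calc _ ≤ D.w ^ 2 * (D.w * D.Lam) := mul_le_mul D.two_G_le ((D.av_lk c).trans
          (mul_le_mul_of_nonneg_right (by linarith [D.w_ge]) (by rw [Lam]; positivity)))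
          (av_nonneg fun _ => ind_nonneg _) (by positivity)
      _ = _ := by
        rw [eps, Lam]
        field_simp
  · simp only [c, false_and, ind_neg not_false, av_const, mul_zero]
    exact D.eps_pos.le

/-- `block` (with `om + E.card + 2 ≤ 3 om ≤ w`), `av_thb`, `av_lk`, `k0_le` -/
theorem av_ker (k : Fin 5 × Fin D.r × Finset (Fin D.r)) (b : Fin D.r → V q s) :
    av (D.ker k b) ≤ D.eps := by
  obtain ⟨i, j, E⟩ := k
  match i with
  | 0 => exact (congrArg av (funext (D.ker_0 j E b))).trans_le (av_const _).le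
  | 1 => exact (congrArg av (funext (D.ker_1 j E b))).trans_le (D.av_ker1 E b)
  | 2 => exact (congrArg av (funext (D.ker_2 j E b))).trans_le D.av_ker2
  | 3 =>
    rw [funext (D.ker_3 j E b), av_div, av_mul_left, mul_div_assoc]
    exact mul_le_of_le_one_right D.eps_pos.le (div_self_le_one _)
  | 4 => exact (congrArg av (funext (D.ker_4 j E b))).trans_le (D.av_ker4 _)

end Dat

end Pool.Agent.Work.MP_e10cd8_co.Mid
end

-- merged part: Pool.Agent.Work.MP_e10cd8_co.Mid.Phi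
section
/-! One centred group, for an abstract set system (paper 1d). -/

namespace Pool.Agent.Work.MP_e10cd8_co.Mid
open Finset Four

variable {α ι : Type} [DecidableEq α] [Fintype ι] {η γ : ℝ} {Ω : Finset α}

theorem Phi_sdiff {T A W : Finset α} (h : Disjoint A W) : emp (T \ W) A = emp T A := by
  rw [emp, emp, disjoint_iff_inter_eq_empty, disjoint_iff_inter_eq_empty, inter_comm,
    ← inter_sdiff_assoc, inter_comm A, inter_sdiff_assoc, sdiff_eq_self_of_disjoint h]

omit [DecidableEq α] in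
theorem Phi_not (T A : Finset α) : ind (¬ Disjoint T A) = 1 - emp T A := by
  by_cases h : Disjoint T A
  · rw [ind_neg (not_not.2 h), emp, ind_pos h, sub_self]
  · rw [ind_pos h, emp, ind_neg h, sub_zero]

theorem Phi_abs (h0 : 0 ≤ η) (h1 : η ≤ 1) (f : Finset α → ℝ) :
    |Ex η Ω f| ≤ Ex η Ω fun T => |f T| := by
  refine abs_le.2 ⟨?_, Ex_mono h0 h1 fun _ _ => le_abs_self _⟩
  rw [neg_eq_neg_one_mul, ← Ex_mul_left]
  exact Ex_mono h0 h1 fun T _ => by linarith [neg_abs_le (f T)]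

theorem Phi_nonneg [DecidableEq ι] (h0 : 0 ≤ η) (h1 : η ≤ 1) (B : ι → Finset α) (I : Finset ι) :
    0 ≤ Phi η γ Ω B I :=
  Ex_nonneg h0 h1 fun _ _ => prod_nonneg fun _ _ => add_nonneg (abs_nonneg _) (ind_nonneg _)

theorem Phi_indep [DecidableEq ι] (B : ι → Finset α) (I : Finset ι) {K : Finset α}
    (h : ∀ i ∈ I, Disjoint K (B i)) :
    Ex η Ω (fun T => ind (¬ Disjoint T K) *
      ∏ i ∈ I, (|(1 - η) ^ (prv B i).card - γ| + ind (¬ Disjoint T (shr B i)))) =
      Pr η Ω (fun T => ¬ Disjoint T K) * Phi η γ Ω B I := by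
  have e : ∀ T : Finset α, ∏ i ∈ I, (|(1 - η) ^ (prv B i).card - γ| +
      (1 - emp (T ∩ I.biUnion B) (shr B i))) =
      ∏ i ∈ I, (|(1 - η) ^ (prv B i).card - γ| + (1 - emp T (shr B i))) := fun T =>
    prod_congr rfl fun i hi => by
      rw [Prob1_emp T (A := shr B i) (inter_subset_left.trans (subset_biUnion_of_mem B hi))]
  have := Ex_mul_of_disjoint (η := η) (Ω := Ω) ((disjoint_biUnion_right _ _ _).2 h)
    (fun T => 1 - emp T K)
    fun T => ∏ i ∈ I, (|(1 - η) ^ (prv B i).card - γ| + (1 - emp T (shr B i)))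
  simp only [e, emp_inter] at this
  simp only [Pr, Phi, Phi_not, this]

/-- Split the sample along the union of the sets `prv B i`, `i ∈ R` (`Prob1_split`, `Ex_comm`,
`Ex_prod`, `Ex_emp`, `Ex_inter`). -/
theorem one_group [DecidableEq ι] (h0 : 0 ≤ η) (h1 : η ≤ 1) (g0 : 0 ≤ γ) (g1 : γ ≤ 1)
    (B : ι → Finset α) (hB : ∀ i, B i ⊆ Ω) (R : Finset ι) :
    |Ex η Ω fun T => ∏ i, (emp T (B i) - γ)| ≤ Phi η γ Ω B R := by
  have d : ∀ i j, i ≠ j → Disjoint (prv B i) (B j) := fun i j h =>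
    disjoint_left.2 fun a ha hj => (mem_sdiff.1 ha).2
      (mem_biUnion.2 ⟨j, mem_erase.2 ⟨h.symm, mem_univ _⟩, hj⟩)
  have d1 : ∀ i, Disjoint (shr B i) (R.biUnion (prv B)) := fun i =>
    (disjoint_biUnion_right _ _ _).2 fun k _ => by
      by_cases c : k = i
      · exact c ▸ (disjoint_sdiff_inter _ _).symm
      · exact (d k i c).symm.mono_left inter_subset_left
  have d2 : ∀ i ∈ Rᶜ, Disjoint (B i) (R.biUnion (prv B)) := fun i hi =>
    (disjoint_biUnion_right _ _ _).2 fun k hk => (d k i fun e => mem_compl.1 hi (e ▸ hk)).symm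
  have e : ∀ T : Finset α, ∏ i, (emp T (B i) - γ) =
      (∏ i ∈ Rᶜ, (emp (T \ R.biUnion (prv B)) (B i) - γ)) * ∏ i ∈ R,
        (emp (T \ R.biUnion (prv B)) (shr B i) * emp (T ∩ R.biUnion (prv B)) (prv B i) - γ) := by
    intro T
    rw [← prod_compl_mul_prod R]
    congr 1 <;> refine prod_congr rfl fun i hi => ?_
    · rw [Phi_sdiff (d2 i hi)]
    · rw [Phi_sdiff (d1 i), Prob1_emp T (subset_biUnion_of_mem _ hi), ← emp_union_right, shr, prv,
        union_comm, sdiff_union_inter]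
  have e2 := Prob1_split (η := η) (Ω := Ω) (R.biUnion (prv B)) fun _ T =>
    ∏ i ∈ R, (|(1 - η) ^ (prv B i).card - γ| + (1 - emp T (shr B i)))
  simp only [Phi_sdiff (d1 _), Ex_const] at e2
  simp only [e, Phi, Phi_not]
  rw [e2, Prob1_split (R.biUnion (prv B)) fun S T => (∏ i ∈ Rᶜ, (emp T (B i) - γ)) * ∏ i ∈ R,
    (emp T (shr B i) * emp S (prv B i) - γ), Ex_comm]
  refine (Phi_abs h0 h1 _).trans (Ex_mono h0 h1 fun T _ => ?_)
  have e3 := Ex_prod (η := η) (Ω := Ω ∩ R.biUnion (prv B)) R (prv B)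
    (fun i _ j _ h => (d i j h).mono_right sdiff_subset)
    fun i S => emp T (shr B i) * emp S (prv B i) - γ
  simp only [emp_inter, Ex_sub, Ex_mul_left, Ex_const, Ex_emp] at e3
  rw [Ex_mul_left, e3, abs_mul, abs_prod, abs_prod]
  refine (mul_le_of_le_one_left (prod_nonneg fun _ _ => abs_nonneg _)
    (prod_le_one (fun _ _ => abs_nonneg _) fun i _ => abs_le.2 ⟨?_, ?_⟩)).trans
    (prod_le_prod (fun _ _ => abs_nonneg _) fun i hi => ?_)
  · linarith [emp_nonneg T (B i)]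
  · linarith [emp_le_one T (B i)]
  rw [inter_eq_left.2 (subset_inter (s₁ := prv B i) (sdiff_subset.trans (hB i))
    (subset_biUnion_of_mem (prv B) hi))]
  by_cases c : Disjoint T (shr B i)
  · rw [emp, ind_pos c, one_mul, sub_self, add_zero]
  · rw [emp, ind_neg c, zero_mul, zero_sub, abs_neg, abs_of_nonneg g0]
    linarith [abs_nonneg ((1 - η) ^ (prv B i).card - γ)]

/-- The points of `shr B i0` outside all `B i`, `i ∈ I`, give the first term; a point `a` with
pattern `E = {i ∈ I | a ∈ B i} ≠ ∅` gives `η * 2 ^ E.card * Phi (I \ E)`. -/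
theorem phi_step [DecidableEq ι] (h0 : 0 ≤ η) (h1 : η ≤ 1) (g0 : 0 ≤ γ) (g1 : γ ≤ 1)
    (B : ι → Finset α) (hB : ∀ i, B i ⊆ Ω) {I : Finset ι} {i0 : ι} (hi : i0 ∉ I) :
    Phi η γ Ω B (insert i0 I) ≤
      (|(1 - η) ^ (prv B i0).card - γ| + min 1 (η * (shr B i0).card)) * Phi η γ Ω B I +
      ∑ E ∈ I.powerset.erase ∅, 2 ^ E.card *
        (η * (selIn Ω fun a => ∀ j ∈ insert i0 E, a ∈ B j).card) * Phi η γ Ω B (I \ E) := by
  have n0 : ∀ (T : Finset α) i, 0 ≤ |(1 - η) ^ (prv B i).card - γ| + ind (¬ Disjoint T (shr B i)) :=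
    fun _ _ => add_nonneg (abs_nonneg _) (ind_nonneg _)
  have n2 : ∀ (T : Finset α) i, |(1 - η) ^ (prv B i).card - γ| + ind (¬ Disjoint T (shr B i)) ≤ 2 := by
    intro T i
    have a := pow_nonneg (sub_nonneg.2 h1) (prv B i).card
    have b := pow_le_one₀ (n := (prv B i).card) (sub_nonneg.2 h1) (sub_le_self 1 h0)
    have c : |(1 - η) ^ (prv B i).card - γ| ≤ 1 := abs_le.2 ⟨by linarith, by linarith⟩
    linarith [ind_le_one (¬ Disjoint T (shr B i))]
  let K : Finset ι → Finset α := fun E => selIn (shr B i0) fun a => ∀ j ∈ I, a ∈ B j ↔ j ∈ E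
  have k : Ex η Ω (fun T => ind (¬ Disjoint T (shr B i0)) *
      ∏ i ∈ I, (|(1 - η) ^ (prv B i).card - γ| + ind (¬ Disjoint T (shr B i)))) ≤
      ∑ E ∈ I.powerset, 2 ^ E.card * (Pr η Ω (fun T => ¬ Disjoint T (K E)) *
        Phi η γ Ω B (I \ E)) := by
    rw [sum_congr rfl fun E _ => by
      rw [← Phi_indep B (I \ E) fun i hi => disjoint_left.2 fun a ha hb => (mem_sdiff.1 hi).2
        (((mem_selIn.1 ha).2 i (mem_sdiff.1 hi).1).1 hb), ← Ex_mul_left], ← Ex_sum]
    refine Ex_mono h0 h1 fun T _ => ?_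
    have nn : ∀ E ∈ I.powerset, 0 ≤ 2 ^ E.card * (ind (¬ Disjoint T (K E)) * ∏ i ∈ I \ E,
        (|(1 - η) ^ (prv B i).card - γ| + ind (¬ Disjoint T (shr B i)))) := fun E _ =>
      mul_nonneg (by positivity) (mul_nonneg (ind_nonneg _) (prod_nonneg fun _ _ => n0 _ _))
    by_cases c : Disjoint T (shr B i0)
    · rw [ind_neg (not_not.2 c), zero_mul]
      exact sum_nonneg nn
    rw [ind_pos c, one_mul]
    obtain ⟨a, ha, hb⟩ := not_disjoint_iff.1 c
    refine le_trans ?_ (single_le_sum nn (mem_powerset.2 (filter_subset (fun j => a ∈ B j) I)))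
    rw [ind_pos (p := ¬ Disjoint T (K _)) (not_disjoint_iff.2 ⟨a, ha, mem_selIn.2 ⟨hb, fun j hj =>
      by rw [mem_filter, and_iff_right hj]⟩⟩), one_mul,
      ← prod_sdiff (filter_subset (fun j => a ∈ B j) I), mul_comm]
    exact mul_le_mul_of_nonneg_right ((prod_le_prod (fun _ _ => n0 _ _) fun _ _ => n2 _ _).trans_eq
      (prod_const _)) (prod_nonneg fun _ _ => n0 _ _)
  rw [← add_sum_erase _ _ (empty_mem_powerset I), card_empty, pow_zero, one_mul, sdiff_empty] at k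
  have e : Phi η γ Ω B (insert i0 I) = |(1 - η) ^ (prv B i0).card - γ| * Phi η γ Ω B I +
      Ex η Ω (fun T => ind (¬ Disjoint T (shr B i0)) *
      ∏ i ∈ I, (|(1 - η) ^ (prv B i).card - γ| + ind (¬ Disjoint T (shr B i)))) := by
    simp only [Phi, prod_insert hi, add_mul, Ex_add, Ex_mul_left]
  rw [e, add_mul, add_assoc]
  refine add_le_add le_rfl (k.trans (add_le_add (mul_le_mul_of_nonneg_right
    (le_min (Pr_le_one h0 h1 _) ((Pr_not_disjoint h0 h1 _).trans ?_)) (Phi_nonneg h0 h1 _ _))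
    (sum_le_sum fun E hE => ?_)))
  · exact mul_le_mul_of_nonneg_left (Nat.cast_le.2 (card_le_card
      (inter_subset_left.trans (selIn_subset _ _)))) h0
  rw [mul_assoc]
  refine mul_le_mul_of_nonneg_left (mul_le_mul_of_nonneg_right ((Pr_not_disjoint h0 h1 _).trans
    (mul_le_mul_of_nonneg_left (Nat.cast_le.2 (card_le_card fun a ha => ?_)) h0))
    (Phi_nonneg h0 h1 _ _)) (by positivity)
  obtain ⟨h2, h3⟩ := mem_inter.1 ha
  obtain ⟨h4, h5⟩ := mem_selIn.1 h2
  exact mem_selIn.2 ⟨h3, (forall_mem_insert _ _ _).2 ⟨(mem_inter.1 h4).1, fun j hj =>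
    (h5 j (mem_powerset.1 (mem_of_mem_erase hE) hj)).2 hj⟩⟩

/-- Strong induction on subsets `I` of `R` with `phi_step`: `Phi I / 4 ^ I.card` is at most the
largest of `p i0 * Phi' (I.erase i0)` and `√M * Phi' (I \ block)`. -/
theorem phi_struct [DecidableEq ι] [LinearOrder ι] (h0 : 0 ≤ η) (h1 : η ≤ 1) (g0 : 0 ≤ γ) (g1 : γ ≤ 1)
    (B : ι → Finset α) (hB : ∀ i, B i ⊆ Ω) (R : Finset ι) (p : ι → ℝ) {ζ : ℝ} (n : ℕ)
    (hb : ι → Finset ι → ℝ) (p0 : ∀ i, 0 ≤ p i)
    (p1 : ∀ i, |(1 - η) ^ (prv B i).card - γ| + min 1 (η * (shr B i).card) ≤ 3 * p i)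
    (z1 : 4 ^ Fintype.card ι * ζ ≤ 1)
    (z2 : ∀ i ∈ R, ∀ j ∈ R, i ≠ j → η * (B i ∩ B j).card ≤ ζ) (b0 : ∀ i E, 0 ≤ hb i E)
    (b1 : ∀ E ⊆ R, 2 ≤ E.card → (η * (selIn Ω fun a => ∀ j ∈ E, a ∈ B j).card) ^ (2 * n) ≤
      ∏ i ∈ E, hb i (E.filter (· < i))) :
    ∃ f : ι → Option (Finset ι), (∀ i ∈ R, ∀ E, f i = some E → E ⊆ R.filter (· < i)) ∧
      Phi η γ Ω B R ^ (4 * n) ≤ ∏ i ∈ R, 256 ^ n * (f i).elim (p i ^ (4 * n)) (hb i) := by
  induction R using Finset.strongInduction with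
  | H R ih =>
  obtain rfl | ⟨i0, h⟩ := R.eq_empty_or_nonempty
  · exact ⟨fun _ => none, by simp, by simp [Phi, Ex_const]⟩
  obtain ⟨I, hi, rfl⟩ : ∃ I, i0 ∉ I ∧ insert i0 I = R := ⟨_, notMem_erase _ _, insert_erase h⟩
  let M : Finset ι → ℝ := fun E => η * (selIn Ω fun a => ∀ j ∈ insert i0 E, a ∈ B j).card
  have M0 : ∀ E, 0 ≤ M E := fun E => mul_nonneg h0 (Nat.cast_nonneg _)
  let u : Finset ι → ℝ := fun E => if E = ∅ then p i0 else √(M E)
  have u0 : ∀ E, 0 ≤ u E := fun E => by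
    simp only [u]
    split_ifs
    exacts [p0 _, Real.sqrt_nonneg _]
  have P0 := Phi_nonneg (γ := γ) (Ω := Ω) h0 h1 B
  obtain ⟨E, hE, hm⟩ := exists_max_image I.powerset
    (fun E => 4 ^ E.card * u E * Phi η γ Ω B (I \ E)) ⟨∅, empty_mem_powerset _⟩
  have hE' := mem_powerset.1 hE
  have v0 : 0 ≤ 4 ^ E.card * u E * Phi η γ Ω B (I \ E) :=
    mul_nonneg (mul_nonneg (by positivity) (u0 _)) (P0 _)
  have k : Phi η γ Ω B (insert i0 I) ≤ 4 * (4 ^ E.card * u E * Phi η γ Ω B (I \ E)) := by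
    have a := hm ∅ (empty_mem_powerset _)
    rw [show u ∅ = p i0 from if_pos rfl, card_empty, pow_zero, one_mul, sdiff_empty] at a
    have b := mul_le_mul_of_nonneg_right (p1 i0) (P0 I)
    have c := sum_le_card_nsmul (I.powerset.erase ∅)
      (fun E => 2 ^ E.card * M E * Phi η γ Ω B (I \ E))
      (√ζ * (4 ^ E.card * u E * Phi η γ Ω B (I \ E))) fun E' hE' => by
        refine le_trans ?_ (mul_le_mul_of_nonneg_left (hm E' (mem_of_mem_erase hE'))
          (Real.sqrt_nonneg _))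
        obtain ⟨j, hj⟩ := nonempty_iff_ne_empty.2 (ne_of_mem_erase hE')
        have j1 := mem_powerset.1 (mem_of_mem_erase hE') hj
        have m : M E' ≤ ζ := le_trans (mul_le_mul_of_nonneg_left (Nat.cast_le.2 (card_le_card
          fun a ha => mem_inter.2 ⟨(mem_selIn.1 ha).2 _ (mem_insert_self _ _),
            (mem_selIn.1 ha).2 _ (mem_insert_of_mem hj)⟩)) h0)
          (z2 i0 (mem_insert_self _ _) j (mem_insert_of_mem j1) fun e => hi (e ▸ j1))
        simp only [u, if_neg (ne_of_mem_erase hE')]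
        rw [← mul_assoc √ζ, mul_left_comm √ζ]
        refine mul_le_mul_of_nonneg_right (mul_le_mul (pow_le_pow_left₀ zero_le_two
          (by norm_num : (2 : ℝ) ≤ 4) _) ((Real.mul_self_sqrt (M0 E')).ge.trans (mul_le_mul_of_nonneg_right
            (Real.sqrt_le_sqrt m) (Real.sqrt_nonneg _))) (M0 _) (by positivity)) (P0 _)
    have d : ((I.powerset.erase ∅).card : ℝ) * √ζ ≤ 1 := by
      have d1 : ((I.powerset.erase ∅).card : ℝ) ≤ 2 ^ Fintype.card ι := by
        exact_mod_cast card_erase_le.trans ((card_powerset I).trans_le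
          (Nat.pow_le_pow_right two_pos (card_le_univ I)))
      refine (mul_le_mul_of_nonneg_right d1 (Real.sqrt_nonneg _)).trans ?_
      rw [← le_div_iff₀' (by positivity), Real.sqrt_le_iff]
      refine ⟨by positivity, ?_⟩
      rwa [div_pow, ← pow_mul, mul_comm, pow_mul, one_pow, le_div_iff₀' (by positivity),
        show (2 : ℝ) ^ 2 = 4 by norm_num]
    rw [nsmul_eq_mul, ← mul_assoc] at c
    have := phi_step h0 h1 g0 g1 B hB hi
    have := mul_le_mul_of_nonneg_right d v0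
    simp only [M] at c
    linarith
  have s1 : I \ E ⊂ insert i0 I := sdiff_subset.trans_ssubset (ssubset_insert hi)
  obtain ⟨f, f1, f2⟩ := ih _ s1 (fun i a j b => z2 i (s1.1 a) j (s1.1 b))
    fun E' a => b1 E' (a.trans s1.1)
  have s2 : insert i0 E ⊆ insert i0 I := insert_subset_insert _ hE'
  have s3 : insert i0 I \ insert i0 E = I \ E := by
    rw [insert_sdiff_insert, sdiff_insert_of_notMem hi]
  refine ⟨fun i => if i ∈ insert i0 E then
    (if E = ∅ then none else some ((insert i0 E).filter (· < i))) else f i, fun i a E' b => ?_, ?_⟩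
  · beta_reduce at b
    split_ifs at b with c1 c2
    · exact Option.some_injective _ b ▸ filter_subset_filter _ s2
    · exact (f1 i (s3 ▸ mem_sdiff.2 ⟨a, c1⟩) E' b).trans (filter_subset_filter _ s1.1)
  beta_reduce
  rw [← prod_sdiff s2, prod_congr rfl fun i a => by rw [if_neg (mem_sdiff.1 a).2], s3,
    prod_congr (s₁ := insert i0 E) rfl fun i a => by rw [if_pos a], mul_comm (∏ i ∈ I \ E, _),
    prod_mul_distrib, prod_const, card_insert_of_notMem fun a => hi (hE' a)]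
  refine (pow_le_pow_left₀ (P0 _) k _).trans ?_
  rw [← mul_assoc, ← mul_assoc, ← pow_succ', mul_pow, mul_pow, ← pow_mul, mul_comm (E.card + 1),
    pow_mul, pow_mul, show (4 : ℝ) ^ 4 = 256 by norm_num]
  refine mul_le_mul_of_nonneg (mul_le_mul_of_nonneg_left ?_ (by positivity)) f2
    (mul_nonneg (by positivity) (pow_nonneg (u0 _) _)) ((pow_nonneg (P0 _) _).trans f2)
  by_cases c : E = ∅
  · simp [u, c]
  · simp only [u, if_neg c, Option.elim_some]
    rw [show 4 * n = 2 * (2 * n) by ring, pow_mul, Real.sq_sqrt (M0 E)]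
    refine b1 _ s2 ?_
    rw [card_insert_of_notMem fun a => hi (hE' a)]
    exact Nat.succ_le_succ (card_pos.2 (nonempty_iff_ne_empty.2 c))

theorem bonf [DecidableEq ι] (B : ι → Finset α) (R : Finset ι) :
    ∑ i ∈ R, (B i).card ≤ (R.biUnion B).card + ∑ i ∈ R, ∑ j ∈ R.erase i, (B i ∩ B j).card := by
  induction R using Finset.induction_on with
  | empty => simp
  | insert a R ha ih =>
    have h1 := card_union_add_card_inter (B a) (R.biUnion B)
    have h2 : (B a ∩ R.biUnion B).card ≤ ∑ j ∈ R, (B a ∩ B j).card := by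
      rw [inter_biUnion]
      exact card_biUnion_le
    have h3 : ∑ i ∈ R, ∑ j ∈ R.erase i, (B i ∩ B j).card ≤
        ∑ i ∈ R, ∑ j ∈ (insert a R).erase i, (B i ∩ B j).card :=
      sum_le_sum fun i _ => sum_le_sum_of_subset (erase_subset_erase _ (subset_insert _ _))
    rw [sum_insert ha, sum_insert ha, biUnion_insert, erase_insert ha]
    omega

theorem card_shr_le [DecidableEq ι] (B : ι → Finset α) (i : ι) :
    (shr B i).card ≤ ∑ j ∈ univ.erase i, (B i ∩ B j).card := by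
  rw [shr, inter_biUnion]
  exact card_biUnion_le

theorem card_prv_add [DecidableEq ι] (B : ι → Finset α) (i : ι) :
    (prv B i).card + (shr B i).card = (B i).card := by
  exact card_sdiff_add_card_inter _ _

end Pool.Agent.Work.MP_e10cd8_co.Mid
end

-- merged part: Pool.Agent.Work.MP_e10cd8_co.Mid.Root
section
/-! The bound on the joint expectation in terms of the roots (paper 1d). -/

namespace Pool.Agent.Work.MP_e10cd8_co.Mid
open Finset Four

theorem Root_map {α β : Type} [DecidableEq α] [DecidableEq β] (η : ℝ) (e : α ↪ β) (Ω : Finset α)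
    (f : Finset β → ℝ) : Ex η (Ω.map e) f = Ex η Ω fun T => f (T.map e) := by
  induction Ω using Finset.induction_on generalizing f with
  | empty => simp only [map_empty, Ex_empty]
  | insert x s hx ih =>
    rw [map_insert, Ex_insert fun h => hx ((mem_map' e).1 h), Ex_insert hx, ih, ih]
    simp only [map_insert]

theorem Root_prod {α ι : Type} [DecidableEq α] [DecidableEq ι] (T : Finset (ℕ × α)) (J : Finset ℕ)
    (A : ι → Finset α) (I : Finset ι) : ∏ i ∈ I, emp T (J ×ˢ A i) = emp T (J ×ˢ I.biUnion A) := by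
  induction I using Finset.induction_on with
  | empty => simp [emp, ind_pos]
  | insert x s hx ih => rw [prod_insert hx, biUnion_insert, product_union, emp_union_right, ih]

namespace Dat
variable {q s : ℕ} [Fact q.Prime] {α : Type} [Fintype α] [DecidableEq α] (D : Dat q s α)

/-- independence of the groups (`Ex_prod` with blocks `{j} ×ˢ univ` and the kill block, compare
`Four.Ex_xi`); a group `{j} ×ˢ Ω` is a copy of `Ω` -/
theorem Ex_prod_F {ι : Type} [Fintype ι] [DecidableEq ι] (b : ι → V q s) :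
    Ex D.eta D.grd (fun T => ∏ i, D.F T (b i)) =
      (1 - D.eta) ^ (1600 * D.om * (univ.biUnion fun i => D.on (b i)).card) *
      (Ex D.eta D.Ω fun T => ∏ i, (emp T (D.on (b i)) - gam D.eta)) ^ (40 * D.om + 1) := by
  have e : ∀ T ⊆ D.grd, ∀ (J : Finset ℕ) z, emp T (J ×ˢ hp D.v z) = emp T (J ×ˢ D.on z) :=
    fun T hT J z => congrArg ind (propext ⟨fun h => h.mono_right
      (product_subset_product_right inter_subset_left), fun h => disjoint_left.2 fun a ha hb =>
        disjoint_left.1 h ha (mem_product.2 ⟨(mem_product.1 hb).1,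
          mem_inter.2 ⟨(mem_product.1 hb).2, (mem_product.1 (hT ha)).2⟩⟩)⟩)
  have U : (univ.biUnion fun i => D.on (b i)) ⊆ D.Ω := biUnion_subset.2 fun i _ => D.on_sub _
  have d : Disjoint (Ico (40 * D.om + 1) (1640 * D.om + 1) ×ˢ univ.biUnion fun i => D.on (b i))
      (range (40 * D.om + 1) ×ˢ D.Ω) := disjoint_product.2 (Or.inl
    (disjoint_left.2 fun j a b => (mem_Ico.1 a).1.not_gt (mem_range.1 b)))
  have e1 : ∀ T : Finset (ℕ × α), ∏ j ∈ range (40 * D.om + 1), ∏ i,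
      (emp (T ∩ range (40 * D.om + 1) ×ˢ D.Ω) ({j} ×ˢ D.on (b i)) - gam D.eta) =
      ∏ j ∈ range (40 * D.om + 1), ∏ i, (emp (T ∩ {j} ×ˢ D.Ω) ({j} ×ˢ D.on (b i)) - gam D.eta) :=
    fun T => prod_congr rfl fun j hj => prod_congr rfl fun i _ => by
      rw [Prob1_emp T (product_subset_product (singleton_subset_iff.2 hj) (D.on_sub _)),
        Prob1_emp T (product_subset_product_right (D.on_sub _))]
  have h1 := Ex_mul_of_disjoint (η := D.eta) (Ω := D.grd) d (fun T => emp T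
    (Ico (40 * D.om + 1) (1640 * D.om + 1) ×ˢ univ.biUnion fun i => D.on (b i)))
    fun T => ∏ j ∈ range (40 * D.om + 1), ∏ i, (emp T ({j} ×ˢ D.on (b i)) - gam D.eta)
  have h2 := Ex_prod (η := D.eta) (Ω := D.grd) (range (40 * D.om + 1)) (fun j => {j} ×ˢ D.Ω)
    (fun i _ j _ k => disjoint_product.2 (Or.inl (disjoint_singleton.2 k)))
    fun j T => ∏ i, (emp T ({j} ×ˢ D.on (b i)) - gam D.eta)
  simp only [e1, emp_inter] at h1
  rw [h2, Ex_emp, inter_eq_left (t := D.grd).2 (product_subset_product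
    (fun j hj => mem_range.2 (mem_Ico.1 hj).2) U), card_product, Nat.card_Ico,
    show 1640 * D.om + 1 - (40 * D.om + 1) = 1600 * D.om by omega, prod_congr rfl (g := fun _ =>
      Ex D.eta D.Ω fun T => ∏ i, (emp T (D.on (b i)) - gam D.eta)) fun j hj => ?_,
    prod_const, card_range] at h1
  · rw [← h1]
    refine Ex_congr fun T hT => ?_
    simp only [F, stF, e T hT, prod_mul_distrib, Root_prod]
    rw [prod_comm]
    refine congrArg _ (prod_congr rfl fun j hj => prod_congr rfl fun i _ => ?_)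
    rw [Prob1_emp T (product_subset_product_right (D.on_sub _))]
  · rw [Ex_inter (Ω := D.grd) (product_subset_product_left (singleton_subset_iff.2 (mem_range.2
      ((mem_range.1 hj).trans_le (by omega)))))
      fun T => ∏ i, (emp T ({j} ×ˢ D.on (b i)) - gam D.eta), singleton_product, Root_map]
    simp only [singleton_product, emp, disjoint_map]

/-- the weight of a single root -/
noncomputable def pw (b : Fin D.r → V q s) (i : Fin D.r) : ℝ :=
  min 1 (D.ζ + D.eta * (shr (fun j => D.on (b j)) i).card)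

/-- the weight of a member of a block -/
noncomputable def bw (b : Fin D.r → V q s) (i : Fin D.r) (E : Finset (Fin D.r)) : ℝ :=
  if E = ∅ then D.ζ ^ (10 * D.om) * 2 ^ (D.om + 1) else q * D.rat b E (b i)

/-- `Finset.induction_on_max`; telescope, `t_le` -/
theorem tele {b : Fin D.r → V q s} (hb : ∀ i, D.Typ (b i)) {E : Finset (Fin D.r)}
    (hE : E.Nonempty) : D.ζ ^ (10 * D.om) * (q * D.mu (D.KE b E)) ^ (D.om + E.card) ≤
      ∏ i ∈ E, D.bw b i (E.filter (· < i)) := by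
  induction E using Finset.induction_on_max with
  | empty => exact absurd hE not_nonempty_empty
  | insert a E ha ih =>
  have a1 : a ∉ E := fun h => lt_irrefl _ (ha a h)
  have e : D.KE b (insert a E) = D.KE b E ∩ D.on (b a) := by
    ext x
    simp only [KE, mem_selIn, mem_inter, forall_mem_insert]
    tauto
  have z0 := pow_nonneg D.ζ_pos.le (10 * D.om)
  have q0 : (0 : ℝ) < q := q_pos
  rw [prod_insert a1, filter_insert, if_neg (lt_irrefl a), filter_true_of_mem ha, e,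
    card_insert_of_notMem a1, prod_congr rfl fun i hi => by
      rw [filter_insert, if_neg (ha i hi).not_gt], ← add_assoc, bw]
  split_ifs with c
  · subst c
    rw [prod_empty, mul_one]
    exact mul_le_mul_of_nonneg_left (pow_le_pow_left₀ (mul_nonneg q0.le (D.mu_nonneg _))
      ((mul_le_mul_of_nonneg_left (D.mu_mono inter_subset_right) q0.le).trans
        (D.t_le (hb a).1)) _) z0
  refine le_trans ?_ (mul_le_mul_of_nonneg_left (ih (nonempty_iff_ne_empty.2 c))
    (mul_nonneg q0.le (D.rat_nonneg _ _ _)))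
  rcases (D.mu_nonneg (D.KE b E)).eq_or_lt with m | m
  · rw [rat, le_antisymm ((D.mu_mono inter_subset_left).trans m.ge) (D.mu_nonneg _)]
    simp
  · rw [rat, mul_pow, mul_pow, pow_succ (q : ℝ)]
    exact le_of_eq (by field_simp)

/-- `bonf`, `pow_eq_exp`, `ka_ge`, `rζ_le` -/
theorem kill {b : Fin D.r → V q s} (hb : ∀ i, D.Typ (b i)) {R : Finset (Fin D.r)}
    (hR : ∀ i ∈ R, ∀ j ∈ R, i ≠ j → ¬ D.lk (b i) (b j)) :
    (1 - D.eta) ^ (1600 * D.om * (univ.biUnion fun i => D.on (b i)).card) ≤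
      (1 / D.w ^ 800) ^ R.card := by
  have z0 := D.ζ_pos
  have e0 := D.eta_pos
  have h1 : (R.card : ℝ) * (1 - D.ζ) ≤ D.eta * ∑ i ∈ R, ((D.on (b i)).card : ℝ) := by
    rw [mul_sum, ← nsmul_eq_mul]
    refine card_nsmul_le_sum _ _ _ fun i _ => ?_
    have := (abs_le.1 (not_lt.1 (hb i).1)).1
    rw [eta_mul, ← t]
    linarith
  have h2 : D.eta * ∑ i ∈ R, ∑ j ∈ R.erase i, ((D.on (b i) ∩ D.on (b j)).card : ℝ) ≤
      R.card * (D.r * D.ζ) := by
    rw [mul_sum, ← nsmul_eq_mul]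
    refine sum_le_card_nsmul _ _ _ fun i hi => ?_
    rw [mul_sum]
    refine (sum_le_card_nsmul _ _ D.ζ fun j hj => ?_).trans ?_
    · rw [eta_mul]
      exact (not_le.1 (hR i hi j (mem_of_mem_erase hj) (ne_of_mem_erase hj).symm)).le
    · rw [nsmul_eq_mul]
      exact mul_le_mul_of_nonneg_right (Nat.cast_le.2 ((card_le_univ _).trans_eq
        (Fintype.card_fin _))) z0.le
  have h3 : ∑ i ∈ R, ((D.on (b i)).card : ℝ) ≤ (univ.biUnion fun i => D.on (b i)).card +
      ∑ i ∈ R, ∑ j ∈ R.erase i, ((D.on (b i) ∩ D.on (b j)).card : ℝ) := by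
    exact_mod_cast (bonf (fun i => D.on (b i)) R).trans (Nat.add_le_add_right
      (card_le_card (biUnion_subset_biUnion_of_subset_left _ (subset_univ R))) _)
  have h4 := mul_le_mul_of_nonneg_left h3 e0.le
  have h5 : 2 * ((D.r : ℝ) + 1) * D.ζ ≤ 1 := le_trans (mul_le_mul_of_nonneg_right
    (by nlinarith [Nat.cast_nonneg (α := ℝ) D.r]) z0.le) D.rζ_le
  have h6 := mul_le_mul_of_nonneg_left h5 (Nat.cast_nonneg (α := ℝ) R.card)
  have h7 : (R.card : ℝ) / 2 ≤ D.eta * (univ.biUnion fun i => D.on (b i)).card := by linarith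
  rw [pow_eq_exp e0 D.eta_le, w, ← Real.exp_nat_mul, one_div, ← Real.exp_neg, ← Real.exp_nat_mul,
    Real.exp_le_exp, mul_neg, neg_le_neg_iff]
  refine le_trans ?_ (le_mul_of_one_le_left (by positivity) (ka_ge e0 D.eta_le))
  have := mul_le_mul_of_nonneg_left h7 (Nat.cast_nonneg (α := ℝ) D.om)
  push_cast
  linarith

/-- `Ex_prod_F`, `kill`, `one_group`, `phi_struct` with `n = 10 om`, `p = pw b`, `hb = bw b`;
`tele`, `abs_exp_sub`, `card_prv_add` -/
theorem root_bound {b : Fin D.r → V q s} (hb : ∀ i, D.Typ (b i)) {R : Finset (Fin D.r)}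
    (hR : ∀ i ∈ R, ∀ j ∈ R, i ≠ j → ¬ D.lk (b i) (b j)) :
    ∃ f : Fin D.r → Option (Finset (Fin D.r)),
      (∀ i ∈ R, ∀ E, f i = some E → E ⊆ R.filter (· < i)) ∧
      |Ex D.eta D.grd fun T => ∏ i, D.F T (b i)| ≤
        ∏ i ∈ R, D.k0 * (f i).elim (D.pw b i ^ (40 * D.om)) (D.bw b i) := by
  have z0 := D.ζ_pos
  have e0 := D.eta_pos
  have e1 : D.eta ≤ 1 := D.eta_le.trans (by norm_num)
  have q0 : (0 : ℝ) < q := q_pos
  have lz : ∀ i ∈ R, ∀ j ∈ R, i ≠ j → D.eta * (D.on (b i) ∩ D.on (b j)).card ≤ D.ζ :=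
    fun i hi j hj h => (D.eta_mul _).trans_le (not_le.1 (hR i hi j hj h)).le
  refine (phi_struct e0.le e1 D.gam_pos.le D.gam_le (fun i => D.on (b i))
    (fun i => D.on_sub _) R (D.pw b) (ζ := D.ζ) (10 * D.om) (D.bw b)
    (fun i => le_min zero_le_one (by positivity)) (fun i => ?_) ?_ lz (fun i E => ?_)
    fun E hE h2 => ?_).imp fun f ⟨f1, f2⟩ => ⟨f1, ?_⟩
  rotate_right
  · have a := one_group e0.le e1 D.gam_pos.le D.gam_le (fun i => D.on (b i)) fun i => D.on_sub _
    have a1 := a ∅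
    simp only [Phi, prod_empty, Ex_const] at a1
    rw [show 4 * (10 * D.om) = 40 * D.om by ring] at f2
    rw [Ex_prod_F, abs_mul, abs_pow, abs_pow, abs_of_nonneg (sub_nonneg.2 e1)]
    refine (mul_le_mul (D.kill hb hR) ((pow_le_pow_of_le_one (abs_nonneg _) a1
      (Nat.le_succ _)).trans ((pow_le_pow_left₀ (abs_nonneg _) (a R) _).trans f2))
      (by positivity) (by have := D.w_pos; positivity)).trans_eq ?_
    rw [← prod_const, ← prod_mul_distrib]
    refine prod_congr rfl fun i _ => ?_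
    rw [k0]
    ring
  · have s0 : 0 ≤ D.eta * (shr (fun j => D.on (b j)) i).card := by positivity
    have p0 : 0 ≤ D.eta * (prv (fun j => D.on (b j)) i).card := by positivity
    have k1 := ka_ge e0 D.eta_le
    have a : min 1 (D.eta * (shr (fun j => D.on (b j)) i).card) ≤ D.pw b i :=
      min_le_min le_rfl (by linarith)
    have c : |(1 - D.eta) ^ (prv (fun j => D.on (b j)) i).card - gam D.eta| ≤ 2 * D.pw b i := by
      rw [pw, mul_min_of_nonneg _ _ zero_le_two]
      refine le_min (abs_le.2 ⟨?_, ?_⟩) ?_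
      · linarith [pow_nonneg (sub_nonneg.2 e1) (prv (fun j => D.on (b j)) i).card, D.gam_le]
      · linarith [pow_le_one₀ (n := (prv (fun j => D.on (b j)) i).card) (sub_nonneg.2 e1)
          (sub_le_self 1 e0.le), D.gam_pos]
      rw [pow_eq_exp e0 D.eta_le, gam]
      refine (abs_exp_sub (by positivity) (by linarith)).trans ?_
      rw [← mul_sub_one, abs_mul, abs_of_nonneg (by linarith)]
      refine mul_le_mul (ka_le e0 D.eta_le) ?_ (abs_nonneg _) zero_le_two
      have t1 := abs_le.1 (not_lt.1 (hb i).1)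
      rw [t, ← eta_mul, ← card_prv_add (fun j => D.on (b j)) i, Nat.cast_add, mul_add] at t1
      exact abs_le.2 ⟨by linarith [t1.1], by linarith [t1.2]⟩
    linarith
  · rw [Fintype.card_fin]
    exact le_trans (mul_le_mul_of_nonneg_right (pow_le_pow_right₀ (by norm_num) (Nat.le_succ _))
      z0.le) D.num.z2
  · rw [bw]
    split_ifs
    · positivity
    · exact mul_nonneg q0.le (D.rat_nonneg _ _ _)
  · obtain ⟨i, hi, j, hj, h⟩ := one_lt_card.1 h2
    have m : D.eta * (D.KE b E).card ≤ D.ζ := le_trans (mul_le_mul_of_nonneg_left (Nat.cast_le.2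
      (card_le_card fun a ha => mem_inter.2 ⟨(mem_selIn.1 ha).2 i hi, (mem_selIn.1 ha).2 j hj⟩))
      e0.le) (lz i (hE hi) j (hE hj) h)
    have m0 : 0 ≤ D.eta * (D.KE b E).card := by positivity
    refine le_trans ?_ (D.tele hb ⟨i, hi⟩)
    rw [two_mul, pow_add, ← eta_mul]
    refine mul_le_mul (pow_le_pow_left₀ m0 m _) (pow_le_pow_of_le_one m0
      (m.trans (D.ζ_le.trans (by norm_num))) ?_) (pow_nonneg m0 _) (by positivity)
    have := (card_le_univ E).trans_eq (Fintype.card_fin _)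
    have := D.num.r3
    omega

theorem head_le : D.k0 * (D.ζ ^ (10 * D.om) * 2 ^ (D.om + 1)) ≤ D.eps := by
  have n0 := D.nb_pos
  have w0 := D.w_pos
  refine le_trans ?_ (D.Link_pw (n := 743) (by norm_num))
  calc _ ≤ 1 / D.w ^ 744 * (1 / D.nb * D.w) := mul_le_mul D.k0_le (mul_le_mul
        ((le_div_iff₀ n0).2 D.num.z3) D.two_pow_le (by positivity) (by positivity))
        (by have := D.ζ_pos; positivity) (by positivity)
    _ = _ := by field_simp

/-- `card_shr_le`: `pw ≤ (r + 1) ζ + m X*`, `X*` the largest link, `2 m ≤ 2 ^ m` -/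
theorem single {b : Fin D.r → V q s} (hb : ∀ i, D.Typ (b i)) (i : Fin D.r) :
    D.k0 * D.pw b i ^ (40 * D.om) ≤ D.eps ∨ ∃ j, (i ≠ j ∧ D.lk (b i) (b j)) ∧
      D.pw b i ^ (40 * D.om) ≤
        (2 ^ D.G) ^ (sel fun l => i ≠ l ∧ D.lk (b i) (b l)).card * D.th (b i) (b j) := by
  have z0 := D.ζ_pos
  have p0 : 0 ≤ D.pw b i := le_min zero_le_one (by have := D.eta_pos; positivity)
  obtain ⟨N, hN⟩ : ∃ N, N = sel fun l => i ≠ l ∧ D.lk (b i) (b l) := ⟨_, rfl⟩
  have h1 : D.pw b i ≤ (D.r + 1) * D.ζ + ∑ j ∈ N, D.X (b i) (b j) := by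
    have a : D.eta * (shr (fun j => D.on (b j)) i).card ≤
        ∑ j, (D.ζ + ind (i ≠ j ∧ D.lk (b i) (b j)) * D.X (b i) (b j)) := by
      refine (mul_le_mul_of_nonneg_left (Nat.cast_le.2 (card_shr_le _ i)) D.eta_pos.le).trans ?_
      rw [Nat.cast_sum, mul_sum]
      refine (sum_le_sum fun j hj => ?_).trans (sum_le_sum_of_subset_of_nonneg (subset_univ _)
        fun j _ _ => add_nonneg z0.le (mul_nonneg (ind_nonneg _) (D.X_nonneg _ _)))
      rw [eta_mul, ← X]
      by_cases c : D.lk (b i) (b j)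
      · rw [ind_pos ⟨(ne_of_mem_erase hj).symm, c⟩]
        linarith
      · rw [ind_neg fun k => c k.2]
        linarith [not_le.1 c]
    have e : ∑ j, ind (i ≠ j ∧ D.lk (b i) (b j)) * D.X (b i) (b j) = ∑ j ∈ N, D.X (b i) (b j) := by
      rw [← sum_subset (subset_univ N) fun j _ hj => by
        rw [ind_neg fun k => hj (hN ▸ mem_sel.2 k), zero_mul]]
      exact sum_congr rfl fun j hj => by rw [ind_pos (mem_sel.1 (hN.le hj)), one_mul]
    rw [sum_add_distrib, e, sum_const, card_univ, Fintype.card_fin, nsmul_eq_mul] at a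
    linarith [min_le_right 1 (D.ζ + D.eta * (shr (fun j => D.on (b j)) i).card), pw.eq_1 D b i]
  rcases le_or_gt (∑ j ∈ N, D.X (b i) (b j)) ((D.r + 1) * D.ζ) with c | c
  · refine Or.inl (le_trans (mul_le_mul_of_nonneg_left ?_ D.k0_pos.le) D.head_le)
    refine le_trans ?_ (le_mul_of_one_le_right (by positivity) (one_le_pow₀ one_le_two))
    have a : D.pw b i ^ 2 ≤ D.ζ := (pow_le_pow_left₀ p0 (show _ ≤ 2 * ((D.r + 1) * D.ζ) by
      linarith) 2).trans (by nlinarith [D.rζ_le])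
    rw [show 40 * D.om = 2 * (20 * D.om) by ring, pow_mul]
    exact (pow_le_pow_left₀ (sq_nonneg _) a _).trans (pow_le_pow_of_le_one z0.le
      (D.ζ_le.trans (by norm_num)) (by omega))
  have n : N.Nonempty := nonempty_of_sum_ne_zero (lt_of_le_of_lt (by positivity) c).ne'
  obtain ⟨j, hj, hm⟩ := exists_max_image N (fun j => D.X (b i) (b j)) n
  have l := mem_sel.1 (hN ▸ hj)
  refine Or.inr ⟨j, l, ?_⟩
  have a := sum_le_card_nsmul _ _ _ hm
  have m : 2 * (N.card : ℝ) ≤ 2 ^ N.card := by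
    obtain ⟨k, hk⟩ := Nat.exists_eq_succ_of_ne_zero n.card_pos.ne'
    rw [hk, pow_succ']
    exact_mod_cast Nat.mul_le_mul_left 2 Nat.lt_two_pow_self
  rw [nsmul_eq_mul] at a
  rw [← hN, th, ind_pos ⟨hb i, l.2⟩, one_mul, ← pow_mul, mul_comm D.G, pow_mul 2, ← mul_pow]
  refine (pow_le_pow_of_le_one p0 (min_le_left _ _) (by have := D.num.g3; omega)).trans
    (pow_le_pow_left₀ p0 ?_ _)
  rw [mul_min_of_nonneg _ _ (by positivity), mul_one]
  refine le_min ((min_le_left _ _).trans (one_le_pow₀ one_le_two)) ?_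
  linarith [mul_le_mul_of_nonneg_right m (D.X_nonneg (b i) (b j))]

end Dat

end Pool.Agent.Work.MP_e10cd8_co.Mid
end

-- merged part: Pool.Agent.Work.MP_e10cd8_co.Mid.Struct
section
/-! The joint expectation is bounded by a product of kernels (paper 1e). -/

namespace Pool.Agent.Work.MP_e10cd8_co.Mid
open Finset Four

/-- a maximal set without links and without common neighbours -/
theorem roots {ι : Type} [Fintype ι] [DecidableEq ι] (L : ι → ι → Prop)
    (hs : ∀ i j, L i j → L j i) (hi : ∀ i, ¬ L i i) :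
    ∃ R : Finset ι, (∀ i ∈ R, ∀ j ∈ R, ¬ L i j) ∧ (∀ i ∈ R, ∀ j ∈ R, ∀ l, L i l → L j l → i = j) ∧
      ∀ j, j ∈ R ∨ (∃ i ∈ R, L i j) ∨ ∃ i ∈ R, ∃ l, L i l ∧ L l j := by
  obtain ⟨R, hR, hm⟩ := exists_max_image (sel fun R : Finset ι => (∀ i ∈ R, ∀ j ∈ R, ¬ L i j) ∧
    ∀ i ∈ R, ∀ j ∈ R, ∀ l, L i l → L j l → i = j) card ⟨∅, by simp⟩
  obtain ⟨h1, h2⟩ := mem_sel.1 hR
  refine ⟨R, h1, h2, fun j => by_contra fun k => ?_⟩
  simp only [not_or, not_exists, not_and] at k
  obtain ⟨k1, k2, k3⟩ := k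
  have := hm (insert j R) (mem_sel.2 ⟨fun a ha b hb => ?_, fun a ha b hb l p1 p2 => ?_⟩)
  · rw [card_insert_of_notMem k1] at this
    omega
  · rcases mem_insert.1 ha with e | ha <;> rcases mem_insert.1 hb with e' | hb
    exacts [e ▸ e' ▸ hi _, fun c => k2 b hb (e ▸ hs _ _ c), e' ▸ k2 a ha, h1 a ha b hb]
  · rcases mem_insert.1 ha with e | ha <;> rcases mem_insert.1 hb with e' | hb
    exacts [e.trans e'.symm, (k3 b hb l p2 (e ▸ hs _ _ p1)).elim,
      (k3 a ha l p1 (e' ▸ hs _ _ p2)).elim, h2 a ha b hb l p1 p2]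

/-- regrouping: roots in `Rb` are paired with their partners, all other indices outside `R` take
the factor `c` -/
theorem regroup {ι : Type} [Fintype ι] [DecidableEq ι] {R Rb : Finset ι} (hb : Rb ⊆ R)
    (Nb : ι → Finset ι) (pt : ι → ι) (x y g : ι → ℝ) {c : ℝ} (hc : 1 ≤ c)
    (hN : ∀ i ∈ Rb, Disjoint (Nb i) R) (hd : ∀ i ∈ Rb, ∀ j ∈ Rb, i ≠ j → Disjoint (Nb i) (Nb j))
    (hp : ∀ i ∈ Rb, pt i ∈ Nb i) (x0 : ∀ i ∈ R, 0 ≤ x i) (y0 : ∀ i, 0 ≤ y i)
    (h1 : ∀ i ∈ R, i ∉ Rb → x i ≤ g i) (h2 : ∀ i ∈ Rb, x i ≤ c ^ (Nb i).card * y i)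
    (h3 : ∀ i ∈ Rb, g i * g (pt i) = c * y i)
    (h4 : ∀ l, l ∉ R → (∀ i ∈ Rb, pt i ≠ l) → g l = c) : ∏ i ∈ R, x i ≤ ∏ i, g i := by
  have c0 : 0 ≤ c := by linarith
  have inj : Set.InjOn pt Rb := fun i hi j hj e => by_contra fun k =>
    disjoint_left.1 (hd i hi j hj k) (hp i hi) (e ▸ hp j hj)
  have im : Rb.image pt ⊆ Rᶜ := fun l hl => by
    obtain ⟨i, hi, rfl⟩ := mem_image.1 hl
    exact mem_compl.2 (disjoint_left.1 (hN i hi) (hp i hi))
  have e1 : ∏ i ∈ Rᶜ \ Rb.image pt, g i = c ^ (Rᶜ \ Rb.image pt).card := by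
    rw [← prod_const]
    refine prod_congr rfl fun l hl => h4 l (mem_compl.1 (mem_sdiff.1 hl).1) fun i hi e => ?_
    exact (mem_sdiff.1 hl).2 (mem_image.2 ⟨i, hi, e⟩)
  have e2 : (∏ i ∈ Rb, g i) * ∏ i ∈ Rb.image pt, g i = c ^ Rb.card * ∏ i ∈ Rb, y i := by
    rw [prod_image inj, ← prod_mul_distrib, prod_congr rfl h3, prod_mul_distrib, prod_const]
  have e3 : ∑ i ∈ Rb, (Nb i).card ≤ (Rᶜ \ Rb.image pt).card + Rb.card := by
    rw [← card_biUnion hd, ← card_image_of_injOn inj, card_sdiff_add_card_eq_card im]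
    refine card_le_card (biUnion_subset.2 fun i hi l hl => mem_compl.2 ?_)
    exact disjoint_left.1 (hN i hi) hl
  have e4 : ∏ i ∈ Rb, x i ≤ c ^ ((Rᶜ \ Rb.image pt).card + Rb.card) * ∏ i ∈ Rb, y i := by
    refine (prod_le_prod (fun i hi => x0 i (hb hi)) h2).trans ?_
    rw [prod_mul_distrib, prod_pow_eq_pow_sum]
    exact mul_le_mul_of_nonneg_right (pow_le_pow_right₀ hc e3) (prod_nonneg fun i _ => y0 i)
  have e5 : ∏ i ∈ R \ Rb, x i ≤ ∏ i ∈ R \ Rb, g i := prod_le_prod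
    (fun i hi => x0 i (mem_sdiff.1 hi).1) fun i hi => h1 i (mem_sdiff.1 hi).1 (mem_sdiff.1 hi).2
  rw [← prod_mul_prod_compl R g, ← prod_sdiff hb, ← prod_sdiff hb, ← prod_sdiff im, e1, mul_assoc,
    mul_left_comm (∏ i ∈ Rb, g i), e2, ← mul_assoc (c ^ _), ← pow_add]
  exact mul_le_mul e5 e4 (prod_nonneg fun i hi => x0 i (hb hi))
    ((prod_nonneg fun i hi => x0 i (mem_sdiff.1 hi).1).trans e5)

namespace Dat
variable {q s : ℕ} [Fact q.Prime] {α : Type} [Fintype α] [DecidableEq α] (D : Dat q s α)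

theorem struct {b : Fin D.r → V q s} (hb : ∀ i, D.Typ (b i)) :
    ∃ (i0 i1 : Fin D.r) (σ : Fin D.r → Fin 5 × Fin D.r × Finset (Fin D.r)), Adm i0 i1 σ ∧
      |Ex D.eta D.grd fun T => ∏ i, D.F T (b i)| ≤
        2 ^ D.G * ∏ i ∈ (univ.erase i0).erase i1, D.ker (σ i) b (b i) := by
  classical
  obtain ⟨L, hL⟩ : ∃ L : Fin D.r → Fin D.r → Prop, ∀ i j, L i j ↔ i ≠ j ∧ D.lk (b i) (b j) :=
    ⟨_, fun _ _ => Iff.rfl⟩
  obtain ⟨R, r1, r2, r3⟩ := roots L (fun i j h => (hL _ _).2 ⟨((hL _ _).1 h).1.symm, by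
    rw [lk, X_comm]; exact ((hL _ _).1 h).2⟩) fun i h => ((hL _ _).1 h).1 rfl
  obtain ⟨f, f1, f2⟩ := D.root_bound hb (R := R) fun i hi j hj e k => r1 i hi j hj
    ((hL _ _).2 ⟨e, k⟩)
  obtain ⟨Rb, hRb⟩ : ∃ Rb : Finset (Fin D.r), ∀ i, i ∈ Rb ↔
      i ∈ R ∧ f i = none ∧ ¬ D.k0 * D.pw b i ^ (40 * D.om) ≤ D.eps :=
    ⟨sel _, fun i => mem_sel⟩
  have s1 : ∀ i, ∃ j, i ∈ Rb → L i j ∧ D.pw b i ^ (40 * D.om) ≤
      (2 ^ D.G) ^ (sel (L i)).card * D.th (b i) (b j) := fun i => by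
    rcases D.single hb i with k | ⟨j, k1, k2⟩
    · exact ⟨i, fun h => (((hRb i).1 h).2.2 k).elim⟩
    · refine ⟨j, fun _ => ⟨(hL _ _).2 k1, ?_⟩⟩
      rwa [show L i = fun l => i ≠ l ∧ D.lk (b i) (b l) from funext fun l => propext (hL i l)]
  choose pt hpt using s1
  obtain ⟨ρ, ρ1, ρ2, ρ3⟩ : ∃ ρ : Fin D.r → ℕ, (∀ i ∈ R, ρ i = i) ∧
      (∀ i ∈ R, ∀ l, L i l → ρ l = D.r) ∧ ∀ l, l ∉ R → (¬ ∃ i ∈ R, L i l) → ρ l = D.r + 1 :=
    ⟨fun l => if l ∈ R then l else if ∃ i ∈ R, L i l then D.r else D.r + 1,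
      fun i hi => if_pos hi, fun i hi l k => (if_neg fun c => r1 i hi l c k).trans
        (if_pos ⟨i, hi, k⟩), fun l k1 k2 => (if_neg k1).trans (if_neg k2)⟩
  have s2 : ∀ l, ∃ j, l ∉ R → L j l ∧ ρ j < ρ l := fun l => by
    by_cases k : ∃ i ∈ R, L i l
    · obtain ⟨i, hi, k⟩ := k
      exact ⟨i, fun _ => ⟨k, by rw [ρ1 i hi, ρ2 i hi l k]; exact i.2⟩⟩
    · rcases r3 l with c | c | ⟨i, hi, j, c1, c2⟩
      · exact ⟨l, fun h => (h c).elim⟩
      · exact (k c).elim
      · exact ⟨j, fun h => ⟨c2, by rw [ρ2 i hi j c1, ρ3 l h k]; exact Nat.lt_succ_self _⟩⟩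
  choose par hpar using s2
  have inj : ∀ i ∈ Rb, ∀ j ∈ Rb, pt i = pt j → i = j := fun i hi j hj e =>
    r2 i ((hRb i).1 hi).1 j ((hRb j).1 hj).1 _ (hpt i hi).1 (e ▸ (hpt j hj).1)
  have nR : ∀ i ∈ Rb, pt i ∉ R := fun i hi c => r1 i ((hRb i).1 hi).1 _ c (hpt i hi).1
  have s3 : ∀ i, ∃ k : Fin 5 × Fin D.r × Finset (Fin D.r), (∀ j ∈ dep k, ρ j < ρ i) ∧
      (i ∈ R → i ∉ Rb → D.k0 * (f i).elim (D.pw b i ^ (40 * D.om)) (D.bw b i) ≤ D.ker k b (b i) ∧
        D.ker k b (b i) ≤ 1) ∧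
      (i ∈ Rb → D.ker k b (b i) = D.k0 * 2 ^ D.G * D.thb (b i) / D.eps) ∧
      (∀ j ∈ Rb, pt j = i → D.ker k b (b i) = D.eps * D.th (b j) (b i) / D.thb (b j)) ∧
      (i ∉ R → (∀ j ∈ Rb, pt j ≠ i) → D.ker k b (b i) = 2 ^ D.G) := fun i => by
    by_cases c : i ∈ R
    · have n3 : ∀ (P : Fin D.r → Prop), ∀ j ∈ Rb, pt j = i → P j := fun _ j hj e =>
        (nR j hj (e ▸ c)).elim
      by_cases c' : i ∈ Rb
      · exact ⟨(2, i, ∅), fun j hj => (notMem_empty j hj).elim, fun _ h => (h c').elim,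
          fun _ => rfl, n3 _, fun h => (h c).elim⟩
      rcases e : f i with _ | E
      · refine ⟨(0, i, ∅), fun j hj => (notMem_empty j hj).elim, fun _ _ => ⟨?_, D.eps_le⟩,
          fun h => (c' h).elim, n3 _, fun h => (h c).elim⟩
        exact by_contra fun k => c' ((hRb i).2 ⟨c, e, k⟩)
      by_cases c2 : E = ∅
      · refine ⟨(0, i, ∅), fun j hj => (notMem_empty j hj).elim, fun _ _ => ⟨?_, D.eps_le⟩,
          fun h => (c' h).elim, n3 _, fun h => (h c).elim⟩
        rw [Option.elim_some, bw, if_pos c2]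
        exact D.head_le
      refine ⟨(1, i, E), fun j hj => ?_, fun _ _ => ⟨?_, ?_⟩,
        fun h => (c' h).elim, n3 _, fun h => (h c).elim⟩
      · obtain ⟨a1, a2⟩ := mem_filter.1 (f1 i c E e hj)
        rw [ρ1 j a1, ρ1 i c]
        exact a2
      · rw [Option.elim_some, bw, if_neg c2, ← mul_assoc]
        exact le_rfl
      · refine mul_le_one₀ ?_ (D.rat_nonneg _ _ _) (D.rat_le _ _ _)
        have w1 : 1 ≤ D.w := le_trans (by norm_num) D.w_ge
        calc D.k0 * q ≤ 1 / D.w ^ 744 * D.w ^ 744 := mul_le_mul D.k0_le (D.num.o1.trans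
              (le_self_pow₀ w1 (by norm_num))) (Nat.cast_nonneg _) (by positivity)
          _ = 1 := one_div_mul_cancel (by positivity)
    have c' : i ∉ Rb := fun h => c ((hRb i).1 h).1
    by_cases c2 : ∃ j ∈ Rb, pt j = i
    · obtain ⟨j, hj, e⟩ := c2
      refine ⟨(3, j, ∅), fun l hl => ?_, fun h => (c h).elim, fun h => (c' h).elim,
        fun j' hj' e' => ?_, fun _ h => (h j hj e).elim⟩
      · rw [mem_singleton.1 hl, ρ1 j ((hRb j).1 hj).1, ρ2 j ((hRb j).1 hj).1 i (e ▸ (hpt j hj).1)]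
        exact j.2
      · rw [inj j' hj' j hj (e'.trans e.symm)]
        rfl
    refine ⟨(4, par i, ∅), fun l hl => ?_, fun h => (c h).elim, fun h => (c' h).elim,
      fun j hj e => (c2 ⟨j, hj, e⟩).elim, fun _ _ => ?_⟩
    · rw [mem_singleton.1 hl]
      exact (hpar i c).2
    · exact (congrArg _ (ind_pos ⟨hb _, ((hL _ _).1 (hpar i c).1).2⟩)).trans (mul_one _)
  choose σ σ0 σ1 σ2 σ3 σ4 using s3
  have G1 : (1 : ℝ) ≤ 2 ^ D.G := one_le_pow₀ one_le_two
  have pr : ∀ i ∈ Rb, D.ker (σ i) b (b i) * D.ker (σ (pt i)) b (b (pt i)) =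
      2 ^ D.G * (D.k0 * D.th (b i) (b (pt i))) := fun i hi => by
    rw [σ2 i hi, σ3 _ i hi rfl, ← D.th_div (b i) (b (pt i))]
    have := D.eps_pos.ne'
    rw [D.th_div, mul_div_assoc D.eps, ← mul_assoc, mul_right_comm, div_mul_eq_mul_div,
      div_mul_cancel₀ _ this, mul_assoc, D.th_div]
    ring
  have al := f2.trans (regroup (fun i hi => ((hRb i).1 hi).1) (fun i => sel (L i)) pt _
    (fun i => D.k0 * D.th (b i) (b (pt i))) (fun i => D.ker (σ i) b (b i)) G1
    (fun i hi => disjoint_left.2 fun l hl c => r1 i ((hRb i).1 hi).1 l c (mem_sel.1 hl))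
    (fun i hi j hj e => disjoint_left.2 fun l a1 a2 => e (r2 i ((hRb i).1 hi).1 j
      ((hRb j).1 hj).1 l (mem_sel.1 a1) (mem_sel.1 a2))) (fun i hi => mem_sel.2 (hpt i hi).1)
    (fun i _ => mul_nonneg D.k0_pos.le ?_) (fun i => mul_nonneg D.k0_pos.le (D.th_nonneg _ _))
    (fun i h1 h2 => (σ1 i h1 h2).1) (fun i hi => ?_) pr σ4)
  rotate_left
  · rcases f i with _ | E
    · exact pow_nonneg (le_min zero_le_one (add_nonneg D.ζ_pos.le
        (mul_nonneg D.eta_pos.le (Nat.cast_nonneg _)))) _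
    · rw [Option.elim_some, bw]
      have := D.ζ_pos
      have := D.rat_nonneg b E (b i)
      split_ifs <;> positivity
  · rw [((hRb i).1 hi).2.1, Option.elim_none, mul_left_comm]
    exact mul_le_mul_of_nonneg_left (hpt i hi).2 D.k0_pos.le
  obtain ⟨i0, -, m0⟩ := exists_max_image univ ρ ⟨⟨0, lt_of_lt_of_le two_pos D.num.r2⟩, mem_univ _⟩
  have ad : ∀ i1, Adm i0 i1 σ := fun i1 =>
    ⟨ρ, fun i _ => ⟨fun k => (σ0 i i0 k).not_ge (m0 i (mem_univ _)), σ0 i⟩⟩
  have nn : ∀ I : Finset (Fin D.r), 0 ≤ ∏ i ∈ I, D.ker (σ i) b (b i) := fun I =>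
    prod_nonneg fun i _ => D.ker_nonneg _ _ _
  rw [← mul_prod_erase univ _ (mem_univ i0)] at al
  by_cases c : ∃ j ∈ Rb, pt j = i0
  · obtain ⟨j, hj, rfl⟩ := c
    refine ⟨_, j, σ, ad j, al.trans ?_⟩
    rw [← mul_prod_erase (univ.erase (pt j)) _ (mem_erase.2 ⟨((hL _ _).1 (hpt j hj).1).1,
      mem_univ j⟩), ← mul_assoc, mul_comm (D.ker (σ (pt j)) b _), pr j hj]
    refine mul_le_mul_of_nonneg_right (mul_le_of_le_one_right (by positivity)
      (mul_le_one₀ (D.k0_le.trans ?_) (D.th_nonneg _ _) (D.th_le _ _))) (nn _)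
    exact (div_le_one (pow_pos D.w_pos _)).2 (one_le_pow₀ (le_trans (by norm_num) D.w_ge))
  refine ⟨i0, i0, σ, ad i0, al.trans ?_⟩
  rw [erase_idem]
  refine mul_le_mul_of_nonneg_right ?_ (nn _)
  by_cases c1 : i0 ∈ R
  · refine (σ1 i0 c1 fun k => ?_).2.trans G1
    have := m0 (pt i0) (mem_univ _)
    rw [ρ1 i0 c1, ρ2 i0 c1 _ (hpt i0 k).1] at this
    exact i0.2.not_ge this
  · exact (σ4 i0 c1 fun j hj e => c ⟨j, hj, e⟩).le

end Dat

end Pool.Agent.Work.MP_e10cd8_co.Mid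
end

-- merged part: Pool.Agent.Work.MP_e10cd8_co.Mid.Typ
section
/-! The high moment of the typical part (paper 1e). -/

namespace Pool.Agent.Work.MP_e10cd8_co.Mid
open Finset Four

namespace Dat
variable {q s : ℕ} [Fact q.Prime] {α : Type} [Fintype α] [DecidableEq α] (D : Dat q s α)

/-- `av_rel` (`ker_congr`), then `seq` with `av_ker`; at least `r - 2` indices remain -/
theorem av_struct {i0 i1 : Fin D.r} {σ : Fin D.r → Fin 5 × Fin D.r × Finset (Fin D.r)}
    (h : Adm i0 i1 σ) {l : Fin D.r → ZMod q} (hl : ∀ i, l i ≠ 0) :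
    (q : ℝ) ^ s * av (fun b : Fin D.r → V q s =>
      (∏ i ∈ (univ.erase i0).erase i1, D.ker (σ i) b (b i)) * ind (∑ i, l i • b i = 0)) ≤
      D.eps ^ (D.r - 2) := by
  obtain ⟨ρ, h⟩ := h
  rw [av_rel (hl i0) _ fun b z => prod_congr rfl fun i hi => by
    rw [D.ker_congr (σ i) (b' := b) fun j hj => Function.update_of_ne
      (fun e : j = i0 => (h i hi).1 (e ▸ hj)) _ _,
      Function.update_of_ne (ne_of_mem_erase (mem_of_mem_erase hi))],
    mul_div_cancel₀ _ (pow_pos q_pos _).ne']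
  refine (seq (fun i => D.ker (σ i)) (fun i => dep (σ i)) ρ D.eps_pos.le _
    (fun _ _ _ => D.ker_nonneg _ _ _) (fun _ _ _ => D.ker_congr _) (fun i hi => (h i hi).2)
    fun _ _ => D.av_ker _ _).trans (pow_le_pow_of_le_one D.eps_pos.le D.eps_le ?_)
  have a := pred_card_le_card_erase (s := univ.erase i0) (a := i1)
  rw [card_erase_of_mem (mem_univ _), card_fin] at a
  omega

/-- `r4`, `r5`, `o1`, `two_G_le`, `r ^ 2 ≤ w` -/
theorem mom_num : (q : ℝ) ^ D.r * (D.r * (D.r * (5 * (D.r * 2 ^ D.r)) ^ D.r)) *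
    (2 ^ D.G * D.eps ^ (D.r - 2)) ≤ D.nb * (D.sig / 8) ^ D.r := by
  have n0 := D.nb_pos
  have w0 := D.w_pos
  have e0 := D.eps_pos
  have a : (D.r : ℝ) * D.r ≤ D.w := by
    have a1 : (D.r : ℝ) ≤ D.om := Nat.cast_le.2 D.num.r3
    have a2 : (500 : ℝ) ≤ D.om := by exact_mod_cast D.num.o2
    have a3 := Real.pow_div_factorial_le_exp (D.om : ℝ) (by linarith) 3
    norm_num [Nat.factorial] at a3
    refine (mul_self_le_mul_self (Nat.cast_nonneg _) a1).trans (le_trans ?_ a3)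
    nlinarith [mul_nonneg (show 0 ≤ (D.om : ℝ) - 6 by linarith) (sq_nonneg (D.om : ℝ))]
  have b : 5 * ((D.r : ℝ) * 2 ^ D.r) ≤ D.w ^ 2 / 8 := by
    linarith [show 40 * (D.r : ℝ) * 2 ^ D.r ≤ D.w ^ 2 from D.num.r4]
  have c : (q : ℝ) ≤ D.w := D.num.o1
  have d : D.nb * D.w ^ 523 ≤ D.w ^ (107 * D.r) := D.num.r5
  have g := D.two_G_le
  obtain ⟨k, hk⟩ := Nat.exists_eq_add_of_le' D.num.r2
  rw [← mul_assoc (D.r : ℝ)]
  calc _ ≤ D.w ^ D.r * (D.w * (D.w ^ 2 / 8) ^ D.r) * (D.w ^ 2 * D.eps ^ (D.r - 2)) := by gcongr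
    _ = D.nb * D.w ^ 523 * (D.nb * (D.w ^ 3 / 8 * D.eps) ^ D.r) := by
      rw [hk, Nat.add_sub_cancel, show D.w ^ 3 / 8 = D.w * (D.w ^ 2 / 8) by ring, mul_pow, mul_pow,
        pow_add D.eps]
      generalize D.w ^ (k + 2) = x
      generalize (D.w ^ 2 / 8) ^ (k + 2) = y
      generalize D.eps ^ k = z
      rw [eps]
      field_simp
    _ ≤ D.w ^ (107 * D.r) * (D.nb * (D.w ^ 3 / 8 * D.eps) ^ D.r) := by gcongr
    _ = _ := by
      rw [mul_left_comm, pow_mul, ← mul_pow, eps, sig]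
      congr 2
      field_simp

/-- `sum_pow_av`, `Ex_av`, `struct` (sum over all admissible triples), `card_rel`, `card_coef` -/
theorem mom_typ : Ex D.eta D.grd (fun T => ∑ a, D.NT T a ^ D.r) ≤ D.nb * (D.sig / 8) ^ D.r := by
  have q0 : (0 : ℝ) < q := q_pos
  have e0 := D.eps_pos
  simp only [NT, sum_pow_av, Ex_mul_left, Ex_av]
  refine le_trans (mul_le_mul_of_nonneg_left (av_mono (g := fun b =>
    ∑ x ∈ sel fun x : Fin D.r × Fin D.r × (Fin D.r → Fin 5 × Fin D.r × Finset (Fin D.r)) =>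
      Adm x.1 x.2.1 x.2.2, ∑ l ∈ sel fun l : Fin D.r → ZMod q => ∀ i, l i ≠ 0, 2 ^ D.G *
        ((∏ i ∈ (univ.erase x.1).erase x.2.1, D.ker (x.2.2 i) b (b i)) *
          ind (∑ i, l i • b i = 0))) fun b => ?_) (by positivity)) ?_
  · simp only [← mul_sum, ← card_rel, prod_mul_distrib, mul_comm _ ((rel b).card : ℝ), Ex_mul_left]
    rw [mul_left_comm ((2 : ℝ) ^ D.G)]
    refine mul_le_mul_of_nonneg_left ?_ (Nat.cast_nonneg _)
    have nn : ∀ x ∈ sel fun x : Fin D.r × Fin D.r × (Fin D.r → Fin 5 × Fin D.r × Finset (Fin D.r)) =>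
        Adm x.1 x.2.1 x.2.2, 0 ≤ ∏ i ∈ (univ.erase x.1).erase x.2.1, D.ker (x.2.2 i) b (b i) :=
      fun _ _ => prod_nonneg fun _ _ => D.ker_nonneg _ _ _
    by_cases c : ∀ i, D.Typ (b i)
    · obtain ⟨i0, i1, σ, h1, h2⟩ := D.struct c
      rw [prod_eq_one fun i _ => ind_pos (c i), one_mul]
      exact (le_abs_self _).trans (h2.trans (mul_le_mul_of_nonneg_left
        (single_le_sum nn (a := (i0, i1, σ)) (mem_sel.2 h1)) (by positivity)))
    · obtain ⟨i, c⟩ := not_forall.1 c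
      rw [prod_eq_zero (mem_univ i) (ind_neg c), zero_mul]
      exact mul_nonneg (by positivity) (sum_nonneg nn)
  simp only [av_sum, av_mul_left, mul_sum]
  refine (sum_le_card_nsmul _ _ ((q : ℝ) ^ D.r * (2 ^ D.G * D.eps ^ (D.r - 2))) fun x hx =>
    (sum_le_card_nsmul _ _ (2 ^ D.G * D.eps ^ (D.r - 2)) fun l hl => ?_).trans ?_).trans ?_
  · rw [mul_left_comm]
    exact mul_le_mul_of_nonneg_left (D.av_struct (mem_sel (a := x).1 hx) (mem_sel.1 hl))
      (by positivity)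
  · rw [nsmul_eq_mul]
    exact mul_le_mul_of_nonneg_right (card_coef.trans_eq (by rw [Fintype.card_fin]))
      (by positivity)
  refine le_trans ?_ D.mom_num
  rw [nsmul_eq_mul, mul_left_comm, mul_assoc]
  refine mul_le_mul_of_nonneg_left (mul_le_mul_of_nonneg_right
    ((Nat.cast_le.2 (card_le_univ _)).trans_eq ?_) (by positivity)) (by positivity)
  simp

end Dat

end Pool.Agent.Work.MP_e10cd8_co.Mid
end

-- merged part: Pool.Agent.Work.MP_e10cd8_co.Mid.Corr
section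
/-! The reconstruction step (paper 1c, 1f). -/

namespace Pool.Agent.Work.MP_e10cd8_co.Mid
open Finset Four

theorem Corr_pt {σ β x y z : ℝ} {r : ℕ} (hσ : 0 < σ) (hβ : 0 < β) (hr : Even r) (r0 : r ≠ 0)
    (h : z = x + y) :
    -z ≤ 5 * σ / 8 + β * ind (z ≤ -σ / 2) + (x ^ 2 / (4 * β) + σ / 8 * (y / (σ / 8)) ^ r) ∧
      ind (z ≤ -σ / 2) ≤ 16 / σ ^ 2 * x ^ 2 + (y / (σ / 8)) ^ r := by
  have u0 := hr.pow_nonneg (y / (σ / 8))
  have u1 : y ≤ -(σ / 8) → -y ≤ σ / 8 * (y / (σ / 8)) ^ r := fun k => by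
    rw [← hr.neg_pow, ← neg_div, ← div_le_iff₀' (by positivity)]
    exact le_self_pow₀ ((one_le_div (by positivity)).2 (by linarith)) r0
  have u2 := mul_nonneg (show 0 ≤ σ / 8 by positivity) u0
  have x0 : 0 ≤ x ^ 2 / (4 * β) := by positivity
  constructor
  · by_cases c : z ≤ -σ / 2
    · have : -x - β ≤ x ^ 2 / (4 * β) := by
        rw [le_div_iff₀ (by positivity)]
        nlinarith [sq_nonneg (x + 2 * β)]
      rw [ind_pos c]
      rcases le_total y (-(σ / 8)) with k | k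
      · linarith [u1 k]
      · linarith
    · rw [ind_neg c]
      linarith [not_le.1 c]
  refine Prob1_le (fun c => ?_) (by positivity)
  rcases le_total y (-(σ / 8)) with k | k
  · have : 1 ≤ (y / (σ / 8)) ^ r := le_of_mul_le_mul_left (by linarith [u1 k])
      (show 0 < σ / 8 by positivity)
    linarith [show 0 ≤ 16 / σ ^ 2 * x ^ 2 by positivity]
  · have : 1 ≤ 16 / σ ^ 2 * x ^ 2 := by
      rw [div_mul_eq_mul_div, one_le_div (by positivity)]
      nlinarith
    linarith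

namespace Dat
variable {q s : ℕ} [Fact q.Prime] {α : Type} [Fintype α] [DecidableEq α] (D : Dat q s α)

/-- `Ex_prod_F` with one index, `Ex_emp`, `pow_eq_exp` -/
theorem Ex_F (b : V q s) : Ex D.eta D.grd (fun T => D.F T b) =
    Real.exp (-(ka D.eta * D.t b)) ^ (1600 * D.om) *
      (Real.exp (-(ka D.eta * D.t b)) - gam D.eta) ^ (40 * D.om + 1) := by
  have h := D.Ex_prod_F (ι := Unit) fun _ => b
  simp only [prod_singleton, univ_unique, singleton_biUnion, Ex_sub, Ex_const, Ex_emp,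
    inter_eq_left.2 (D.on_sub b)] at h
  rw [h, mul_comm (1600 * D.om), pow_mul, pow_eq_exp D.eta_pos D.eta_le, eta_mul, t]

/-- SIGNAL; `sum_psi_on` -/
theorem signal (h : (q : ℝ) ^ s ≤ D.w ^ 4 * D.nb * (sel fun b => D.t b ≤ 1 / 32).card) :
    Ex D.eta D.grd (fun T => (∑ a ∈ D.Ω, D.N T (D.v a)) / D.Ω.card) ≤ -D.sig := by
  have n0 := D.nb_pos
  have w0 := D.w_pos
  have w1 := D.w_ge
  have c0 := D.card_pos
  have q0 : (0 : ℝ) < q := q_pos
  have k1 := ka_ge D.eta_pos D.eta_le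
  have k2 := ka_le D.eta_pos D.eta_le
  have e : ∀ T, (∑ a ∈ D.Ω, D.N T (D.v a)) / D.Ω.card = av fun b => (D.t b - 1) * D.F T b := by
    intro T
    simp only [N, stN]
    rw [← av_sum, ← av_div]
    congr 1
    funext b
    rw [← mul_sum, sum_psi_on, t, mu, on, F]
    field_simp
  simp only [e, Ex_av, Ex_mul_left, Ex_F]
  refine (av_mono (g := fun b => -(1 / D.w ^ 146) * ind (D.t b ≤ 1 / 32)) fun b => ?_).trans ?_
  · have x0 := Real.exp_pos (-(ka D.eta * D.t b))
    have t0 : 0 ≤ D.t b := mul_nonneg q0.le (D.mu_nonneg _)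
    by_cases c : D.t b ≤ 1 / 32
    · have a1 : ka D.eta * D.t b ≤ 1 / 16 := by nlinarith
      have a2 : 1 / 2 ≤ Real.exp (-(ka D.eta * D.t b)) - gam D.eta := by
        have := Real.add_one_le_exp (-(ka D.eta * D.t b))
        have : gam D.eta ≤ Real.exp (-1) := Real.exp_le_exp.2 (by linarith)
        linarith [Real.exp_neg_one_lt_d9]
      have a3 : 1 / D.w ^ 100 ≤ Real.exp (-(ka D.eta * D.t b)) ^ (1600 * D.om) := by
        rw [w, ← Real.exp_nat_mul, one_div, ← Real.exp_neg, ← Real.exp_nat_mul, Real.exp_le_exp]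
        have := mul_le_mul_of_nonneg_left a1 (Nat.cast_nonneg (α := ℝ) D.om)
        push_cast
        linarith
      have a4 : 1 / D.w ^ 40 ≤ (Real.exp (-(ka D.eta * D.t b)) - gam D.eta) ^ (40 * D.om + 1) := by
        refine le_trans ?_ (pow_le_pow_left₀ (by norm_num) a2 _)
        rw [div_pow, one_pow]
        refine one_div_le_one_div_of_le (by positivity) (le_trans ?_
          (pow_le_pow_left₀ (by positivity) D.two_pow_le 40))
        rw [← pow_mul]
        exact pow_le_pow_right₀ one_le_two (by omega)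
      have a5 := mul_le_mul a3 a4 (by positivity) (by positivity)
      have a6 : 2 * (1 / D.w ^ 146) ≤ 1 / D.w ^ 100 * (1 / D.w ^ 40) := by
        rw [show 1 / D.w ^ 100 * (1 / D.w ^ 40) = D.w ^ 6 * (1 / D.w ^ 146) by field_simp]
        exact mul_le_mul_of_nonneg_right (le_trans (by linarith) (le_self_pow₀ (by linarith)
          (by norm_num))) (by positivity)
      have a7 := mul_le_mul_of_nonneg_right (show D.t b - 1 ≤ -(1 / 2) by linarith)
        (le_trans (by positivity) a5)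
      rw [ind_pos c]
      linarith
    rw [ind_neg c, mul_zero, mul_left_comm]
    refine mul_nonpos_of_nonneg_of_nonpos (by positivity) ?_
    rcases le_total (D.t b) 1 with c | c
    · exact mul_nonpos_of_nonpos_of_nonneg (sub_nonpos.2 c) (pow_nonneg (sub_nonneg.2
        (Real.exp_le_exp.2 (by nlinarith))) _)
    · exact mul_nonpos_of_nonneg_of_nonpos (sub_nonneg.2 c) (Odd.pow_nonpos ⟨20 * D.om, by ring⟩
        (sub_nonpos.2 (Real.exp_le_exp.2 (by nlinarith))))
  rw [av_mul_left, av_ind, card_V, neg_mul, neg_le_neg_iff, Nat.cast_pow, sig,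
    show 1 / (D.w ^ 150 * D.nb) = 1 / D.w ^ 146 * (1 / (D.w ^ 4 * D.nb)) by field_simp]
  refine mul_le_mul_of_nonneg_left ?_ (by positivity)
  rw [div_le_div_iff₀ (by positivity) (by positivity), one_mul, mul_comm]
  exact h

/-- `parseval`, `av_nTyp` -/
theorem sum_NA (T : Finset (ℕ × α)) : ∑ a, D.NA T a ^ 2 ≤ D.w ^ 274 / D.nb := by
  have a : ∀ b, |ind (¬ D.Typ b) * D.F T b| ≤ ind (¬ D.Typ b) := fun b => by
    rw [abs_mul, abs_of_nonneg (ind_nonneg _)]
    exact mul_le_of_le_one_right (ind_nonneg _) (D.abs_F_le T b)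
  have w0 := D.w_pos
  refine (parseval _ fun b => (a b).trans (ind_le_one _)).trans ((mul_le_mul
    (pow_le_pow_left₀ (Nat.cast_nonneg _) (show _ ≤ D.w from D.num.o1) 2)
    ((av_mono a).trans D.av_nTyp) (av_nonneg fun _ => abs_nonneg _) (by positivity)).trans_eq ?_)
  ring

/-- SELECTION; `exists_ge_Ex`, `Ex_pow_card`, `sum_on_le`, `mom_typ` -/
theorem pick (h : (q : ℝ) ^ s ≤ D.w ^ 4 * D.nb * (sel fun b => D.t b ≤ 1 / 32).card) :
    ∃ T ⊆ D.grd, T.card ≤ 3 * q * (1640 * D.om + 1) ∧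
      (D.Ω.card : ℝ) ≤ D.w ^ 576 * (selIn D.Ω fun a => D.N T (D.v a) ≤ -D.sig / 2).card ∧
      ((sel fun a => D.N T a ≤ -D.sig / 2).card : ℝ) ≤ D.w ^ 1151 * D.nb := by
  have n0 := D.nb_pos
  have w0 := D.w_pos
  have w1 := D.w_ge
  have c0 := D.card_pos
  have e0 := D.eta_pos
  have e1 : D.eta ≤ 1 := D.eta_le.trans (by norm_num)
  have s0 : 0 < D.sig := by rw [sig]; positivity
  have r0 : D.r ≠ 0 := by have := D.num.r2; omega
  obtain ⟨Y, hY⟩ : ∃ Y : Finset (ℕ × α) → ℝ, ∀ T, Y T = ∑ z, (D.NT T z / (D.sig / 8)) ^ D.r :=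
    ⟨_, fun _ => rfl⟩
  obtain ⟨m, hm⟩ : ∃ m : Finset (ℕ × α) → ℝ, ∀ T, m T =
    (selIn D.Ω fun a => D.N T (D.v a) ≤ -D.sig / 2).card / D.Ω.card := ⟨_, fun _ => rfl⟩
  have y1 : Ex D.eta D.grd Y ≤ D.nb := by
    simp only [funext hY, div_pow, ← sum_div, div_eq_inv_mul (∑ z, _), Ex_mul_left]
    exact (inv_mul_le_iff₀' (by positivity)).2 (D.mom_typ.trans_eq (by rw [div_pow]))
  have a1 : ∀ T, -1 * ((∑ a ∈ D.Ω, D.N T (D.v a)) / D.Ω.card) ≤
      6 * D.sig / 8 + (2 * D.w ^ 424 / D.nb * m T + D.sig / 8 / D.nb * Y T) := fun T => by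
    have b0 : 0 < 2 * D.w ^ 424 / D.nb := by positivity
    have b1 := sum_le_sum fun a (_ : a ∈ D.Ω) => (Corr_pt s0 b0 D.num.r1 r0 (D.N_eq T (D.v a))).1
    have b2 := D.sum_on_le (fun z => D.NA T z ^ 2 / (4 * (2 * D.w ^ 424 / D.nb)) +
      D.sig / 8 * (D.NT T z / (D.sig / 8)) ^ D.r) fun z => add_nonneg (by positivity)
        (mul_nonneg (by positivity) (D.num.r1.pow_nonneg _))
    rw [sum_add_distrib (s := univ), ← sum_div, ← mul_sum, ← hY, add_div,
      mul_div_right_comm (D.sig / 8)] at b2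
    rw [sum_add_distrib, sum_add_distrib, ← mul_sum, ← card_selIn, sum_const, nsmul_eq_mul,
      sum_neg_distrib] at b1
    have b3 := div_le_div_of_nonneg_right b1 c0.le
    rw [add_div, add_div, mul_div_cancel_left₀ _ c0.ne', mul_div_assoc (2 * D.w ^ 424 / D.nb),
      ← hm, neg_div] at b3
    have b4 : (∑ z, D.NA T z ^ 2) / (4 * (2 * D.w ^ 424 / D.nb)) / D.nb ≤ D.sig / 8 := by
      refine (div_le_div_of_nonneg_right (div_le_div_of_nonneg_right (D.sum_NA T) (by positivity))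
        n0.le).trans_eq ?_
      rw [sig]
      field_simp
      norm_num
    linarith
  have a2 : 1 / D.w ^ 574 / 16 ≤ Ex D.eta D.grd m := by
    have b1 := Ex_mono e0.le e1 (Ω := D.grd) fun T _ => a1 T
    rw [Ex_mul_left, Ex_add, Ex_add, Ex_mul_left, Ex_mul_left, Ex_const] at b1
    have b2 := mul_le_mul_of_nonneg_left y1 (show 0 ≤ D.sig / 8 / D.nb by positivity)
    rw [div_mul_cancel₀ _ n0.ne'] at b2
    refine le_of_mul_le_mul_left ?_ (show 0 < 2 * D.w ^ 424 / D.nb by positivity)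
    rw [show 2 * D.w ^ 424 / D.nb * (1 / D.w ^ 574 / 16) = D.sig / 8 by
      rw [sig]; field_simp; norm_num]
    linarith [D.signal h]
  have a3 : Ex D.eta D.grd (fun T => ((sel fun a => D.N T a ≤ -D.sig / 2).card : ℝ)) ≤
      17 * (D.w ^ 574 * D.nb) := by
    refine (Ex_mono e0.le e1 (g := fun T => 16 * (D.w ^ 574 * D.nb) + Y T) fun T _ => ?_).trans ?_
    · rw [card_sel, hY]
      refine (sum_le_sum fun a _ => (Corr_pt s0 one_pos D.num.r1 r0 (D.N_eq T a)).2).trans ?_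
      rw [sum_add_distrib, ← mul_sum]
      refine add_le_add ((mul_le_mul_of_nonneg_left (D.sum_NA T) (by positivity)).trans_eq ?_) le_rfl
      rw [sig]
      field_simp
    · rw [Ex_add, Ex_const]
      linarith [le_mul_of_one_le_left n0.le (one_le_pow₀ (n := 574) (show 1 ≤ D.w by linarith))]
  have a4 : Ex D.eta D.grd (fun T => (2 : ℝ) ^ (T ∩ D.grd).card) ≤
      1 / D.w ^ 576 * 2 ^ (3 * q * (1640 * D.om + 1)) := by
    have l := Real.log_two_gt_d9
    have q1 : (1 : ℝ) ≤ q := Nat.one_le_cast.2 (Fact.out : q.Prime).pos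
    have o0 : (0 : ℝ) ≤ D.om := Nat.cast_nonneg _
    rw [Ex_pow_card, inter_self]
    refine (pow_le_pow_left₀ (by linarith) (show _ ≤ Real.exp D.eta by
      linarith [Real.add_one_le_exp D.eta]) _).trans ?_
    rw [← Real.exp_log (x := 2) two_pos, w, ← Real.exp_nat_mul, ← Real.exp_nat_mul,
      ← Real.exp_nat_mul, one_div, ← Real.exp_neg, ← Real.exp_add, Real.exp_le_exp, grd,
      card_product, card_range, eta, Nat.cast_mul, mul_assoc, mul_div_cancel₀ _ c0.ne']
    push_cast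
    have := mul_le_mul_of_nonneg_left q1 (show 0 ≤ 1640 * (D.om : ℝ) + 1 by linarith)
    have := mul_le_mul_of_nonneg_left l.le (show 0 ≤ 3 * q * (1640 * (D.om : ℝ) + 1) by positivity)
    linarith
  obtain ⟨T, hT, k⟩ := exists_ge_Ex e0.le e1 (Ω := D.grd) fun T => m T -
    (1 / (D.w ^ 1151 * D.nb) * ((sel fun a => D.N T a ≤ -D.sig / 2).card : ℝ) +
      1 / 2 ^ (3 * q * (1640 * D.om + 1)) * (2 : ℝ) ^ (T ∩ D.grd).card)
  rw [Ex_sub, Ex_add, Ex_mul_left, Ex_mul_left, inter_eq_left.2 hT] at k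
  have k1 := mul_le_mul_of_nonneg_left a3 (show 0 ≤ 1 / (D.w ^ 1151 * D.nb) by positivity)
  have k2 := mul_le_mul_of_nonneg_left a4
    (show 0 ≤ (1 : ℝ) / 2 ^ (3 * q * (1640 * D.om + 1)) by positivity)
  rw [mul_left_comm, one_div_mul_cancel (by positivity), mul_one] at k2
  rw [show 1 / (D.w ^ 1151 * D.nb) * (17 * (D.w ^ 574 * D.nb)) = 17 / D.w * (1 / D.w ^ 576) by
    field_simp] at k1
  rw [show 1 / D.w ^ 574 / 16 = D.w ^ 2 / 16 * (1 / D.w ^ 576) by field_simp] at a2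
  have u0 : 0 ≤ 1 / D.w ^ 576 := by positivity
  have k3 := mul_le_mul_of_nonneg_right ((div_le_one w0).2 (show 17 ≤ D.w by linarith)) u0
  have k4 := mul_le_mul_of_nonneg_right (show 3 ≤ D.w ^ 2 / 16 by nlinarith) u0
  have m1 : m T ≤ 1 := by
    rw [hm, div_le_one c0]
    exact Nat.cast_le.2 (card_le_card (selIn_subset _ _))
  have p1 : 0 ≤ 1 / (D.w ^ 1151 * D.nb) * ((sel fun a => D.N T a ≤ -D.sig / 2).card : ℝ) :=
    mul_nonneg (one_div_pos.2 (mul_pos (pow_pos w0 _) n0)).le (Nat.cast_nonneg _)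
  have p2 : 0 ≤ 1 / 2 ^ (3 * q * (1640 * D.om + 1)) * (2 : ℝ) ^ T.card := by positivity
  refine ⟨T, hT, (pow_le_pow_iff_right₀ (one_lt_two (α := ℝ))).1 ((div_le_one (by positivity)).1
    ?_), ?_, (div_le_one (by positivity)).1 ?_⟩
  · rw [div_eq_inv_mul, ← one_div]
    linarith
  · have : 1 / D.w ^ 576 ≤ m T := by linarith
    rwa [hm, div_le_div_iff₀ (by positivity) c0, one_mul, mul_comm] at this
  · rw [div_eq_inv_mul, ← one_div]
    linarith

end Dat

/-- CORR. The family is indexed by `n ≤ card α` (for `gam (q / n)`), the sample and the point `a0`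
where `stN` is largest on the chosen set; `card_small_le`. -/
theorem corr {q s : ℕ} [Fact q.Prime] {α : Type} [Fintype α] [DecidableEq α] (v : α → V q s)
    (om : ℕ) : ∃ C : Finset (Finset (V q s)),
      C.card ≤ (Fintype.card α + 1) *
        (((1640 * om + 1) * Fintype.card α + 1) ^ (3 * q * (1640 * om + 1)) * q ^ s) ∧
      ∀ D : Dat q s α, D.v = v → D.om = om →
        (q : ℝ) ^ s ≤ D.w ^ 4 * D.nb * (sel fun b => D.t b ≤ 1 / 32).card →
        ∃ Y ∈ C, (D.Ω.card : ℝ) ≤ D.w ^ 576 * (selIn D.Ω fun a => v a ∈ Y).card ∧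
          (Y.card : ℝ) ≤ D.w ^ 1151 * D.nb := by
  refine ⟨image (fun x : ℕ × Finset (ℕ × α) × V q s => sel fun a =>
    stN v om (gam (q / x.1)) x.2.1 a ≤ stN v om (gam (q / x.1)) x.2.1 x.2.2)
    (range (Fintype.card α + 1) ×ˢ (selIn (range (1640 * om + 1) ×ˢ univ).powerset
      fun T => T.card ≤ 3 * q * (1640 * om + 1)) ×ˢ univ), card_image_le.trans ?_, ?_⟩
  · rw [card_product, card_product, card_range, card_univ, card_V]
    refine Nat.mul_le_mul_left _ (Nat.mul_le_mul_right _ ((card_small_le _ _).trans_eq ?_))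
    rw [card_product, card_range, card_univ]
  rintro D rfl rfl h
  obtain ⟨T, h1, h2, h3, h4⟩ := D.pick h
  obtain ⟨a, ha⟩ : (selIn D.Ω fun a => D.N T (D.v a) ≤ -D.sig / 2).Nonempty :=
    card_pos.1 (Nat.cast_pos.1 ((mul_pos_iff_of_pos_left (pow_pos D.w_pos _)).1
      (D.card_pos.trans_le h3)))
  obtain ⟨z, hz, hm⟩ := exists_max_image (sel fun a => D.N T a ≤ -D.sig / 2) (D.N T)
    ⟨D.v a, mem_sel.2 (mem_selIn.1 ha).2⟩
  refine ⟨_, mem_image.2 ⟨(D.Ω.card, T, z), mem_product.2 ⟨mem_range.2 (Nat.lt_succ_of_le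
    (card_le_univ _)), mem_product.2 ⟨mem_selIn.2 ⟨mem_powerset.2 (h1.trans
      (product_subset_product_right (subset_univ _))), h2⟩, mem_univ _⟩⟩, ?_⟩, ?_, h4⟩
  · ext y
    rw [mem_sel, mem_sel]
    exact ⟨fun k => le_trans k (mem_sel (a := z).1 hz), fun k => hm y (mem_sel.2 k)⟩
  · simpa only [mem_sel] using h3

end Pool.Agent.Work.MP_e10cd8_co.Mid
end

-- merged part: Pool.Agent.Work.MP_e10cd8_co.Mid.Num
section
/-! The parameters of the reconstruction step exist. -/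

namespace Pool.Agent.Work.MP_e10cd8_co.Mid
open Finset Four

theorem Num_four : (4 : ℝ) ≤ Real.exp 2 := by
  have h := Real.add_one_le_exp (1 : ℝ)
  have e : Real.exp 2 = Real.exp 1 * Real.exp 1 := by rw [← Real.exp_add]; norm_num
  rw [e]; nlinarith

theorem Num_sixteen : (16 : ℝ) ≤ Real.exp 3 := by
  have h := Real.exp_one_gt_d9
  have e : Real.exp 3 = Real.exp 1 * Real.exp 1 * Real.exp 1 := by
    rw [← Real.exp_add, ← Real.exp_add]; norm_num
  have h2 : (7.29 : ℝ) ≤ Real.exp 1 * Real.exp 1 := by nlinarith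
  rw [e]; nlinarith

theorem Num_clog {q : ℕ} (hL : 500 ≤ Real.log q) : (Nat.clog 2 q : ℝ) ≤ 2 * Real.log q := by
  have hq : 1 < q := by
    by_contra h
    have h1 : (q : ℝ) ≤ 1 := by exact_mod_cast not_lt.1 h
    have := Real.log_nonpos (Nat.cast_nonneg q) h1
    linarith
  have h := Nat.pow_pred_clog_lt_self (b := 2) (by norm_num) hq
  have hc : 0 < Nat.clog 2 q := Nat.clog_pos (by norm_num) hq
  have h2 : ((2 : ℝ)) ^ (Nat.clog 2 q - 1) ≤ q := by exact_mod_cast h.le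
  have h3 := Real.log_le_log (by positivity) h2
  rw [Real.log_pow, Nat.cast_sub hc] at h3
  have h4 := Real.log_two_gt_d9
  have h5 : (1 : ℝ) ≤ Nat.clog 2 q := by exact_mod_cast hc
  push_cast at h3
  nlinarith

/-- `z = min L (log nb / L) / 10`, `ζ = exp (-z)`, `r = 2 * ⌈z / 20 + 3⌉₊`, `G = s + Nat.clog 2 q`
(paper, section 1, Facts). -/
theorem cp_exists {q s om : ℕ} {nb : ℝ} (hL : 500 ≤ Real.log q) (ho : s + Real.log q ≤ om)
    (h1 : Real.exp om ^ 500 ≤ nb) (h2 : nb ^ 2 ≤ 8 * (q : ℝ) ^ (s + 2)) :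
    ∃ (r G : ℕ) (ζ : ℝ), CP q s om r G nb ζ := by
  have hc := Num_clog hL
  have hq0 : (0 : ℝ) < q := by
    rcases Nat.eq_zero_or_pos q with h | h
    · subst h; simp at hL; linarith
    · exact_mod_cast h
  have hnb : 0 < nb := lt_of_lt_of_le (by positivity) h1
  obtain ⟨L, hLq⟩ : ∃ L, L = Real.log q := ⟨_, rfl⟩
  obtain ⟨l, hl⟩ : ∃ l, l = Real.log nb := ⟨_, rfl⟩
  have eq : (q : ℝ) = Real.exp L := by rw [hLq, Real.exp_log hq0]
  have en : nb = Real.exp l := by rw [hl, Real.exp_log hnb]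
  rw [← hLq] at hL ho hc
  have hs : (0 : ℝ) ≤ s := Nat.cast_nonneg s
  have hLo : L ≤ om := by linarith
  have hl1 : 500 * (om : ℝ) ≤ l := by
    rw [en, ← Real.exp_nat_mul, Real.exp_le_exp] at h1
    exact_mod_cast h1
  have hl2 : 2 * l ≤ 3 + (s + 2) * L := by
    have h8 : (8 : ℝ) ≤ Real.exp 3 := by linarith [Num_sixteen]
    have : Real.exp (2 * l) ≤ Real.exp (3 + (s + 2) * L) := by
      calc Real.exp (2 * l) = nb ^ 2 := by rw [en, ← Real.exp_nat_mul]; norm_num
        _ ≤ 8 * (q : ℝ) ^ (s + 2) := h2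
        _ ≤ Real.exp 3 * (q : ℝ) ^ (s + 2) := by gcongr
        _ = _ := by rw [eq, ← Real.exp_nat_mul, ← Real.exp_add]; push_cast; rfl
    exact Real.exp_le_exp.1 this
  have hl3 : l ≤ om * L := by nlinarith
  obtain ⟨z, hz⟩ : ∃ z, z = min L (l / L) / 10 := ⟨_, rfl⟩
  have hL0 : 0 < L := by linarith
  have hz1 : 10 * z ≤ L := by rw [hz]; linarith [min_le_left L (l / L)]
  have hz2 : 10 * z * L ≤ l := by
    have : min L (l / L) ≤ l / L := min_le_right _ _
    rw [le_div_iff₀ hL0] at this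
    rw [hz]; linarith
  have hz3 : 50 ≤ z := by
    have : 500 ≤ min L (l / L) := le_min hL (by rw [le_div_iff₀ hL0]; nlinarith)
    rw [hz]; linarith
  have hz4 : l ≤ 10 * z * om := by
    rcases min_choice L (l / L) with h | h
    · rw [hz, h]; nlinarith
    · rw [hz, h]
      have h3 : l / L * L = l := div_mul_cancel₀ _ hL0.ne'
      have h4 : 0 ≤ l / L := div_nonneg (by nlinarith) hL0.le
      nlinarith
  obtain ⟨n, hn⟩ : ∃ n, n = ⌈z / 20 + 3⌉₊ := ⟨_, rfl⟩
  have hn1 : z / 20 + 3 ≤ n := by rw [hn]; exact Nat.le_ceil _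
  have hn2 : (n : ℝ) ≤ z / 20 + 4 := by
    rw [hn]; linarith [Nat.ceil_lt_add_one (show 0 ≤ z / 20 + 3 by linarith)]
  have hom : (500 : ℝ) ≤ om := by linarith
  refine ⟨2 * n, s + Nat.clog 2 q, Real.exp (-z), ?_, ?_, ?_, ?_, ?_, h1, h2, ?_, ?_, ?_, ?_, ?_, ?_,
    ?_, ?_, ?_, ?_, ?_⟩
  · rw [eq, ← Real.exp_add]
    linarith [Real.add_one_le_exp (-z + L)]
  · calc (4 : ℝ) ^ (2 * n + 1) * Real.exp (-z) ≤ Real.exp 2 ^ (2 * n + 1) * Real.exp (-z) := by
          gcongr; exact Num_four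
      _ ≤ 1 := by
          rw [← Real.exp_nat_mul, ← Real.exp_add, Real.exp_le_one_iff]; push_cast; linarith
  · rw [en, ← Real.exp_nat_mul, ← Real.exp_add, Real.exp_le_one_iff]; push_cast; linarith
  · calc 16 * (q : ℝ) ^ 2 ≤ Real.exp 3 * (q : ℝ) ^ 2 := by gcongr; exact Num_sixteen
      _ ≤ _ := by
          rw [eq, ← Real.exp_nat_mul, ← Real.exp_nat_mul, ← Real.exp_nat_mul, ← Real.exp_add,
            ← Real.exp_add, Real.exp_le_exp]; push_cast; linarith
  · have h4 : 4 / Real.exp (-z) ≤ Real.exp (2 + z) := by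
      rw [div_le_iff₀ (Real.exp_pos _), ← Real.exp_add]
      simpa using Num_four
    have hc0 : (0 : ℝ) ≤ Nat.clog 2 q := Nat.cast_nonneg _
    calc q * (4 / Real.exp (-z)) ^ (s + Nat.clog 2 q) * (Real.exp om ^ 263 * nb)
        ≤ q * Real.exp (2 + z) ^ (s + Nat.clog 2 q) * (Real.exp om ^ 263 * nb) := by gcongr
      _ ≤ _ := by
          generalize Nat.clog 2 q = c at hc hc0
          rw [en, eq, ← Real.exp_nat_mul, ← Real.exp_nat_mul, ← Real.exp_nat_mul, ← Real.exp_add,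
            ← Real.exp_add, ← Real.exp_add, Real.exp_le_exp]
          push_cast
          have a1 : (c : ℝ) * z ≤ 2 * L * z := by gcongr
          have a2 : s * (10 * z) ≤ s * L := by gcongr
          nlinarith
  · rw [en, eq, ← Real.exp_nat_mul, Real.exp_le_exp]; exact hl3
  · exact Nat.le_add_right _ _
  · rw [Nat.add_sub_cancel_left]; exact Nat.le_pow_clog (by norm_num) _
  · have : ((s + Nat.clog 2 q : ℕ) : ℝ) ≤ (2 * om : ℕ) := by push_cast; linarith
    exact_mod_cast this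
  · exact even_two_mul n
  · have : (1 : ℝ) ≤ n := by linarith
    have : 1 ≤ n := by exact_mod_cast this
    omega
  · have : ((2 * n : ℕ) : ℝ) ≤ om := by push_cast; linarith
    exact_mod_cast this
  · have h3 : (2 : ℝ) ≤ Real.exp 1 := by linarith [Real.add_one_le_exp (1 : ℝ)]
    have h5 : 40 * ((2 * n : ℕ) : ℝ) ≤ Real.exp (2 * om - 2 * n) := by
      have := Real.add_one_le_exp (2 * (om : ℝ) - 2 * n)
      push_cast; linarith
    calc 40 * ((2 * n : ℕ) : ℝ) * 2 ^ (2 * n)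
        ≤ Real.exp (2 * om - 2 * n) * Real.exp 1 ^ (2 * n) := by gcongr
      _ = _ := by
          rw [← Real.exp_nat_mul, ← Real.exp_nat_mul, ← Real.exp_add]; push_cast; ring_nf
  · rw [en, ← Real.exp_nat_mul, ← Real.exp_nat_mul, ← Real.exp_add, Real.exp_le_exp]
    push_cast
    have : (z / 20 + 3) * om ≤ n * om := by gcongr
    nlinarith
  · rw [eq, Real.exp_le_exp]; exact hLo
  · exact_mod_cast hom

end Pool.Agent.Work.MP_e10cd8_co.Mid
end

-- merged part: Pool.Agent.Work.MP_e10cd8_co.Mid.Red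
section
/-! Reduction to a spread subquotient (paper 2). -/

namespace Pool.Agent.Work.MP_e10cd8_co.Mid
open Finset Four

variable {q d : ℕ} [Fact q.Prime]

/-- Linear algebra: `F ≤ W`, `s = finrank W - finrank F`. `B` extends the quotient map followed by
`LinearEquiv.ofFinrankEq` (`LinearMap.exists_extend`), `B' b i = w i ⬝ᵥ b` for `w i ∈ W` with
`B (w i) = Pi.single i 1`. -/
theorem quot {W F : Submodule (ZMod q) (V q d)} (h : F ≤ W) {s : ℕ}
    (hs : s + Module.finrank (ZMod q) F = Module.finrank (ZMod q) W) :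
    ∃ B B' : V q d →ₗ[ZMod q] V q s,
      (∀ a ∈ W, (B a = 0 ↔ a ∈ F)) ∧
      (∀ a ∈ W, ∀ b, (∀ u ∈ F, u ⬝ᵥ b = 0) → a ⬝ᵥ b = B a ⬝ᵥ B' b) ∧
      (∀ b, (∀ u ∈ F, u ⬝ᵥ b = 0) → B' b = 0 → ∀ u ∈ W, u ⬝ᵥ b = 0) ∧
      ∀ U : Submodule (ZMod q) (V q s), Module.finrank (ZMod q) ↥(U.comap B ⊓ W) =
        Module.finrank (ZMod q) U + Module.finrank (ZMod q) F := by
  have r1 := (Submodule.comapSubtypeEquivOfLe h).finrank_eq
  have r2 := Submodule.finrank_quotient_add_finrank (F.comap W.subtype)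
  have e : (W ⧸ F.comap W.subtype) ≃ₗ[ZMod q] V q s := LinearEquiv.ofFinrankEq _ _ (by
    rw [Module.finrank_fin_fun]
    omega)
  obtain ⟨B, hB⟩ := LinearMap.exists_extend (e.toLinearMap.comp (F.comap W.subtype).mkQ)
  have b0 : ∀ a : W, B a = e ((F.comap W.subtype).mkQ a) := fun a => LinearMap.congr_fun hB a
  have b1 : ∀ a ∈ W, (B a = 0 ↔ a ∈ F) := fun a ha => by
    rw [b0 ⟨a, ha⟩, e.map_eq_zero_iff, Submodule.mkQ_apply, Submodule.Quotient.mk_eq_zero]
    rfl
  have b2 : ∀ z, ∃ a ∈ W, B a = z := fun z => by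
    obtain ⟨a, ha⟩ := (F.comap W.subtype).mkQ_surjective (e.symm z)
    exact ⟨a, a.2, by rw [b0, ha, e.apply_symm_apply]⟩
  choose w w1 w2 using fun i => b2 (Pi.single i 1)
  have b3 : ∀ a ∈ W, ∀ b, (∀ u ∈ F, u ⬝ᵥ b = 0) → a ⬝ᵥ b = B a ⬝ᵥ fun i => w i ⬝ᵥ b :=
    fun a ha b hb => by
    have c := hb _ ((b1 _ (W.sub_mem ha (W.sum_mem (t := univ) fun i _ =>
      W.smul_mem (B a i) (w1 i)))).1 (by
        simp only [map_sub, map_sum, map_smul, w2]
        rw [sub_eq_zero]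
        exact pi_eq_sum_univ' _))
    rw [sub_dotProduct, sub_eq_zero, sum_dotProduct] at c
    simp only [smul_dotProduct] at c
    exact c
  refine ⟨B, LinearMap.pi fun i => dotProductBilin (ZMod q) (ZMod q) (w i), b1, b3,
    fun b hb k u hu => (b3 u hu b hb).trans ((congrArg _ k).trans (dotProduct_zero _)),
    fun U => ?_⟩
  have c1 : F ≤ U.comap B ⊓ W := fun a ha =>
    ⟨Submodule.mem_comap.2 (((b1 a (h ha)).2 ha).symm ▸ U.zero_mem), h ha⟩
  have c2 : LinearMap.range (B.domRestrict (U.comap B ⊓ W)) = U := by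
    refine le_antisymm (fun z ⟨a, ha⟩ => ha ▸ a.2.1) fun z hz => ?_
    obtain ⟨a, a1, rfl⟩ := b2 z
    exact ⟨⟨a, hz, a1⟩, rfl⟩
  have c3 : LinearMap.ker (B.domRestrict (U.comap B ⊓ W)) = F.comap (U.comap B ⊓ W).subtype :=
    Submodule.ext fun a => b1 a a.2.2
  rw [← LinearMap.finrank_range_add_finrank_ker (B.domRestrict (U.comap B ⊓ W)), c2, c3,
    (Submodule.comapSubtypeEquivOfLe c1).finrank_eq]

theorem Red_fib {s : ℕ} {W K : Submodule (ZMod q) (V q d)} {B : V q d →ₗ[ZMod q] V q s}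
    (h : ∀ a ∈ W, B a = 0 → a ∈ K) (z : V q s) :
    (sel fun a => a ∈ W ∧ B a = z).card ≤ q ^ Module.finrank (ZMod q) K := by
  obtain e | ⟨x, hx⟩ := (sel fun a => a ∈ W ∧ B a = z).eq_empty_or_nonempty
  · rw [e]
    exact Nat.zero_le _
  rw [← card_sub]
  refine card_le_card_of_injOn (fun a => a - x) (fun a ha => ?_) fun a _ a' _ e => sub_left_inj.1 e
  obtain ⟨a1, a2⟩ := mem_sel.1 (mem_coe.1 ha)
  obtain ⟨x1, x2⟩ := mem_sel.1 hx
  exact mem_coe.2 (mem_sel.2 (h _ (W.sub_mem a1 x1) (by rw [map_sub, a2, x2, sub_self])))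

/-- RED; `half_low`, `sum_cnt`, `sum_cnt_le`, `card_perp`, `card_sub`, `Finite.exists_max` -/
theorem red {P S : Finset (V q d)} (hP : P.Nonempty) (hS : S.Nonempty) (h : S ⊆ low (1 / 256) P) :
    ∃ s ≤ d, ∃ A B : Side q d s, A.Z ⊆ P ∧ B.Z ⊆ S ∧ A.φ * B.φ * q ^ s = q ^ d ∧
      (∀ a ∈ A.W, ∀ b ∈ B.W, a ⬝ᵥ b = A.B a ⬝ᵥ B.B b) ∧
      P.card * S.card ≤ 2 ^ (d + 2) * (A.Z.card * B.Z.card) ∧
      A.Z ⊆ low (1 / 128) S ∧ B.Z ⊆ low (1 / 64) A.Z := by
  have p1 := half_low (x := 1 / 256) (by norm_num) (P := S) (S := P) (by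
    rw [← sum_cnt, mul_right_comm]
    exact sum_cnt_le h)
  rw [show 2 * (1 / 256 : ℝ) = 1 / 128 by norm_num] at p1
  obtain ⟨W, hW⟩ := Finite.exists_max fun W : Submodule (ZMod q) (V q d) =>
    (selIn (P ∩ low (1 / 128) S) fun a => a ∈ W).card * 2 ^ (d - Module.finrank (ZMod q) W)
  obtain ⟨P1, e1⟩ : ∃ P1, P1 = selIn (P ∩ low (1 / 128) S) fun a => a ∈ W := ⟨_, rfl⟩
  rw [← e1] at hW
  have p2 : P1 ⊆ P ∩ low (1 / 128) S := e1 ▸ selIn_subset _ _
  have p3 : (P ∩ low (1 / 128) S).card ≤ P1.card * 2 ^ (d - Module.finrank (ZMod q) W) :=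
    le_trans ((card_le_card fun a ha => mem_selIn.2 ⟨ha, Submodule.mem_top⟩).trans
      (Nat.le_mul_of_pos_right _ (Nat.two_pow_pos _))) (hW ⊤)
  have s1 := half_low (x := 1 / 128) (by norm_num) (P := P1) (S := S) (by
    rw [sum_cnt, mul_right_comm]
    exact sum_cnt_le (p2.trans inter_subset_right))
  rw [show 2 * (1 / 128 : ℝ) = 1 / 64 by norm_num] at s1
  have : Nonempty {F : Submodule (ZMod q) (V q d) // F ≤ W} := ⟨⟨⊥, bot_le⟩⟩
  obtain ⟨⟨F, f1⟩, hF⟩ := Finite.exists_max fun F : {F : Submodule (ZMod q) (V q d) // F ≤ W} =>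
    (selIn (S ∩ low (1 / 64) P1) fun b => b ∈ orth F.1).card * 2 ^ Module.finrank (ZMod q) F.1
  obtain ⟨S1, e2⟩ : ∃ S1, S1 = selIn (S ∩ low (1 / 64) P1) fun b => b ∈ orth F := ⟨_, rfl⟩
  simp only [← e2] at hF
  have s2 : S1 ⊆ S ∩ low (1 / 64) P1 := e2 ▸ selIn_subset _ _
  have s3 : (S ∩ low (1 / 64) P1).card ≤ S1.card * 2 ^ Module.finrank (ZMod q) F :=
    le_trans ((card_le_card fun b hb => mem_selIn.2 ⟨hb, mem_orth.2 fun u hu => by
      rw [(Submodule.mem_bot _).1 hu, zero_dotProduct]⟩).trans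
      (Nat.le_mul_of_pos_right _ (Nat.two_pow_pos _))) (hF ⟨⊥, bot_le⟩)
  obtain ⟨s, hs⟩ := Nat.exists_eq_add_of_le' (Submodule.finrank_mono f1)
  obtain ⟨c, hc⟩ := Nat.exists_eq_add_of_le (finrank_le W)
  have hc' : d - Module.finrank (ZMod q) W = c := by omega
  rw [hc'] at hW p3
  obtain ⟨B, B', b1, b2, b3, b4⟩ := quot f1 hs.symm
  have n1 : P1.Nonempty := card_pos.1 (Nat.pos_of_mul_pos_right (lt_of_lt_of_le
    (by have := hP.card_pos; omega) p3))
  have n2 : S1.Nonempty := card_pos.1 (Nat.pos_of_mul_pos_right (lt_of_lt_of_le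
    (by have := hS.card_pos; omega) s3))
  refine ⟨s, by omega,
    ⟨W, B, q ^ Module.finrank (ZMod q) F, P1, n1, fun a ha => (mem_selIn.1 (e1 ▸ ha)).2,
      Red_fib fun a ha => (b1 a ha).1, fun U => ?_⟩,
    ⟨orth F, B', q ^ Module.finrank (ZMod q) (orth W), S1, n2,
      fun a ha => (mem_selIn.1 (e2 ▸ ha)).2, Red_fib b3, fun U => ?_⟩,
    p2.trans inter_subset_left, s2.trans inter_subset_left, ?_, b2, ?_,
    p2.trans inter_subset_right, s2.trans inter_subset_right⟩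
  · obtain ⟨u, hu⟩ := Nat.exists_eq_add_of_le (finrank_le U)
    have a1 := le_trans (Nat.mul_le_mul_right _ (card_le_card (s := selIn P1 fun a => B a ∈ U)
      fun a ha => mem_selIn.2 ⟨p2 (mem_selIn.1 ha).1, (mem_selIn.1 ha).2,
        (mem_selIn.1 (e1 ▸ (mem_selIn.1 ha).1)).2⟩)) (hW (U.comap B ⊓ W))
    rw [b4, show d - (Module.finrank (ZMod q) U + Module.finrank (ZMod q) F) = u + c by omega,
      pow_add, ← mul_assoc] at a1
    rw [congrArg (2 ^ ·) hu, pow_add, mul_comm (2 ^ _), ← mul_assoc]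
    exact Nat.mul_le_mul_right _ (Nat.le_of_mul_le_mul_right a1 (Nat.two_pow_pos _))
  · obtain ⟨u, hu⟩ := Nat.exists_eq_add_of_le (finrank_le U)
    have a0 : (selIn S1 fun b => B' b ∈ U) ⊆ selIn (S ∩ low (1 / 64) P1)
        fun b => b ∈ orth ((orth U).comap B ⊓ W) :=
      fun b hb => mem_selIn.2 ⟨s2 (mem_selIn.1 hb).1, mem_orth.2 fun a ha =>
        (b2 a ha.2 b (mem_selIn.1 (e2 ▸ (mem_selIn.1 hb).1)).2).trans ((dotProduct_comm _ _).trans
          (mem_orth.1 ha.1 _ (mem_selIn.1 hb).2))⟩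
    have a1 := le_trans (Nat.mul_le_mul_right _ (card_le_card a0))
      (hF ⟨(orth U).comap B ⊓ W, inf_le_right⟩)
    rw [b4, finrank_orth, show s - Module.finrank (ZMod q) U = u by omega, pow_add,
      ← mul_assoc] at a1
    rw [congrArg (2 ^ ·) hu, pow_add, mul_comm (2 ^ _), ← mul_assoc]
    exact Nat.mul_le_mul_right _ (Nat.le_of_mul_le_mul_right a1 (Nat.two_pow_pos _))
  · simp only []
    rw [finrank_orth, ← pow_add, ← pow_add]
    congr 1
    omega
  · calc _ ≤ 2 * (P1.card * 2 ^ c) * (2 * (S1.card * 2 ^ Module.finrank (ZMod q) F)) :=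
          Nat.mul_le_mul (by omega) (by omega)
      _ = 2 ^ (c + Module.finrank (ZMod q) F + 2) * (P1.card * S1.card) := by ring
      _ ≤ _ := Nat.mul_le_mul_right _ (Nat.pow_le_pow_right two_pos (by omega))

end Pool.Agent.Work.MP_e10cd8_co.Mid
end

-- merged part: Pool.Agent.Work.MP_e10cd8_co.Mid.Boost
section
/-! Containers inside a known superset, vector form of `All/Boost`. -/

namespace Pool.Agent.Work.MP_e10cd8_co.Mid
open Finset Four

theorem Boost_le {q d : ℕ} [Fact q.Prime] : (Fintype.card (V q d) : ℝ) ≤ 2 * (q : ℝ) ^ d := by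
  rw [card_V, Nat.cast_pow]
  exact le_mul_of_one_le_left (by positivity) one_le_two

theorem Boost_succ {q d : ℕ} [Fact q.Prime] : Fintype.card (V q d) + 1 ≤ q ^ (d + 1) := by
  rw [card_V]
  exact Nat.pow_lt_pow_right (Fact.out : q.Prime).one_lt d.lt_succ_self

theorem Boost_one {q d : ℕ} [Fact q.Prime] (hq : 1000 ≤ q) (U : Finset (V q d)) {Om : ℝ} (hOm : 1 ≤ Om) {K : ℝ}
    (hK : K = ((d + 1 : ℕ) : ℝ) * Real.log q) (n : ℕ) :
    ∃ (θ : ℝ) (F : Finset (Finset (V q d))), F.card ≤ Fintype.card (V q d) + 1 ∧ ∀ X ⊆ U, X.Nonempty →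
      X.card = n → (U.card : ℝ) ≤ Om * n → ∃ R ∈ F, (R.card : ℝ) ≤ Om * (240 * q * K) ∧
        ∃ T ⊆ R, (T.card : ℝ) ≤ 240 * q * K ∧
          low (1 / 8) X ⊆ (sel fun b => (cnt T b : ℝ) ≤ θ) ∧
          (sel fun b => (cnt T b : ℝ) ≤ θ) ⊆ low (1 / 2) X := by
  have q1 : (1000 : ℝ) ≤ q := by exact_mod_cast hq
  have q0 : (0 : ℝ) < q := by linarith
  have L0 : 0 < K := by
    rw [hK]
    exact mul_pos (Nat.cast_pos.2 (Nat.succ_pos d)) (Real.log_pos (by linarith))
  have t0 : 0 < q * K := mul_pos q0 L0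
  by_cases hn : (n : ℝ) ≤ 24 * q * K
  · refine ⟨1 / 4 * n / q, {U}, by simp, fun X hX _ e h => ⟨U, mem_singleton_self _,
      h.trans (mul_le_mul_of_nonneg_left (by linarith) (by linarith)), X, hX, by rw [e]; linarith,
      e ▸ low_mono (y := 1 / 4) (by norm_num) X, e ▸ low_mono (x := 1 / 4) (by norm_num) X⟩⟩
  have n1 := not_le.1 hn
  have n0 : (0 : ℝ) < n := by linarith
  obtain ⟨η, he⟩ : ∃ η : ℝ, η * n = 24 * q * K := ⟨_, div_mul_cancel₀ _ n0.ne'⟩
  have h0 : 0 < η := (mul_pos_iff_of_pos_right n0).1 (by rw [he]; linarith)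
  have h1 : η ≤ 1 := le_of_mul_le_mul_right (by rw [he]; linarith) n0
  obtain ⟨F, f1, -, f3⟩ := cover (Ω := U) h0.le h1 (fun X R => ¬ ((10 * (η * U.card) ≤ (R ∩ U).card ∨
      10 * (η * n) ≤ (R ∩ X).card) ∨
      ((∃ b ∈ low (1 / 8) X, 2 * (3 * K) < ((R ∩ (pl b ∩ X)).card : ℝ)) ∨
      ∃ b ∈ (low (1 / 2) X)ᶜ, ((R ∩ (pl b ∩ X)).card : ℝ) ≤ 2 * (3 * K))) ∧ R ⊆ U)
    (Fintype.card (V q d) + 1) (U.powersetCard n) ((card_le_card fun X hX => mem_powerset.2
      (mem_powersetCard.1 hX).1).trans_lt (by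
        rw [card_powerset]
        exact Nat.pow_lt_pow_right one_lt_two (Nat.lt_succ_of_le (card_le_univ U)))) fun X hX => by
      obtain ⟨x1, x2⟩ := mem_powersetCard.1 hX
      have u0 : (0 : ℝ) < U.card := n0.trans_le (by exact_mod_cast x2 ▸ card_le_card x1)
      have c : ∀ b, (pl b ∩ X ∩ U).card = cnt X b := fun b => by
        rw [inter_assoc, inter_eq_left.2 x1, cnt]
      have s : ∀ (I : Finset (V q d)) (p : V q d → Finset (V q d) → Prop), (∀ b ∈ I, Pr η U (p b) ≤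
          Real.exp (-(3 * K) / 3)) → Pr η U (fun R => ∃ b ∈ I, p b R) ≤ 1 / 10 :=
        fun I p k => by
          refine (Pr_exists h0.le h1 I p).trans ((sum_le_card_nsmul _ _ _ k).trans ?_)
          have e : -(3 * K) / 3 = -(((d + 1 : ℕ) : ℝ) * Real.log q) := by rw [hK]; ring
          rw [nsmul_eq_mul, e, Real.exp_neg, Real.exp_nat_mul, Real.exp_log q0, ← div_eq_mul_inv,
            div_le_iff₀ (by positivity), pow_succ]
          have : (I.card : ℝ) ≤ 2 * q ^ d := (Nat.cast_le.2 (card_le_univ I)).trans Boost_le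
          have := mul_le_mul_of_nonneg_left q1 (pow_pos q0 d).le
          have := pow_pos q0 d
          linarith
      have a1 := markov (Ω := U) h0.le h1 (f := fun R => ((R ∩ U).card : ℝ))
        (fun _ _ => Nat.cast_nonneg _) (t := 10 * (η * U.card)) (by positivity)
      have a2 := markov (Ω := U) h0.le h1 (f := fun R => ((R ∩ X).card : ℝ))
        (fun _ _ => Nat.cast_nonneg _) (t := 10 * (η * n)) (by positivity)
      rw [Ex_card, inter_self, div_mul_cancel_right₀ (by positivity)] at a1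
      rw [Ex_card, inter_eq_left.2 x1, x2, div_mul_cancel_right₀ (by positivity)] at a2
      have a3 := s _ _ fun b (hb : b ∈ low (1 / 8) X) => thr_up (Ω := U) h0.le h1 (pl b ∩ X)
        (m := 3 * K) (by positivity) (by
          rw [c]
          have := mem_low.1 hb
          rw [x2, le_div_iff₀ q0] at this
          have := mul_le_mul_of_nonneg_left this h0.le
          exact le_of_mul_le_mul_right (by linarith) q0)
      have a4 := s _ _ fun b (hb : b ∈ (low (1 / 2) X)ᶜ) => thr_down (Ω := U) h0.le h1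
        (pl b ∩ X) (m := 3 * K) (by positivity) (by
          rw [c]
          have := not_le.1 (mem_low.not.1 (mem_compl.1 hb))
          rw [x2, div_lt_iff₀ q0] at this
          have := mul_le_mul_of_nonneg_left this.le h0.le
          exact le_of_mul_le_mul_right (by linarith) q0)
      refine le_trans ?_ (Pr_mono h0.le h1 fun R hR k => ⟨k, hR⟩)
      rw [Pr_not]
      linarith [(Pr_or h0.le h1 _ _).trans (add_le_add ((Pr_or h0.le h1 _ _).trans
        (add_le_add a1 a2)) ((Pr_or h0.le h1 _ _).trans (add_le_add a3 a4)))]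
  refine ⟨2 * (3 * K), F, f1, fun X hX _ e h => ?_⟩
  obtain ⟨R, r1, r2, r3⟩ := f3 X (mem_powersetCard.2 ⟨hX, e⟩)
  simp only [not_or, not_le, not_exists, not_and, not_lt, inter_eq_left.2 r3] at r2
  obtain ⟨⟨b1, b2⟩, b3, b4⟩ := r2
  have c : ∀ b, cnt (R ∩ X) b = (R ∩ (pl b ∩ X)).card := fun b => by
    rw [cnt, inter_left_comm]
  have b5 : (R.card : ℝ) ≤ Om * (240 * q * K) := by
    have i1 := mul_le_mul_of_nonneg_left h h0.le
    have i2 : η * (Om * n) = Om * (24 * q * K) := by rw [← he]; ring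
    linarith
  refine ⟨R, r1, b5, R ∩ X, inter_subset_left,
    by linarith, fun b hb => mem_sel.2 (c b ▸ b3 b hb), fun b hb => by_contra fun k => ?_⟩
  rw [mem_sel, c] at hb
  exact (b4 b (mem_compl.2 k)).not_ge hb

theorem Boost_bi {α β : Type} [DecidableEq β] (I : Finset α) (f : α → Finset β) (c d : ℝ)
    (d0 : 0 ≤ d) (k : (I.card : ℝ) ≤ c) (k' : ∀ a ∈ I, ((f a).card : ℝ) ≤ d) :
    ((I.biUnion f).card : ℝ) ≤ c * d := by
  refine (Nat.cast_le.2 card_biUnion_le).trans ?_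
  rw [Nat.cast_sum]
  exact (sum_le_card_nsmul _ _ _ k').trans
    ((nsmul_eq_mul _ _).le.trans (mul_le_mul_of_nonneg_right k d0))

/-- Copy `All/Boost` (`Boost_one`, `Boost_bi`, `boost`) with `K = (d + 1) log q`; there are `q ^ d`
points, `card_low_le` gives `4 q ^ (d + 2)`. -/
theorem boost {q d : ℕ} [Fact q.Prime] (hq : 1000 ≤ q) (U : Finset (V q d)) {Om : ℝ}
    (hOm : 1 ≤ Om) : ∃ F : Finset (Finset (V q d)),
      (F.card : ℝ) ≤ Real.exp (300 * (d + 1) * q * Real.log q * (1 + Real.log Om)) ∧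
      ∀ X ⊆ U, X.Nonempty → (U.card : ℝ) ≤ Om * X.card →
        ∃ Y ∈ F, low (1 / 8) X ⊆ Y ∧ (Y.card : ℝ) * X.card ≤ 4 * (q : ℝ) ^ (d + 2) := by
  have q1 : (1000 : ℝ) ≤ q := by exact_mod_cast hq
  have q0 : (0 : ℝ) < q := by linarith
  obtain ⟨K, hK⟩ : ∃ K : ℝ, K = ((d + 1 : ℕ) : ℝ) * Real.log q := ⟨_, rfl⟩
  have L0 : 0 < K := by
    rw [hK]
    exact mul_pos (Nat.cast_pos.2 (Nat.succ_pos d)) (Real.log_pos (by linarith))
  have O0 := Real.log_nonneg hOm
  choose θ F f1 f2 using Boost_one hq U hOm hK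
  refine ⟨(range (Fintype.card (V q d) + 1)).biUnion fun n => (selIn (F n) fun R =>
    (R.card : ℝ) ≤ Om * (240 * q * K)).biUnion fun R => (selIn R.powerset fun T =>
      (T.card : ℝ) ≤ 240 * q * K).image fun T => sel fun b => (cnt T b : ℝ) ≤ θ n, ?_,
    fun X hX hne h => ?_⟩
  · have Q : ((Fintype.card (V q d) + 1 : ℕ) : ℝ) ≤ Real.exp K := by
      rw [hK, Real.exp_nat_mul, Real.exp_log q0]
      exact_mod_cast Boost_succ
    refine (Boost_bi _ _ _ _ (by positivity) ((congrArg _ (card_range _)).trans_le Q) fun n _ =>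
      Boost_bi _ _ _ (Real.exp (240 * q * K * (1 + Real.log Om))) (by positivity)
      ((Nat.cast_le.2 ((card_le_card (selIn_subset _ _)).trans (f1 n))).trans Q)
      fun R hR => (Nat.cast_le.2 card_image_le).trans ?_).trans ?_
    · have := sum_small_le R (p := 1) (x := 1 / Om) (t := 240 * q * K) zero_le_one
        (by positivity) ((div_le_one (by linarith)).2 hOm)
      simp only [one_pow, sum_const, nsmul_eq_mul, mul_one, one_div_one_div] at this
      refine this.trans (Real.exp_le_exp.2 ?_)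
      have := (mem_selIn.1 hR).2
      rw [mul_comm, ← div_le_iff₀ (by linarith)] at this
      rw [one_div, mul_comm Om⁻¹, ← div_eq_mul_inv]
      linarith
    · rw [← Real.exp_add, ← Real.exp_add, Real.exp_le_exp]
      have e : 300 * ((d : ℝ) + 1) * q * Real.log q * (1 + Real.log Om) =
          300 * q * K * (1 + Real.log Om) := by
        rw [hK]
        push_cast
        ring
      have i1 := mul_nonneg (mul_pos q0 L0).le O0
      have i2 := mul_le_mul_of_nonneg_right q1 L0.le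
      rw [e]
      linarith
  · obtain ⟨R, r1, r2, T, t1, t2, t3, t4⟩ := f2 _ X hX hne rfl h
    refine ⟨_, mem_biUnion.2 ⟨X.card, mem_range.2 (Nat.lt_succ_of_le (card_le_univ X)),
      mem_biUnion.2 ⟨R, mem_selIn.2 ⟨r1, r2⟩, mem_image.2
        ⟨T, mem_selIn.2 ⟨mem_powerset.2 t1, t2⟩, rfl⟩⟩⟩, t3, ?_⟩
    have i1 := card_low_le (x := 1 / 2) (by norm_num) X
    have i2 := mul_le_mul_of_nonneg_right (Nat.cast_le (α := ℝ).2 (card_le_card t4))
      (Nat.cast_nonneg (α := ℝ) X.card)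
    linarith

end Pool.Agent.Work.MP_e10cd8_co.Mid
end

-- merged part: Pool.Agent.Work.MP_e10cd8_co.Mid.KL
section
/-! Containers for nearly extremal pairs (paper 3). -/

namespace Pool.Agent.Work.MP_e10cd8_co.Mid
open Finset Four

variable {q d : ℕ} [Fact q.Prime]

theorem KL_fin (s : ℕ) : Finite (V q d →ₗ[ZMod q] V q s) :=
  Finite.of_injective (fun f : V q d →ₗ[ZMod q] V q s => (f : V q d → V q s))
    DFunLike.coe_injective

theorem KL_linmap (s : ℕ) : Nat.card (V q d →ₗ[ZMod q] V q s) = q ^ (s * d) := by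
  rw [Nat.card_congr (LinearMap.toMatrix' (R := ZMod q) (m := Fin s) (n := Fin d)).toEquiv]
  change Nat.card (Fin s → Fin d → ZMod q) = _
  simp only [Nat.card_eq_fintype_card, Fintype.card_pi, ZMod.card, prod_const, card_univ,
    Fintype.card_fin]
  rw [← pow_mul, mul_comm]

/-- every submodule is the range of a linear map -/
theorem card_submodule : Nat.card (Submodule (ZMod q) (V q d)) ≤ q ^ (d * d) := by
  have := KL_fin (q := q) (d := d) d
  rw [← KL_linmap d]
  refine Nat.card_le_card_of_surjective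
    (fun f : V q d →ₗ[ZMod q] V q d => LinearMap.range f) fun W => ?_
  obtain ⟨g, hg⟩ := W.subtype.exists_leftInverse_of_injective W.ker_subtype
  refine ⟨W.subtype ∘ₗ g, ?_⟩
  have hs : LinearMap.range g = ⊤ := by
    rw [LinearMap.range_eq_top]
    intro x
    exact ⟨W.subtype x, LinearMap.congr_fun hg x⟩
  simp only [LinearMap.range_comp, hs, Submodule.map_top, Submodule.range_subtype]

theorem card_linmap (s : ℕ) : Nat.card (V q d →ₗ[ZMod q] V q s) = q ^ (s * d) := KL_linmap s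

theorem KL_fib {s : ℕ} (A : Side q d s) {H : Finset (V q d)} {Y : Finset (V q s)}
    (hW : ∀ a ∈ H, a ∈ A.W) (hY : ∀ a ∈ H, A.B a ∈ Y) : H.card ≤ A.φ * Y.card := by
  classical
  refine Finset.card_le_mul_card_image_of_maps_to (f := fun a => A.B a) hY _ fun z _ => ?_
  refine le_trans (card_le_card fun a ha => ?_) (A.fib z)
  rw [mem_filter] at ha
  exact mem_sel.2 ⟨hW a ha.1, ha.2⟩

theorem KL_q (hL : 500 ≤ Real.log q) : 1000 ≤ q := by
  have hq0 : (0 : ℝ) < q := by exact_mod_cast (Fact.out : q.Prime).pos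
  have h := Real.quadratic_le_exp_of_nonneg (show 0 ≤ Real.log q by linarith)
  rw [Real.exp_log hq0] at h
  have : (1000 : ℝ) ≤ q := by nlinarith
  exact_mod_cast this

theorem KL_w {q d om : ℕ} (hL : 500 ≤ Real.log q) (ho : d + Real.log q ≤ om) :
    2 ≤ Real.exp om := by
  have := Real.add_one_le_exp (om : ℝ)
  have : (0 : ℝ) ≤ d := Nat.cast_nonneg d
  linarith

theorem KL_qw {om : ℕ} (hd : 1 ≤ d) (ho : d + Real.log q ≤ om) :
    4 * (q : ℝ) ^ 2 ≤ Real.exp om ^ 2 := by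
  have hq0 : (0 : ℝ) < q := by exact_mod_cast (Fact.out : q.Prime).pos
  have h1 : (1 : ℝ) ≤ d := by exact_mod_cast hd
  have h2 : Real.exp (1 + Real.log q) ≤ Real.exp om := Real.exp_le_exp.2 (by linarith)
  rw [Real.exp_add, Real.exp_log hq0] at h2
  have h3 : (2 : ℝ) ≤ Real.exp 1 := by linarith [Real.add_one_le_exp (1 : ℝ)]
  have h4 : 2 * (q : ℝ) ≤ Real.exp om := by nlinarith
  nlinarith

/-- the count of the family of `ufam` -/
theorem KL_count {q d om s : ℕ} (hq : 1000 ≤ q) (hd : 1 ≤ d) (hdo : d ≤ om)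
    (ho' : 2000 * om ≤ q ^ d) (hs : s ≤ d) :
    (q ^ d + 1) * (((1640 * om + 1) * q ^ d + 1) ^ (3 * q * (1640 * om + 1)) * q ^ s) + 1 ≤
      q ^ (4 * d + 9846 * d * q * om) := by
  have hq1 : 1 ≤ q := by omega
  have hQ : 2 ≤ q ^ d := by omega
  have h1 : q ^ d + 1 ≤ q ^ (2 * d) := by rw [two_mul, pow_add]; nlinarith
  have h2 : (1640 * om + 1) * q ^ d + 1 ≤ q ^ (2 * d) := by
    rw [two_mul, pow_add]
    have : (1640 * om + 2) * q ^ d ≤ q ^ d * q ^ d := Nat.mul_le_mul_right _ (by omega)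
    nlinarith
  have h3 : q ^ s ≤ q ^ d := Nat.pow_le_pow_right hq1 hs
  have h4 : ((1640 * om + 1) * q ^ d + 1) ^ (3 * q * (1640 * om + 1)) ≤
      q ^ (9846 * d * q * om) := by
    refine (Nat.pow_le_pow_left h2 _).trans ?_
    rw [← pow_mul]
    refine Nat.pow_le_pow_right hq1 ?_
    have : 1640 * om + 1 ≤ 1641 * om := by omega
    calc 2 * d * (3 * q * (1640 * om + 1)) ≤ 2 * d * (3 * q * (1641 * om)) := by gcongr
      _ = _ := by ring
  have h5 : (q ^ d + 1) * (((1640 * om + 1) * q ^ d + 1) ^ (3 * q * (1640 * om + 1)) * q ^ s) ≤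
      q ^ (3 * d + 9846 * d * q * om) := by
    calc _ ≤ q ^ (2 * d) * (q ^ (9846 * d * q * om) * q ^ d) := by gcongr
      _ = _ := by rw [← pow_add, ← pow_add]; congr 1; ring
  have h6 : 1 ≤ q ^ (3 * d + 9846 * d * q * om) := Nat.one_le_pow _ _ hq1
  have h7 : q ^ (4 * d + 9846 * d * q * om) = q ^ d * q ^ (3 * d + 9846 * d * q * om) := by
    rw [← pow_add]; congr 1; ring
  rw [h7]
  nlinarith

/-- Members: the points of `W` with `B a ∈ Y`, over `s ≤ d`, `W`, `B` and `Y` in the family of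
`corr` for `v = B` or `Y = univ`. With `n1 = A.Z.card / A.φ`, `n2 = B.Z.card / B.φ`: half of `B.Z`
is in `low (1 / 32) A.Z` (`half_low`), its image has at least `n2 / 2` points, `card_half_le` gives
`n1 n2 ≤ 8 q ^ (s + 2)`. If `w ^ 500 ≤ n1` use `cp_exists` and `corr`, else take `B.W`. -/
theorem ufam {om : ℕ} (hL : 500 ≤ Real.log q) (hd : 1 ≤ d) (ho : d + Real.log q ≤ om)
    (ho' : 2000 * om ≤ q ^ d) : ∃ C : Finset (Finset (V q d)),
      (C.card : ℝ) ≤ Real.exp (16000 * d * q * Real.log q * om) ∧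
      ∀ s ≤ d, ∀ A B : Side q d s, A.φ * B.φ * q ^ s = q ^ d →
        (∀ a ∈ A.W, ∀ b ∈ B.W, a ⬝ᵥ b = A.B a ⬝ᵥ B.B b) →
        ((∑ b ∈ B.Z, cnt A.Z b : ℕ) : ℝ) ≤ 1 / 64 * A.Z.card * B.Z.card / q →
        (q : ℝ) ^ d ≤ Real.exp om ^ 3 * (A.Z.card * B.Z.card) →
        A.Z.card * B.φ ≤ B.Z.card * A.φ →
        ∃ U ∈ C, ∃ Z ⊆ U, (U.card : ℝ) ≤ Real.exp om ^ 1727 * Z.card ∧
          (Z ⊆ A.Z ∧ (A.Z.card : ℝ) ≤ Real.exp om ^ 576 * Z.card ∨
            Z ⊆ B.Z ∧ (B.Z.card : ℝ) ≤ Real.exp om ^ 576 * Z.card) := by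
  classical
  have hq := KL_q hL
  have hq0 : (0 : ℝ) < q := by exact_mod_cast (Fact.out : q.Prime).pos
  have hw := KL_w hL ho
  have hdo : d ≤ om := by
    have : (d : ℝ) ≤ om := by linarith
    exact_mod_cast this
  choose C hC hC' using fun (s : ℕ) (f : V q d →ₗ[ZMod q] V q s) =>
    corr (fun a : V q d => f a) om
  have : ∀ s, Fintype (V q d →ₗ[ZMod q] V q s) := fun s =>
    @Fintype.ofFinite _ (KL_fin s)
  have : Fintype (Submodule (ZMod q) (V q d)) := Fintype.ofFinite _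
  let G : (s : ℕ) → Submodule (ZMod q) (V q d) → (V q d →ₗ[ZMod q] V q s) →
      Finset (Finset (V q d)) := fun s W f =>
    (insert univ (C s f)).image fun Y => sel fun a => a ∈ W ∧ f a ∈ Y
  refine ⟨(range (d + 1)).biUnion fun s => univ.biUnion fun W => univ.biUnion fun f => G s W f,
    ?_, ?_⟩
  · have h1 : ∀ s ∈ range (d + 1), (univ.biUnion fun W => univ.biUnion fun f => G s W f).card ≤
        q ^ (d * d) * (q ^ (d * d) * q ^ (4 * d + 9846 * d * q * om)) := by
      intro s hs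
      have hs' : s ≤ d := Nat.lt_succ_iff.1 (mem_range.1 hs)
      refine (card_biUnion_le_card_mul _ _
        (q ^ (d * d) * q ^ (4 * d + 9846 * d * q * om)) fun W _ => ?_).trans ?_
      · refine (card_biUnion_le_card_mul _ _ (q ^ (4 * d + 9846 * d * q * om))
          fun f _ => ?_).trans ?_
        · refine card_image_le.trans ((card_insert_le _ _).trans ?_)
          have := hC s f
          rw [card_V] at this
          exact (Nat.add_le_add_right this 1).trans (KL_count hq hd hdo ho' hs')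
        · refine Nat.mul_le_mul_right _ ?_
          rw [card_univ, ← Nat.card_eq_fintype_card, card_linmap]
          exact Nat.pow_le_pow_right (by omega) (Nat.mul_le_mul_right _ hs')
      · refine Nat.mul_le_mul_right _ ?_
        rw [card_univ, ← Nat.card_eq_fintype_card]
        exact card_submodule
    have h2 := card_biUnion_le_card_mul _ _ _ h1
    rw [card_range] at h2
    have h3 : d + 1 ≤ q ^ d := by omega
    have h4 : (d + 1) * (q ^ (d * d) * (q ^ (d * d) * q ^ (4 * d + 9846 * d * q * om))) ≤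
        q ^ (16000 * d * q * om) := by
      refine (Nat.mul_le_mul_right _ h3).trans ?_
      rw [← pow_add, ← pow_add, ← pow_add]
      refine Nat.pow_le_pow_right (by omega) ?_
      have a1 : d * d ≤ d * q * om := by
        calc d * d ≤ d * (1 * om) := by gcongr; omega
          _ ≤ d * (q * om) := by gcongr; omega
          _ = _ := by ring
      have a2 : d ≤ d * d := Nat.le_mul_of_pos_left _ hd
      have a3 : 9846 * d * q * om = 9846 * (d * q * om) := by ring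
      have a4 : 16000 * d * q * om = 16000 * (d * q * om) := by ring
      omega
    have h5 : ((q ^ (16000 * d * q * om) : ℕ) : ℝ) =
        Real.exp (16000 * d * q * Real.log q * om) := by
      rw [Nat.cast_pow]
      conv_lhs => rw [← Real.exp_log hq0, ← Real.exp_nat_mul]
      congr 1
      push_cast
      ring
    rw [← h5]
    exact_mod_cast h2.trans h4
  · intro s hs A B hφ hdot hsum hbig hord
    have mem : ∀ (W : Submodule (ZMod q) (V q d)) (f : V q d →ₗ[ZMod q] V q s)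
        (Y : Finset (V q s)), Y ∈ insert univ (C s f) →
        (sel fun a => a ∈ W ∧ f a ∈ Y) ∈ (range (d + 1)).biUnion fun s =>
          univ.biUnion fun W => univ.biUnion fun f => G s W f := fun W f Y hY =>
      mem_biUnion.2 ⟨s, mem_range.2 (Nat.lt_succ_of_le hs), mem_biUnion.2 ⟨W, mem_univ _,
        mem_biUnion.2 ⟨f, mem_univ _, mem_image.2 ⟨Y, hY, rfl⟩⟩⟩⟩
    have hφ0 : A.φ * B.φ * q ^ s ≠ 0 := by rw [hφ]; exact pow_ne_zero _ (by omega)
    have ha : (0 : ℝ) < A.φ := by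
      have : A.φ ≠ 0 := fun h => hφ0 (by rw [h, zero_mul, zero_mul])
      exact_mod_cast Nat.pos_of_ne_zero this
    have hb : (0 : ℝ) < B.φ := by
      have : B.φ ≠ 0 := fun h => hφ0 (by rw [h, mul_zero, zero_mul])
      exact_mod_cast Nat.pos_of_ne_zero this
    have hA : (0 : ℝ) < A.Z.card := by exact_mod_cast A.ne.card_pos
    have hB : (0 : ℝ) < B.Z.card := by exact_mod_cast B.ne.card_pos
    obtain ⟨n1, hn1⟩ : ∃ n1 : ℝ, n1 = A.Z.card / A.φ := ⟨_, rfl⟩
    obtain ⟨n2, hn2⟩ : ∃ n2 : ℝ, n2 = B.Z.card / B.φ := ⟨_, rfl⟩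
    have e1 : (A.Z.card : ℝ) = n1 * A.φ := by rw [hn1, div_mul_cancel₀ _ ha.ne']
    have e2 : (B.Z.card : ℝ) = n2 * B.φ := by rw [hn2, div_mul_cancel₀ _ hb.ne']
    have p1 : 0 < n1 := hn1 ▸ div_pos hA ha
    have p2 : 0 < n2 := hn2 ▸ div_pos hB hb
    have h12 : n1 ≤ n2 := by
      rw [hn1, hn2, div_le_div_iff₀ ha hb]
      exact_mod_cast hord
    have hφ' : (A.φ : ℝ) * B.φ * (q : ℝ) ^ s = (q : ℝ) ^ d := by exact_mod_cast hφ
    have hs3 : (q : ℝ) ^ s ≤ Real.exp om ^ 3 * (n1 * n2) := by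
      rw [← hφ', e1, e2] at hbig
      refine le_of_mul_le_mul_left (a := (A.φ : ℝ) * B.φ) ?_ (by positivity)
      calc _ ≤ _ := hbig
        _ = _ := by ring
    by_cases hc : Real.exp om ^ 500 ≤ n1
    · have hfib : ∀ z, ((selIn A.Z fun a => A.B a = z).card : ℝ) * n1 ≤ A.Z.card := by
        intro z
        have : (selIn A.Z fun a => A.B a = z).card ≤ A.φ :=
          le_trans (card_le_card fun a ha =>
            mem_sel.2 ⟨A.sub a (mem_selIn.1 ha).1, (mem_selIn.1 ha).2⟩) (A.fib z)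
        have h' : ((selIn A.Z fun a => A.B a = z).card : ℝ) ≤ A.φ := by exact_mod_cast this
        rw [e1, mul_comm n1]
        gcongr
      have hhalf := half_low (x := 1 / 64) (by norm_num) hsum
      have hT : n2 ≤ 2 * ((sel fun b : V q s =>
          q * (((hp (fun a => A.B a) b ∩ A.Z).card : ℝ) / A.Z.card) ≤ 1 / 32).card : ℝ) := by
        have := KL_fib B (H := B.Z ∩ low (2 * (1 / 64)) A.Z) (Y := sel fun b : V q s =>
          q * (((hp (fun a => A.B a) b ∩ A.Z).card : ℝ) / A.Z.card) ≤ 1 / 32)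
          (fun b hb => B.sub b (mem_inter.1 hb).1) fun b hb => by
            have h1 := mem_low.1 (mem_inter.1 hb).2
            have h2 : hp (fun a => A.B a) (B.B b) ∩ A.Z = pl b ∩ A.Z := by
              ext a
              simp only [hp, pl, mem_inter, mem_sel]
              refine and_congr_left fun ha => ?_
              rw [hdot a (A.sub a ha) b (B.sub b (mem_inter.1 hb).1)]
            rw [mem_sel, h2]
            change (q : ℝ) * ((cnt A.Z b : ℝ) / A.Z.card) ≤ 1 / 32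
            rw [le_div_iff₀ hq0] at h1
            rw [mul_div_assoc', div_le_iff₀ hA]
            linarith
        have h3 : (B.Z.card : ℝ) ≤ 2 * (B.φ * ((sel fun b : V q s =>
            q * (((hp (fun a => A.B a) b ∩ A.Z).card : ℝ) / A.Z.card) ≤ 1 / 32).card : ℝ)) := by
          exact_mod_cast hhalf.trans (Nat.mul_le_mul_left 2 this)
        rw [hn2, div_le_iff₀ hb]
        linarith
      have hM := card_half_le A.ne (fun a => A.B a) p1 hfib
      have hsub : ((sel fun b : V q s =>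
          q * (((hp (fun a => A.B a) b ∩ A.Z).card : ℝ) / A.Z.card) ≤ 1 / 32).card : ℝ) ≤
          (sel fun b : V q s =>
          q * (((hp (fun a => A.B a) b ∩ A.Z).card : ℝ) / A.Z.card) ≤ 1 / 2).card := by
        refine Nat.cast_le.2 (card_le_card fun b hb => ?_)
        rw [mem_sel] at hb ⊢
        exact hb.trans (by norm_num)
      have hsq : n1 ^ 2 ≤ 8 * (q : ℝ) ^ (s + 2) := by nlinarith
      have hso : s + Real.log q ≤ om := by
        have : (s : ℝ) ≤ d := by exact_mod_cast hs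
        linarith
      obtain ⟨r, G', ζ, hcp⟩ := cp_exists hL hso hc hsq
      let D : Dat q s (V q d) :=
        ⟨A.Z, fun a => A.B a, om, r, G', n1, ζ, A.ne, hfib, A.spr, hcp⟩
      obtain ⟨Y, hY, hY1, hY2⟩ := hC' s A.B D rfl rfl (by
        change (q : ℝ) ^ s ≤ Real.exp om ^ 4 * n1 * ((sel fun b : V q s =>
          q * (((hp (fun a => A.B a) b ∩ A.Z).card : ℝ) / A.Z.card) ≤ 1 / 32).card : ℝ)
        generalize ((sel fun b : V q s =>
          q * (((hp (fun a => A.B a) b ∩ A.Z).card : ℝ) / A.Z.card) ≤ 1 / 32).card : ℝ) = t at hT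
        have ht : 0 ≤ t := by linarith
        calc (q : ℝ) ^ s ≤ Real.exp om ^ 3 * (n1 * n2) := hs3
          _ ≤ Real.exp om ^ 3 * (n1 * (Real.exp om * t)) := by gcongr; nlinarith
          _ = _ := by ring)
      change (A.Z.card : ℝ) ≤ Real.exp om ^ 576 * (selIn A.Z fun a => A.B a ∈ Y).card at hY1
      change (Y.card : ℝ) ≤ Real.exp om ^ 1151 * n1 at hY2
      refine ⟨_, mem A.W A.B Y (mem_insert_of_mem hY), selIn A.Z fun a => A.B a ∈ Y,
        fun a ha => mem_sel.2 ⟨A.sub a (mem_selIn.1 ha).1, (mem_selIn.1 ha).2⟩, ?_,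
        Or.inl ⟨selIn_subset _ _, hY1⟩⟩
      have h1 := KL_fib A (H := sel fun a => a ∈ A.W ∧ A.B a ∈ Y) (Y := Y)
        (fun a ha => (mem_sel.1 ha).1) fun a ha => (mem_sel.1 ha).2
      have h2 : ((sel fun a => a ∈ A.W ∧ A.B a ∈ Y).card : ℝ) ≤ A.φ * Y.card := by
        exact_mod_cast h1
      calc _ ≤ (A.φ : ℝ) * Y.card := h2
        _ ≤ A.φ * (Real.exp om ^ 1151 * n1) := by gcongr
        _ = Real.exp om ^ 1151 * A.Z.card := by rw [e1]; ring
        _ ≤ Real.exp om ^ 1151 * (Real.exp om ^ 576 * (selIn A.Z fun a => A.B a ∈ Y).card) := by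
          gcongr
        _ = _ := by rw [← mul_assoc, ← pow_add]
    · have hw1 : 1 ≤ Real.exp om := by linarith
      refine ⟨_, mem B.W B.B univ (mem_insert_self _ _), B.Z,
        fun a ha => mem_sel.2 ⟨B.sub a ha, mem_univ _⟩, ?_,
        Or.inr ⟨subset_rfl, le_mul_of_one_le_left hB.le (one_le_pow₀ hw1)⟩⟩
      have h1 := KL_fib B (H := sel fun a => a ∈ B.W ∧ B.B a ∈ (univ : Finset (V q s)))
        (Y := univ) (fun a ha => (mem_sel.1 ha).1) fun a _ => mem_univ _
      rw [card_univ, card_V] at h1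
      have h2 : ((sel fun a => a ∈ B.W ∧ B.B a ∈ (univ : Finset (V q s))).card : ℝ) ≤
          B.φ * (q : ℝ) ^ s := by exact_mod_cast h1
      have hc' : n1 ≤ Real.exp om ^ 500 := (not_le.1 hc).le
      calc _ ≤ (B.φ : ℝ) * (q : ℝ) ^ s := h2
        _ ≤ B.φ * (Real.exp om ^ 3 * (Real.exp om ^ 500 * n2)) := by
          gcongr
          exact hs3.trans (by gcongr)
        _ = Real.exp om ^ 503 * B.Z.card := by
          rw [e2, show 503 = 3 + 500 from rfl, pow_add]
          generalize Real.exp om ^ 3 = x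
          generalize Real.exp om ^ 500 = y
          ring
        _ ≤ _ := mul_le_mul_of_nonneg_right (pow_le_pow_right₀ hw1 (by decide)) hB.le

/-- two applications of `boost` -/
theorem twice {om : ℕ} (hL : 500 ≤ Real.log q) (hd : 1 ≤ d) (ho : d + Real.log q ≤ om)
    (U : Finset (V q d)) : ∃ F : Finset (Finset (V q d) × Finset (V q d)),
      (F.card : ℝ) ≤ Real.exp (1400000 * d * q * Real.log q * om) ∧
      (∀ XY ∈ F, (XY.1.card : ℝ) * XY.2.card ≤ (q : ℝ) ^ d * Real.exp om ^ 585) ∧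
      ∀ Z ⊆ U, ∀ Z' ⊆ low (1 / 8) Z, (U.card : ℝ) ≤ Real.exp om ^ 1727 * Z.card →
        (q : ℝ) ^ d ≤ Real.exp om ^ 580 * (Z.card * Z'.card) →
        ∃ XY ∈ F, low (1 / 8) Z ⊆ XY.2 ∧ low (1 / 8) Z' ⊆ XY.1 := by
  classical
  have hq := KL_q hL
  have hq0 : (0 : ℝ) < q := by exact_mod_cast (Fact.out : q.Prime).pos
  have hw := KL_w hL ho
  have hw1 : 1 ≤ Real.exp om := by linarith
  have hqw := KL_qw hd ho
  obtain ⟨F1, c1, p1⟩ := boost hq U (Om := Real.exp om ^ 1727) (one_le_pow₀ hw1)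
  choose F2 c2 p2 using fun Y : Finset (V q d) =>
    boost hq Y (Om := Real.exp om ^ 583) (one_le_pow₀ hw1)
  rw [Real.log_pow, Real.log_exp] at c1
  simp only [Real.log_pow, Real.log_exp] at c2
  refine ⟨(F1.biUnion fun Y => (F2 Y).image fun X => (X, Y)).filter fun XY =>
    (XY.1.card : ℝ) * XY.2.card ≤ (q : ℝ) ^ d * Real.exp om ^ 585, ?_,
    fun XY h => (mem_filter.1 h).2, ?_⟩
  · have h1 := Boost_bi F1 (fun Y => (F2 Y).image fun X => (X, Y)) _ _ (Real.exp_pos _).le c1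
      fun Y _ => le_trans (by exact_mod_cast card_image_le) (c2 Y)
    refine le_trans (by exact_mod_cast card_filter_le _ _) (h1.trans ?_)
    rw [← Real.exp_add, Real.exp_le_exp]
    have a1 : (1 : ℝ) ≤ d := by exact_mod_cast hd
    have a2 : (1 : ℝ) ≤ om := by linarith
    have a3 : 0 ≤ q * Real.log q := by positivity
    have a4 : ((d : ℝ) + 1) * (2 + 2310 * om) ≤ (2 * d) * (2312 * om) := by
      gcongr <;> linarith
    have a5 := mul_le_mul_of_nonneg_left a4 a3
    have a6 : 0 ≤ q * Real.log q * (d * om) := by positivity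
    push_cast
    nlinarith
  · intro Z hZ Z' hZ' hU hb
    have hpos : (0 : ℝ) < Z.card * Z'.card :=
      (mul_pos_iff_of_pos_left (pow_pos (Real.exp_pos _) 580)).1 ((pow_pos hq0 d).trans_le hb)
    have z1 : (0 : ℝ) < Z.card := by
      rcases (Nat.cast_nonneg (α := ℝ) Z.card).eq_or_lt with h | h
      · rw [← h] at hpos; simp at hpos
      · exact h
    have z2 : (0 : ℝ) < Z'.card := by
      rcases (Nat.cast_nonneg (α := ℝ) Z'.card).eq_or_lt with h | h
      · rw [← h] at hpos; simp at hpos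
      · exact h
    obtain ⟨Y, hY, y1, y2⟩ := p1 Z hZ (card_pos.1 (by exact_mod_cast z1)) hU
    have y3 : (Y.card : ℝ) ≤ Real.exp om ^ 583 * Z'.card := by
      refine le_of_mul_le_mul_right (a := (Z.card : ℝ)) ?_ z1
      calc (Y.card : ℝ) * Z.card ≤ 4 * (q : ℝ) ^ (d + 2) := y2
        _ = 4 * (q : ℝ) ^ 2 * (q : ℝ) ^ d := by ring
        _ ≤ Real.exp om ^ 3 * (Real.exp om ^ 580 * (Z.card * Z'.card)) := by
          gcongr
          exact hqw.trans (pow_le_pow_right₀ hw1 (by norm_num))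
        _ = _ := by
          rw [show 583 = 3 + 580 from rfl, pow_add]
          generalize Real.exp om ^ 3 = x
          generalize Real.exp om ^ 580 = y
          ring
    obtain ⟨X, hX, x1, x2⟩ := p2 Y Z' (hZ'.trans y1) (card_pos.1 (by exact_mod_cast z2)) y3
    refine ⟨(X, Y), mem_filter.2 ⟨mem_biUnion.2 ⟨Y, hY, mem_image.2 ⟨X, hX, rfl⟩⟩, ?_⟩, y1, x1⟩
    calc (X.card : ℝ) * Y.card ≤ X.card * (Real.exp om ^ 583 * Z'.card) := by gcongr
      _ = Real.exp om ^ 583 * (X.card * Z'.card) := by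
        generalize Real.exp om ^ 583 = x
        ring
      _ ≤ Real.exp om ^ 583 * (4 * (q : ℝ) ^ (d + 2)) := by gcongr
      _ = Real.exp om ^ 583 * (4 * (q : ℝ) ^ 2) * (q : ℝ) ^ d := by
        generalize Real.exp om ^ 583 = x
        ring
      _ ≤ Real.exp om ^ 583 * Real.exp om ^ 2 * (q : ℝ) ^ d := by gcongr
      _ = _ := by rw [← pow_add, mul_comm]

/-- `red`, `ufam` in the order given by `n1 ≤ n2`, `half_low`, `twice`; close the family under
`Prod.swap` -/
theorem kl {om : ℕ} (hL : 500 ≤ Real.log q) (hd : 1 ≤ d) (ho : d + Real.log q ≤ om)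
    (ho' : 2000 * om ≤ q ^ d) : ∃ F : Finset (Finset (V q d) × Finset (V q d)),
      (F.card : ℝ) ≤ Real.exp (1500000 * d * q * Real.log q * om) ∧ KLp om F := by
  classical
  have hq := KL_q hL
  have hq0 : (0 : ℝ) < q := by exact_mod_cast (Fact.out : q.Prime).pos
  have hw := KL_w hL ho
  have hw1 : 1 ≤ Real.exp om := by linarith
  obtain ⟨C, cC, pC⟩ := ufam hL hd ho ho'
  choose F cF sF pF using twice hL hd ho
  refine ⟨C.biUnion F ∪ (C.biUnion F).image Prod.swap, ?_, ?_, ?_⟩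
  · have h1 := Boost_bi C F _ _ (Real.exp_pos _).le cC fun U _ => cF U
    have h2 : ((C.biUnion F ∪ (C.biUnion F).image Prod.swap).card : ℝ) ≤
        2 * (C.biUnion F).card := by
      have := (card_union_le (C.biUnion F) ((C.biUnion F).image Prod.swap)).trans
        (Nat.add_le_add_left card_image_le _)
      rw [← two_mul] at this
      exact_mod_cast this
    have h3 : (2 : ℝ) ≤ Real.exp 1 := by linarith [Real.add_one_le_exp (1 : ℝ)]
    calc _ ≤ 2 * ((C.biUnion F).card : ℝ) := h2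
      _ ≤ Real.exp 1 * (Real.exp (16000 * d * q * Real.log q * om) *
          Real.exp (1400000 * d * q * Real.log q * om)) := by gcongr
      _ ≤ _ := by
        rw [← Real.exp_add, ← Real.exp_add, Real.exp_le_exp]
        have a1 : (1 : ℝ) ≤ d := by exact_mod_cast hd
        have a2 : (1 : ℝ) ≤ om := by linarith
        have a3 : (1 : ℝ) ≤ q := by exact_mod_cast (show 1 ≤ q by omega)
        have a4 : (1 : ℝ) * 1 * 1 * 1 ≤ d * q * Real.log q * om := by
          gcongr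
          linarith
        nlinarith
  · intro XY h
    rcases mem_union.1 h with h | h
    · obtain ⟨U, -, h⟩ := mem_biUnion.1 h
      exact sF U XY h
    · obtain ⟨XY', h', rfl⟩ := mem_image.1 h
      obtain ⟨U, -, h''⟩ := mem_biUnion.1 h'
      have := sF U XY' h''
      rwa [mul_comm] at this
  · intro P S hSP hb
    have hPS : (0 : ℝ) < P.card * S.card :=
      (mul_pos_iff_of_pos_right (Real.exp_pos _)).1 ((pow_pos hq0 d).trans_le hb)
    have hP : P.Nonempty := by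
      rcases P.eq_empty_or_nonempty with h | h
      · simp [h] at hPS
      · exact h
    have hS : S.Nonempty := by
      rcases S.eq_empty_or_nonempty with h | h
      · simp [h] at hPS
      · exact h
    obtain ⟨s, hs, A, B, hA, hB, hφ, hdot, hcard, hAl, hBl⟩ := red hP hS hSP
    have h2d : (2 : ℝ) ^ (d + 2) ≤ Real.exp om ^ 2 := by
      have h3 : (2 : ℝ) ≤ Real.exp 1 := by linarith [Real.add_one_le_exp (1 : ℝ)]
      calc (2 : ℝ) ^ (d + 2) ≤ Real.exp 1 ^ (d + 2) := by gcongr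
        _ ≤ _ := by
          rw [← Real.exp_nat_mul, ← Real.exp_nat_mul, Real.exp_le_exp]
          have : (0 : ℝ) ≤ d := Nat.cast_nonneg d
          push_cast
          linarith
    have hbig : (q : ℝ) ^ d ≤ Real.exp om ^ 3 * (A.Z.card * B.Z.card) := by
      have h1 : (P.card : ℝ) * S.card ≤ 2 ^ (d + 2) * (A.Z.card * B.Z.card) := by
        exact_mod_cast hcard
      calc (q : ℝ) ^ d ≤ P.card * S.card * Real.exp om := hb
        _ ≤ Real.exp om ^ 2 * (A.Z.card * B.Z.card) * Real.exp om :=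
          mul_le_mul_of_nonneg_right (h1.trans (by gcongr)) (Real.exp_pos _).le
        _ = _ := by ring
    have hsum := sum_cnt_le hBl
    have key : ∃ U ∈ C, ∃ Z ⊆ U, (U.card : ℝ) ≤ Real.exp om ^ 1727 * Z.card ∧
        (Z ⊆ A.Z ∧ (A.Z.card : ℝ) ≤ Real.exp om ^ 576 * Z.card ∨
          Z ⊆ B.Z ∧ (B.Z.card : ℝ) ≤ Real.exp om ^ 576 * Z.card) := by
      rcases le_total (A.Z.card * B.φ) (B.Z.card * A.φ) with h | h
      · exact pC s hs A B hφ hdot hsum hbig h
      · obtain ⟨U, hU, Z, hZ, h1, h2⟩ := pC s hs B A (by rw [mul_comm B.φ]; exact hφ)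
          (fun a ha b hb => by rw [dotProduct_comm, hdot b hb a ha, dotProduct_comm])
          (by rw [← sum_cnt]; refine hsum.trans_eq ?_; ring)
          (by rw [mul_comm (B.Z.card : ℝ)]; exact hbig) h
        exact ⟨U, hU, Z, hZ, h1, h2.symm⟩
    have fin : ∀ x y z z' : ℝ, 0 ≤ z → 0 ≤ z' → 0 ≤ y → x ≤ Real.exp om ^ 576 * z → y ≤ 2 * z' →
        (q : ℝ) ^ d ≤ Real.exp om ^ 3 * (x * y) →
        (q : ℝ) ^ d ≤ Real.exp om ^ 580 * (z * z') := by
      intro x y z z' hz hz' hy h1 h2 h3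
      calc (q : ℝ) ^ d ≤ Real.exp om ^ 3 * (x * y) := h3
        _ ≤ Real.exp om ^ 3 * (Real.exp om ^ 576 * z * (Real.exp om * z')) := by
          gcongr
          exact h2.trans (by gcongr)
        _ = _ := by
          rw [show 580 = 3 + 576 + 1 from rfl, pow_add, pow_add, pow_one]
          generalize Real.exp om ^ 3 = u
          generalize Real.exp om ^ 576 = v
          ring
    have ne : ∀ Z Z' : Finset (V q d),
        (q : ℝ) ^ d ≤ Real.exp om ^ 580 * (Z.card * Z'.card) → Z.Nonempty ∧ Z'.Nonempty := by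
      intro Z Z' h
      have h0 : (0 : ℝ) < (q : ℝ) ^ d := by positivity
      constructor
      · rcases Z.eq_empty_or_nonempty with e | e
        · rw [e, card_empty, Nat.cast_zero, zero_mul, mul_zero] at h; linarith
        · exact e
      · rcases Z'.eq_empty_or_nonempty with e | e
        · rw [e, card_empty, Nat.cast_zero, mul_zero, mul_zero] at h; linarith
        · exact e
    obtain ⟨U, hU, Z, hZ, h1, ⟨h2, h3⟩ | ⟨h2, h3⟩⟩ := key
    · have s1 := sum_cnt_le (h2.trans hAl)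
      have s2 := half_low (x := 1 / 128) (P := Z) (S := S) (by norm_num)
        (by rw [sum_cnt]; refine s1.trans_eq ?_; ring)
      have s3 : (B.Z.card : ℝ) ≤ 2 * (S ∩ low (2 * (1 / 128)) Z).card := by
        exact_mod_cast (card_le_card hB).trans s2
      have s4 := fin _ _ _ _ (Nat.cast_nonneg _) (Nat.cast_nonneg _) (Nat.cast_nonneg _) h3 s3 hbig
      obtain ⟨XY, hXY, t1, t2⟩ := pF U Z hZ (S ∩ low (2 * (1 / 128)) Z)
        (inter_subset_right.trans (low_mono (by norm_num) Z)) h1 s4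
      exact ⟨XY, mem_union_left _ (mem_biUnion.2 ⟨U, hU, hXY⟩), Z, h2.trans hA, _,
        inter_subset_left, (ne _ _ s4).1, (ne _ _ s4).2, t1, t2⟩
    · have s1 := sum_cnt_le (h2.trans hBl)
      have s2 := half_low (x := 1 / 64) (P := Z) (S := A.Z) (by norm_num)
        (by rw [← sum_cnt]; refine s1.trans_eq ?_; ring)
      have s3 : (A.Z.card : ℝ) ≤ 2 * (A.Z ∩ low (2 * (1 / 64)) Z).card := by exact_mod_cast s2
      have s4 := fin _ _ _ _ (Nat.cast_nonneg _) (Nat.cast_nonneg _) (Nat.cast_nonneg _) h3 s3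
        (by rw [mul_comm (B.Z.card : ℝ)]; exact hbig)
      obtain ⟨XY, hXY, t1, t2⟩ := pF U Z hZ (A.Z ∩ low (2 * (1 / 64)) Z)
        (inter_subset_right.trans (low_mono (by norm_num) Z)) h1 s4
      exact ⟨XY.swap, mem_union_right _ (mem_image.2 ⟨XY, mem_biUnion.2 ⟨U, hU, hXY⟩, rfl⟩),
        _, inter_subset_left.trans hA, Z, h2.trans hB, (ne _ _ s4).2, (ne _ _ s4).1, t2, t1⟩

end Pool.Agent.Work.MP_e10cd8_co.Mid
end
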